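import Mathlib
import Pool.Agent.H36.IS.MtA

/-!
# LQ / PG stage 2, OmB: few integers have many prime factors

`∑_{a ≤ N} (√2)^Ω(a) / a ≤ ∏_{p ≤ N} (1 - √2/p)⁻¹ ≤ ∏_{p ≤ N} (1 - 1/p)⁻² ≤ C (log N)²`, so at most
`C N (log N)² / √K` integers `a ≤ N` have `2^Ω(a) > K`.
-/

set_option autoImplicit false

namespace Pool.Agent.H78.PH

open Finset ArithmeticFunction

/-- the completely multiplicative function `(√2)^Ω(n) / n` -/
private noncomputable def ombF : ℕ →* ℝ where
  toFun n := if n = 0 then 0 else Real.sqrt 2 ^ (cardFactors n) / n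
  map_one' := by simp
  map_mul' a b := by
    rcases eq_or_ne a 0 with ha | ha
    · simp [ha]
    rcases eq_or_ne b 0 with hb | hb
    · simp [hb]
    rw [if_neg ha, if_neg hb, if_neg (mul_ne_zero ha hb), cardFactors_mul ha hb, pow_add]
    push_cast
    have ha' : (a : ℝ) ≠ 0 := by exact_mod_cast ha
    have hb' : (b : ℝ) ≠ 0 := by exact_mod_cast hb
    field_simp

private theorem ombF_apply {n : ℕ} (hn : n ≠ 0) :
    ombF n = Real.sqrt 2 ^ (cardFactors n) / n := by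
  show (if n = 0 then (0 : ℝ) else Real.sqrt 2 ^ (cardFactors n) / n) = _
  rw [if_neg hn]

private theorem omb_sqrt : Real.sqrt 2 < 3 / 2 := by
  rw [Real.sqrt_lt' (by norm_num)]
  norm_num

private theorem ombF_prime {p : ℕ} (hp : p.Prime) : ombF p = Real.sqrt 2 / p := by
  rw [ombF_apply hp.ne_zero, cardFactors_apply_prime hp, pow_one]

private theorem ombF_nonneg (n : ℕ) : 0 ≤ ombF n := by
  rcases eq_or_ne n 0 with h | h
  · show 0 ≤ (if n = 0 then (0 : ℝ) else Real.sqrt 2 ^ (cardFactors n) / n)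
    rw [if_pos h]
  · rw [ombF_apply h]
    positivity

private theorem omb_factor {p : ℕ} (hp : p.Prime) :
    (1 - ombF p)⁻¹ ≤ ((1 - 1 / (p : ℝ))⁻¹) ^ 2 := by
  rw [ombF_prime hp]
  have hp2 : (2 : ℝ) ≤ p := by exact_mod_cast hp.two_le
  have hp0 : (0 : ℝ) < p := by linarith
  have h1 : 1 / (p : ℝ) ≤ 1 / 2 := one_div_le_one_div_of_le (by norm_num) hp2
  have h2 : Real.sqrt 2 * Real.sqrt 2 = 2 := Real.mul_self_sqrt (by norm_num)
  have h3 : Real.sqrt 2 ≤ 1.415 := by
    rw [Real.sqrt_le_left (by norm_num)]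
    norm_num
  have hq : (0 : ℝ) < 1 / p := by positivity
  have h4 : (1 - 1 / (p : ℝ)) ^ 2 ≤ 1 - Real.sqrt 2 / p := by
    have h5 : Real.sqrt 2 / p = Real.sqrt 2 * (1 / p) := by ring
    rw [h5]
    nlinarith
  have h5 : 0 < (1 - 1 / (p : ℝ)) ^ 2 := by
    have : 0 < 1 - 1 / (p : ℝ) := by linarith
    positivity
  rw [inv_pow]
  exact inv_anti₀ h5 h4

private theorem omb_euler (N : ℕ) :
    ∑ a ∈ Icc 1 N, ombF a ≤ ∏ p ∈ (N + 1).primesBelow, (1 - ombF p)⁻¹ := by
  have hlt : ∀ {p : ℕ}, p.Prime → ‖ombF p‖ < 1 := by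
    intro p hp
    rw [Real.norm_of_nonneg (ombF_nonneg _), ombF_prime hp]
    have hp2 : (2 : ℝ) ≤ p := by exact_mod_cast hp.two_le
    rw [div_lt_one (by linarith)]
    linarith [omb_sqrt]
  obtain ⟨-, hs⟩ :=
    EulerProduct.summable_and_hasSum_smoothNumbers_prod_primesBelow_geometric hlt (N + 1)
  have hmem : ∀ d ∈ Icc 1 N, d ∈ (N + 1).smoothNumbers := by
    intro d hd
    rw [mem_Icc] at hd
    rw [Nat.mem_smoothNumbers']
    intro p hp hpd
    have := Nat.le_of_dvd (by omega) hpd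
    omega
  have h2 : ∑ d ∈ Icc 1 N, ombF d
      = ∑ x ∈ (Icc 1 N).attach.image
          (fun d => (⟨d.1, hmem d.1 d.2⟩ : (N + 1).smoothNumbers)), ombF (x : ℕ) := by
    rw [sum_image]
    · rw [← sum_attach]
    · intro a _ b _ hab
      exact Subtype.ext (congrArg (fun z : (N + 1).smoothNumbers => (z : ℕ)) hab)
  rw [h2]
  refine (sum_le_hasSum _ (fun x _ => ?_) hs).trans_eq rfl
  exact ombF_nonneg _

private theorem omb_mertens : ∃ A : ℝ, 0 < A ∧ ∀ N : ℕ, 1 ≤ N →
    ∏ p ∈ (N + 1).primesBelow, (1 - 1 / (p : ℝ))⁻¹ ≤ A * (1 + Real.log N) := by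
  obtain ⟨c, hc⟩ := Pool.Agent.H36.IS.mertA
  have h1 := hc.eventually (gt_mem_nhds (show c < c + 1 by linarith))
  rw [Filter.eventually_atTop] at h1
  obtain ⟨n0, hn0⟩ := h1
  have hprod : ∀ n : ℕ, ∏ p ∈ (n + 1).primesBelow, (1 - 1 / (p : ℝ))⁻¹
      = Real.exp (Pool.Agent.H36.IS.fS n) := by
    intro n
    unfold Pool.Agent.H36.IS.fS
    rw [Real.exp_sum]
    have : (n + 1).primesBelow = (range (n + 1)).filter Nat.Prime := rfl
    rw [this]
    refine Finset.prod_congr rfl (fun p hp => ?_)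
    rw [mem_filter] at hp
    have hp2 : (2 : ℝ) ≤ p := by exact_mod_cast hp.2.two_le
    have h2 : 1 / (p : ℝ) ≤ 1 / 2 := one_div_le_one_div_of_le (by norm_num) hp2
    have h3 : 0 < 1 - 1 / (p : ℝ) := by linarith
    rw [Real.exp_neg, Real.exp_log h3]
  have hmono : ∀ a b : ℕ, a ≤ b → ∏ p ∈ (a + 1).primesBelow, (1 - 1 / (p : ℝ))⁻¹
      ≤ ∏ p ∈ (b + 1).primesBelow, (1 - 1 / (p : ℝ))⁻¹ := by
    intro a b hab
    rw [hprod, hprod]
    apply Real.exp_le_exp.2
    unfold Pool.Agent.H36.IS.fS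
    apply Finset.sum_le_sum_of_subset_of_nonneg
    · intro p hp
      rw [mem_filter, mem_range] at hp ⊢
      exact ⟨by omega, hp.2⟩
    · intro p hp _
      rw [mem_filter] at hp
      have hp2 : (2 : ℝ) ≤ p := by exact_mod_cast hp.2.two_le
      have h2 : 1 / (p : ℝ) ≤ 1 / 2 := one_div_le_one_div_of_le (by norm_num) hp2
      have h4 : 0 < 1 / (p : ℝ) := by positivity
      have := Real.log_nonpos (show (0 : ℝ) ≤ 1 - 1 / p by linarith) (by linarith)
      linarith
  set n1 := max n0 3 with hn1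
  set B := ∏ p ∈ (n1 + 1).primesBelow, (1 - 1 / (p : ℝ))⁻¹ with hB
  have hB0 : 0 < B := by
    rw [hB, hprod]
    exact Real.exp_pos _
  refine ⟨B + Real.exp (c + 1), by positivity, fun N hN => ?_⟩
  have hlog : 0 ≤ Real.log N := Real.log_nonneg (by exact_mod_cast hN)
  rcases Nat.lt_or_ge N n1 with h | h
  · have h2 := hmono N n1 h.le
    have h3 : (0 : ℝ) < Real.exp (c + 1) := Real.exp_pos _
    calc ∏ p ∈ (N + 1).primesBelow, (1 - 1 / (p : ℝ))⁻¹ ≤ B := h2
      _ = B * 1 := by ring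
      _ ≤ (B + Real.exp (c + 1)) * (1 + Real.log N) :=
        mul_le_mul (by linarith) (by linarith) (by norm_num) (by positivity)
  · have h2 := hn0 N ((le_max_left _ _).trans h)
    have hN3 : (3 : ℝ) ≤ N := by exact_mod_cast (le_max_right _ _).trans h
    have hlogpos : 0 < Real.log N := Real.log_pos (by linarith)
    rw [hprod]
    have h3 : Pool.Agent.H36.IS.fS N ≤ (c + 1) + Real.log (Real.log N) := by linarith
    calc Real.exp (Pool.Agent.H36.IS.fS N) ≤ Real.exp ((c + 1) + Real.log (Real.log N)) :=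
          Real.exp_le_exp.2 h3
      _ = Real.exp (c + 1) * Real.log N := by rw [Real.exp_add, Real.exp_log hlogpos]
      _ ≤ (B + Real.exp (c + 1)) * (1 + Real.log N) :=
        mul_le_mul (by linarith) (by linarith) hlogpos.le (by positivity)

/-- at most `A N (1 + log N)² / √K` integers up to `N` have `2^Ω > K` -/
theorem omB : ∃ A : ℝ, 0 < A ∧ ∀ N : ℕ, 1 ≤ N → ∀ K : ℝ, 0 < K →
    (((Icc 1 N).filter (fun a => K < (2 : ℝ) ^ (cardFactors a))).card : ℝ)
      ≤ A * N * (1 + Real.log N) ^ 2 / Real.sqrt K := by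
  classical
  obtain ⟨A, hA, H⟩ := omb_mertens
  refine ⟨A ^ 2, by positivity, fun N hN K hK => ?_⟩
  have hNR : (1 : ℝ) ≤ N := by exact_mod_cast hN
  have hsK : 0 < Real.sqrt K := Real.sqrt_pos.2 hK
  have h1 : ∏ p ∈ (N + 1).primesBelow, (1 - ombF p)⁻¹ ≤ (A * (1 + Real.log N)) ^ 2 := by
    have h2 : ∏ p ∈ (N + 1).primesBelow, (1 - ombF p)⁻¹
        ≤ ∏ p ∈ (N + 1).primesBelow, ((1 - 1 / (p : ℝ))⁻¹) ^ 2 := by
      refine Finset.prod_le_prod (fun p hp => ?_) (fun p hp => ?_)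
      · rw [Nat.mem_primesBelow] at hp
        rw [ombF_prime hp.2, inv_nonneg, sub_nonneg]
        have hp2 : (2 : ℝ) ≤ p := by exact_mod_cast hp.2.two_le
        rw [div_le_one (by linarith)]
        linarith [omb_sqrt]
      · rw [Nat.mem_primesBelow] at hp
        exact omb_factor hp.2
    rw [Finset.prod_pow] at h2
    refine h2.trans ?_
    apply pow_le_pow_left₀ _ (H N hN)
    apply Finset.prod_nonneg
    intro p hp
    rw [Nat.mem_primesBelow] at hp
    have hp2 : (2 : ℝ) ≤ p := by exact_mod_cast hp.2.two_le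
    have h2 : 1 / (p : ℝ) ≤ 1 / 2 := one_div_le_one_div_of_le (by norm_num) hp2
    rw [inv_nonneg]
    linarith
  have h2 := (omb_euler N).trans h1
  have h3 : (((Icc 1 N).filter (fun a => K < (2 : ℝ) ^ (cardFactors a))).card : ℝ)
      * (Real.sqrt K / N) ≤ ∑ a ∈ Icc 1 N, ombF a := by
    calc (((Icc 1 N).filter (fun a => K < (2 : ℝ) ^ (cardFactors a))).card : ℝ)
          * (Real.sqrt K / N)
        = ∑ a ∈ (Icc 1 N).filter (fun a => K < (2 : ℝ) ^ (cardFactors a)),
          (Real.sqrt K / N) := by rw [Finset.sum_const, nsmul_eq_mul]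
      _ ≤ ∑ a ∈ (Icc 1 N).filter (fun a => K < (2 : ℝ) ^ (cardFactors a)), ombF a := by
        refine Finset.sum_le_sum (fun a ha => ?_)
        rw [mem_filter, mem_Icc] at ha
        obtain ⟨⟨ha1, ha2⟩, ha3⟩ := ha
        rw [ombF_apply (by omega)]
        have haR : (1 : ℝ) ≤ a := by exact_mod_cast ha1
        have haN : (a : ℝ) ≤ N := by exact_mod_cast ha2
        have h4 : Real.sqrt 2 ^ (cardFactors a) = Real.sqrt ((2 : ℝ) ^ (cardFactors a)) := by
          rw [Real.sqrt_eq_rpow, Real.sqrt_eq_rpow, ← Real.rpow_natCast, ← Real.rpow_natCast,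
            ← Real.rpow_mul (by norm_num), ← Real.rpow_mul (by norm_num)]
          congr 1
          ring
        rw [h4]
        have h5 : Real.sqrt K ≤ Real.sqrt ((2 : ℝ) ^ (cardFactors a)) := Real.sqrt_le_sqrt ha3.le
        exact div_le_div₀ (Real.sqrt_nonneg _) h5 (by linarith) haN
      _ ≤ ∑ a ∈ Icc 1 N, ombF a :=
        Finset.sum_le_sum_of_subset_of_nonneg (Finset.filter_subset _ _)
          (fun a _ _ => ombF_nonneg a)
  have h4 := h3.trans h2
  rw [le_div_iff₀ hsK]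
  have hN0 : (0 : ℝ) < N := by linarith
  rw [← mul_div_assoc, div_le_iff₀ hN0] at h4
  calc (((Icc 1 N).filter (fun a => K < (2 : ℝ) ^ (cardFactors a))).card : ℝ) * Real.sqrt K
      ≤ (A * (1 + Real.log N)) ^ 2 * N := h4
    _ = A ^ 2 * N * (1 + Real.log N) ^ 2 := by ring

end Pool.Agent.H78.PH
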