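import Pool.Agent.H78.PH.Defs
import Pool.Agent.H78.PG.TGrow

/-!
# LQ / PG stage 2, HNum: numerics

`small`: `Rho C m ρ` gives `ρ^c ≤ (log m)^(-c C)`; take `C` with `c C ≥ k + 1`; `A (1 + log m)^k ≤ (log m)^(k+1)` for large `m`.
`rho_pow`: `ρ^c ≥ m^(-c/100)`, compared with a power saving `A (1 + log m)^k m^(-θ)`, `θ > c/100` (`grow`).
`tot_log`: `m/φ(m) = ∏_{p | m} (1 - 1/p)⁻¹`; the `i`-th prime factor (in increasing order) is `≥ i + 1`, so the product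
is `≤ ∏_{i=1}^{ω} (i+1)/i = ω + 1`, and `2^ω ≤ m`, so `ω ≤ log m/log 2 ≤ 2 log m`.
`omega_le`: `2^ω(y) ≤ y` (`Nat.primeFactors`, product of the prime factors divides `y`).
-/

set_option autoImplicit false

namespace Pool.Agent.H78.PH

open Finset
open Pool.Agent.H34PG (lam lam_val lam_mul lam_prime)
open Pool.Agent.H11.LQ Pool.Agent.H78.PG

theorem small (A : ℝ) (k : ℕ) (c : ℝ) (hc : 0 < c) : ∃ C : ℕ, ∃ m0 : ℕ, ∀ m : ℕ, m0 ≤ m →
    ∀ ρ : ℝ, Rho C m ρ → A * (1 + Real.log m) ^ k * ρ ^ c ≤ 1 := by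
  refine ⟨⌈((k : ℝ) + 1) / c⌉₊, ⌈Real.exp (max 1 (|A| * 2 ^ k))⌉₊, fun m hm ρ hρ => ?_⟩
  obtain ⟨h0, _, h2⟩ := hρ
  have hm1 : Real.exp (max 1 (|A| * 2 ^ k)) ≤ (m : ℝ) :=
    (Nat.le_ceil _).trans (by exact_mod_cast hm)
  have hm0 : (0 : ℝ) < m := (Real.exp_pos _).trans_le hm1
  have hL : max 1 (|A| * 2 ^ k) ≤ Real.log m := (Real.le_log_iff_exp_le hm0).mpr hm1
  obtain ⟨L, hLe⟩ : ∃ L, L = Real.log m := ⟨_, rfl⟩
  rw [← hLe] at hL h2 ⊢
  have hL1 : 1 ≤ L := (le_max_left _ _).trans hL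
  have hLA : |A| * 2 ^ k ≤ L := (le_max_right _ _).trans hL
  have hL0 : 0 < L := by linarith
  obtain ⟨C, hC⟩ : ∃ C, C = ⌈((k : ℝ) + 1) / c⌉₊ := ⟨_, rfl⟩
  rw [← hC] at h2
  have hCc : ((k + 1 : ℕ) : ℝ) ≤ C * c := by
    have h3 : ((k : ℝ) + 1) / c ≤ C := hC ▸ Nat.le_ceil _
    rw [div_le_iff₀ hc] at h3
    push_cast
    exact h3
  have h4 : ρ ^ c * L ^ (k + 1) ≤ 1 := by
    have h5 : (ρ * L ^ C) ^ c ≤ 1 := Real.rpow_le_one (by positivity) h2 hc.le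
    rw [Real.mul_rpow h0.le (by positivity), ← Real.rpow_natCast, ← Real.rpow_mul hL0.le] at h5
    have h6 : L ^ (k + 1) ≤ L ^ ((C : ℝ) * c) := by
      rw [← Real.rpow_natCast]
      exact Real.rpow_le_rpow_of_exponent_le hL1 hCc
    exact (mul_le_mul_of_nonneg_left h6 (Real.rpow_nonneg h0.le c)).trans h5
  have h7 : 0 ≤ ρ ^ c := Real.rpow_nonneg h0.le c
  have h8 : (1 + L) ^ k ≤ (2 * L) ^ k := pow_le_pow_left₀ (by linarith) (by linarith) k
  calc A * (1 + L) ^ k * ρ ^ c ≤ |A| * (2 * L) ^ k * ρ ^ c := by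
        refine mul_le_mul_of_nonneg_right ?_ h7
        exact mul_le_mul (le_abs_self A) h8 (by positivity) (abs_nonneg A)
    _ = (|A| * 2 ^ k) * (L ^ k * ρ ^ c) := by rw [mul_pow]; ring
    _ ≤ L * (L ^ k * ρ ^ c) := mul_le_mul_of_nonneg_right hLA (by positivity)
    _ = ρ ^ c * L ^ (k + 1) := by ring
    _ ≤ 1 := h4

/-- power savings beat powers of `ρ` -/
theorem rho_pow (A : ℝ) (k : ℕ) (c θ : ℝ) (hc : 0 < c) (hθ : c / 100 < θ) : ∃ m0 : ℕ,
    ∀ m : ℕ, m0 ≤ m → ∀ ρ : ℝ, Rho 0 m ρ →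
      A * (1 + Real.log m) ^ k * (m : ℝ) ^ (-θ) ≤ ρ ^ c := by
  obtain ⟨m0, h⟩ := grow A k (θ - c / 100) (by linarith)
  refine ⟨max m0 1, fun m hm ρ hρ => ?_⟩
  have hm0 : (0 : ℝ) < m := by
    have : 1 ≤ m := (le_max_right _ _).trans hm
    exact_mod_cast this
  have h1 := h m ((le_max_left _ _).trans hm)
  obtain ⟨h0, h2, _⟩ := hρ
  calc A * (1 + Real.log m) ^ k * (m : ℝ) ^ (-θ)
      ≤ (m : ℝ) ^ (θ - c / 100) * (m : ℝ) ^ (-θ) :=
        mul_le_mul_of_nonneg_right h1 (Real.rpow_nonneg hm0.le _)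
    _ = ((m : ℝ) ^ (-(1 / 100 : ℝ))) ^ c := by
        rw [← Real.rpow_add hm0, ← Real.rpow_mul hm0.le]
        congr 1
        ring
    _ ≤ ρ ^ c := Real.rpow_le_rpow (Real.rpow_nonneg hm0.le _) h2 hc.le

theorem omega_le (m y : ℕ) (h1 : 1 ≤ y) (h2 : y ≤ m) :
    (y.primeFactors.card : ℝ) ≤ 2 * Real.log m := by
  have h3 : 2 ^ y.primeFactors.card ≤ m := by
    calc 2 ^ y.primeFactors.card = ∏ _p ∈ y.primeFactors, 2 := by rw [prod_const]
      _ ≤ ∏ p ∈ y.primeFactors, p :=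
          prod_le_prod' fun p hp => (Nat.prime_of_mem_primeFactors hp).two_le
      _ ≤ y := Nat.le_of_dvd h1 (Nat.prod_primeFactors_dvd y)
      _ ≤ m := h2
  have h4 : Real.log ((2 : ℝ) ^ y.primeFactors.card) ≤ Real.log m :=
    Real.log_le_log (by positivity) (by exact_mod_cast h3)
  rw [Real.log_pow] at h4
  have h5 : (1 : ℝ) / 2 ≤ Real.log 2 := by
    have := Real.log_two_gt_d9
    linarith
  have h6 := mul_le_mul_of_nonneg_left h5 (Nat.cast_nonneg (α := ℝ) y.primeFactors.card)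
  linarith

private theorem hnum_prod (S : Finset ℕ) : (∀ p ∈ S, 2 ≤ p) →
    ∏ p ∈ S, p ≤ (S.card + 1) * ∏ p ∈ S, (p - 1) := by
  induction S using Finset.induction_on_max with
  | empty => intro _; simp
  | insert M S hM ih =>
    intro h
    have hS : ∀ p ∈ S, 2 ≤ p := fun p hp => h p (mem_insert_of_mem hp)
    have hM2 : 2 ≤ M := h M (mem_insert_self _ _)
    have hnot : M ∉ S := fun h1 => (hM M h1).false
    have hcard : S.card + 2 ≤ M := by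
      have h1 : S ⊆ Ico 2 M := fun p hp => mem_Ico.mpr ⟨hS p hp, hM p hp⟩
      have h2 := card_le_card h1
      rw [Nat.card_Ico] at h2
      omega
    rw [prod_insert hnot, prod_insert hnot, card_insert_of_notMem hnot]
    obtain ⟨N, rfl⟩ : ∃ N, M = N + 1 := ⟨M - 1, by omega⟩
    have h3 := ih hS
    have h4 : (N + 1) * (S.card + 1) ≤ (S.card + 1 + 1) * N := by nlinarith
    calc (N + 1) * ∏ p ∈ S, p ≤ (N + 1) * ((S.card + 1) * ∏ p ∈ S, (p - 1)) :=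
          Nat.mul_le_mul_left _ h3
      _ = ((N + 1) * (S.card + 1)) * ∏ p ∈ S, (p - 1) := by ring
      _ ≤ ((S.card + 1 + 1) * N) * ∏ p ∈ S, (p - 1) := Nat.mul_le_mul_right _ h4
      _ = (S.card + 1 + 1) * ((N + 1 - 1) * ∏ p ∈ S, (p - 1)) := by
          rw [Nat.add_sub_cancel]; ring

theorem tot_log (m : ℕ) (hm : 1 ≤ m) : (m : ℝ) ≤ (2 + 2 * Real.log m) * m.totient := by
  have h1 := hnum_prod m.primeFactors fun p hp => (Nat.prime_of_mem_primeFactors hp).two_le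
  have h2 := Nat.totient_mul_prod_primeFactors m
  have h3 : 0 < ∏ p ∈ m.primeFactors, (p - 1) :=
    prod_pos fun p hp => Nat.sub_pos_of_lt (Nat.prime_of_mem_primeFactors hp).one_lt
  have h4 : m ≤ (m.primeFactors.card + 1) * m.totient := by
    refine Nat.le_of_mul_le_mul_right ?_ h3
    rw [← h2]
    calc m.totient * ∏ p ∈ m.primeFactors, p
        ≤ m.totient * ((m.primeFactors.card + 1) * ∏ p ∈ m.primeFactors, (p - 1)) :=
          Nat.mul_le_mul_left _ h1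
      _ = (m.primeFactors.card + 1) * m.totient * ∏ p ∈ m.primeFactors, (p - 1) := by ring
  have h5 := omega_le m m hm le_rfl
  have h6 : (m : ℝ) ≤ ((m.primeFactors.card : ℝ) + 1) * m.totient := by exact_mod_cast h4
  refine h6.trans (mul_le_mul_of_nonneg_right ?_ (Nat.cast_nonneg _))
  linarith

end Pool.Agent.H78.PH
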