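import Pool.Agent.H78.PH.HNum
import Pool.Agent.H78.PG.TQO
import Pool.Agent.H78.PG.TCop

/-!
# LQ / PG stage 2, HQU: quasi-orthogonality from above, and the size of the main term

`quasi_upper`: as `Pool.Agent.H78.PG.quasi` (module PG/TQO), the other inequality.
`cop_big`: `M ≥ m^(51/100)/4`: `#cop ≥ M φ(m)/m - 2^ω(m) ≥ M/(2+2 log m) - m^θ ≥ M/(4 + 4 log m)` (`cop_card_ge`, `tot_log`,
`two_pow_le`), and `10 m^(1/200) KK m ≤ m^(1/200 + 1/2 + 1/1000) ≤ #cop` (`KK_le`) for large `m`.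
-/

set_option autoImplicit false

namespace Pool.Agent.H78.PH

open Finset
open Pool.Agent.H34PG (lam lam_val lam_mul lam_prime)
open Pool.Agent.H11.LQ Pool.Agent.H78.PG

theorem quasi_upper (m : ℕ) [NeZero m] (X : Finset (DirichletCharacter ℂ m))
    (d : DirichletCharacter ℂ m → ℂ) (M : ℕ) :
    ∑ x ∈ cop m M, ‖∑ χ ∈ X, d χ * χ (x : ZMod m)‖ ^ 2
      ≤ (((cop m M).card : ℝ) + X.card * KK m) * ∑ χ ∈ X, ‖d χ‖ ^ 2 := by
  have h := tqo_expand m X d M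
  have hK := tqo_KK_nonneg m
  set S : ℝ := ∑ x ∈ cop m M, ‖∑ χ ∈ X, d χ * χ (x : ZMod m)‖ ^ 2 with hS
  set Q : ℝ := ∑ χ ∈ X, ‖d χ‖ ^ 2 with hQ
  have h1 : |S - ((cop m M).card : ℝ) * Q| ≤ KK m * (∑ χ ∈ X, ‖d χ‖) ^ 2 := by
    have h2 : |S - ((cop m M).card : ℝ) * Q| = ‖(((S - ((cop m M).card : ℝ) * Q : ℝ)) : ℂ)‖ := by
      rw [Complex.norm_real, Real.norm_eq_abs]
    rw [h2, h, sq, Finset.sum_mul_sum, Finset.mul_sum]
    refine (norm_sum_le _ _).trans (Finset.sum_le_sum fun χ _ => ?_)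
    rw [Finset.mul_sum]
    refine (norm_sum_le _ _).trans (Finset.sum_le_sum fun χ' _ => ?_)
    rw [norm_mul, norm_mul, RCLike.norm_conj, mul_comm (KK m)]
    exact mul_le_mul_of_nonneg_left (tqo_corr m χ χ' M) (by positivity)
  have h3 : (∑ χ ∈ X, ‖d χ‖) ^ 2 ≤ X.card * Q := by
    have := sq_sum_le_card_mul_sum_sq (s := X) (f := fun χ => ‖d χ‖)
    exact this
  have h4 : KK m * (∑ χ ∈ X, ‖d χ‖) ^ 2 ≤ KK m * (X.card * Q) :=
    mul_le_mul_of_nonneg_left h3 hK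
  have h5 := (abs_le.1 h1).2
  nlinarith [h4, h5]

theorem cop_big : ∃ m0 : ℕ, ∀ m : ℕ, m0 ≤ m → ∀ M : ℕ, (m : ℝ) ^ (51 / 100 : ℝ) / 4 ≤ M →
    (M : ℝ) / (4 + 4 * Real.log m) ≤ ((cop m M).card : ℝ) ∧
      10 * ((m : ℝ) ^ (1 / 200 : ℝ) * KK m) ≤ ((cop m M).card : ℝ) := by
  obtain ⟨m1, H1⟩ := two_pow_le (1 / 100) (by norm_num)
  obtain ⟨m2, H2⟩ := grow 16 1 (1 / 100) (by norm_num)
  obtain ⟨m3, H3⟩ := KK_le (1 / 1000) (by norm_num)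
  obtain ⟨m4, H4⟩ := grow 160 1 (1 / 250) (by norm_num)
  refine ⟨m1 + m2 + m3 + m4 + 1, fun m hm M hM => ?_⟩
  have g1 := H1 m (by omega)
  have g2 := H2 m (by omega)
  have g3 := H3 m (by omega)
  have g4 := H4 m (by omega)
  rw [pow_one] at g2 g4
  have hm1 : 1 ≤ m := by omega
  have hm1R : (1 : ℝ) ≤ m := by exact_mod_cast hm1
  have hm0 : (0 : ℝ) < m := by linarith
  have hL : 0 ≤ Real.log m := Real.log_nonneg hm1R
  set L : ℝ := Real.log m with hLdef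
  have hM0 : (0 : ℝ) ≤ M := Nat.cast_nonneg M
  have t1 := tot_log m hm1
  rw [← hLdef] at t1
  -- the density
  have h1 : (M : ℝ) / (2 + 2 * L) ≤ (M : ℝ) * m.totient / m := by
    rw [div_le_div_iff₀ (by linarith) hm0]
    calc (M : ℝ) * m ≤ M * ((2 + 2 * L) * m.totient) := mul_le_mul_of_nonneg_left t1 hM0
      _ = M * m.totient * (2 + 2 * L) := by ring
  have h2 := cop_card_ge m M hm1
  have h3 : (2 : ℝ) ^ (m.primeFactors.card) ≤ (M : ℝ) / (4 + 4 * L) := by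
    rw [le_div_iff₀ (by linarith)]
    have e1 : (2 : ℝ) ^ (m.primeFactors.card) * (4 + 4 * L)
        ≤ (m : ℝ) ^ (1 / 100 : ℝ) * (4 + 4 * L) :=
      mul_le_mul_of_nonneg_right g1 (by linarith)
    have e2 : (m : ℝ) ^ (1 / 100 : ℝ) * (16 * (1 + L))
        ≤ (m : ℝ) ^ (1 / 100 : ℝ) * (m : ℝ) ^ (1 / 100 : ℝ) :=
      mul_le_mul_of_nonneg_left g2 (Real.rpow_nonneg hm0.le _)
    have e3 : (m : ℝ) ^ (1 / 100 : ℝ) * (m : ℝ) ^ (1 / 100 : ℝ) ≤ (m : ℝ) ^ (51 / 100 : ℝ) := by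
      rw [← Real.rpow_add hm0]
      exact Real.rpow_le_rpow_of_exponent_le hm1R (by norm_num)
    nlinarith [e1, e2, e3, hM]
  have h4 : (M : ℝ) / (2 + 2 * L) = (M : ℝ) / (4 + 4 * L) + (M : ℝ) / (4 + 4 * L) := by
    have n1 : (2 + 2 * L) ≠ 0 := by positivity
    have n2 : (4 + 4 * L) ≠ 0 := by positivity
    field_simp
    ring
  have h5 : (M : ℝ) / (4 + 4 * L) ≤ ((cop m M).card : ℝ) := by linarith
  refine ⟨h5, le_trans ?_ h5⟩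
  rw [le_div_iff₀ (by linarith)]
  have e1 : (m : ℝ) ^ (1 / 200 : ℝ) * KK m
      ≤ (m : ℝ) ^ (1 / 200 : ℝ) * (m : ℝ) ^ (1 / 2 + 1 / 1000 : ℝ) :=
    mul_le_mul_of_nonneg_left g3 (Real.rpow_nonneg hm0.le _)
  rw [← Real.rpow_add hm0] at e1
  have e2 : (160 * (1 + L)) * (m : ℝ) ^ (1 / 200 + (1 / 2 + 1 / 1000) : ℝ)
      ≤ (m : ℝ) ^ (1 / 250 : ℝ) * (m : ℝ) ^ (1 / 200 + (1 / 2 + 1 / 1000) : ℝ) :=
    mul_le_mul_of_nonneg_right g4 (Real.rpow_nonneg hm0.le _)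
  rw [← Real.rpow_add hm0] at e2
  have e3 : (1 / 250 + (1 / 200 + (1 / 2 + 1 / 1000)) : ℝ) = 51 / 100 := by norm_num
  rw [e3] at e2
  have e4 : 10 * ((m : ℝ) ^ (1 / 200 : ℝ) * KK m) * (4 + 4 * L)
      ≤ 10 * ((m : ℝ) ^ (1 / 200 + (1 / 2 + 1 / 1000) : ℝ)) * (4 + 4 * L) :=
    mul_le_mul_of_nonneg_right (by linarith) (by linarith)
  linarith [e2, e4, hM]

end Pool.Agent.H78.PH
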