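import Pool.Agent.H78.PH.Defs
import Pool.Agent.H78.PG.TDec
import Pool.Agent.H78.PG.TPret
import Pool.Agent.H78.PG.TMert

/-!
# LQ / PG stage 2, HT6: uniqueness (the same proof as Pool.Agent.H78.PG.t6, module PG/TT6)

The only use of the hypothesis: `∑_{p ∈ PY} ‖1 - ψ p‖/p ≤ √(VV χ₁) √(1 + log m) + √(VV χ₂) √(1 + log m) ≤ 1/64`.
-/

set_option autoImplicit false

namespace Pool.Agent.H78.PH

open Finset
open Pool.Agent.H34PG (lam lam_val lam_mul lam_prime)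
open Pool.Agent.H11.LQ Pool.Agent.H78.PG

/-- Cauchy for one character -/
theorem ht6_cauchy (m : ℕ) (hm : 1 ≤ m) (χ : DirichletCharacter ℂ m) (v : ℝ) (hv : 0 ≤ v)
    (h : VV m χ ≤ v) :
    ∑ p ∈ PY m, ‖1 + χ (p : ZMod m)‖ / p ≤ Real.sqrt (v * (1 + Real.log m)) := by
  have hh := harm m hm
  have h1 : (∑ p ∈ PY m, ‖1 + χ (p : ZMod m)‖ / p) ^ 2 ≤
      (∑ p ∈ PY m, ‖1 + χ (p : ZMod m)‖ ^ 2 / p) * ∑ p ∈ PY m, (1 : ℝ) / p := by
    apply Finset.sum_sq_le_sum_mul_sum_of_sq_le_mul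
    · intro i _
      positivity
    · intro i _
      positivity
    · intro i _
      apply le_of_eq
      ring
  have h2 : (∑ p ∈ PY m, ‖1 + χ (p : ZMod m)‖ / p) ^ 2 ≤ v * (1 + Real.log m) := by
    refine h1.trans ?_
    refine mul_le_mul h hh (Finset.sum_nonneg fun i _ => by positivity) hv
  exact Real.le_sqrt_of_sq_le h2

theorem ht6_unit (m : ℕ) (χ₁ χ₂ : DirichletCharacter ℂ m) (p : ℕ) (hp : p.Prime)
    (hpm : ¬ p ∣ m) :
    ‖1 - (χ₁ * χ₂⁻¹) (p : ZMod m)‖ ≤ ‖1 + χ₁ (p : ZMod m)‖ + ‖1 + χ₂ (p : ZMod m)‖ := by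
  have hu : IsUnit (p : ZMod m) := by
    rw [ZMod.isUnit_iff_coprime]
    exact (Nat.Prime.coprime_iff_not_dvd hp).mpr hpm
  obtain ⟨u, hu'⟩ := hu
  have hn2 : ‖χ₂ (p : ZMod m)‖ = 1 := by
    rw [← hu']
    exact DirichletCharacter.unit_norm_eq_one χ₂ u
  have hne : χ₂ (p : ZMod m) ≠ 0 := by
    intro h
    rw [h, norm_zero] at hn2
    exact zero_ne_one hn2
  have hinv : (χ₂⁻¹) (p : ZMod m) = (χ₂ (p : ZMod m))⁻¹ := by
    have h1 : χ₂ (p : ZMod m) * (χ₂⁻¹) (p : ZMod m) = 1 := by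
      rw [← MulChar.mul_apply, mul_inv_cancel, ← hu']
      exact MulChar.one_apply_coe u
    exact eq_inv_of_mul_eq_one_right h1
  rw [MulChar.mul_apply, hinv]
  have h2 : 1 - χ₁ (p : ZMod m) * (χ₂ (p : ZMod m))⁻¹ =
      ((1 + χ₂ (p : ZMod m)) - (1 + χ₁ (p : ZMod m))) * (χ₂ (p : ZMod m))⁻¹ := by
    field_simp
    ring
  rw [h2, norm_mul, norm_inv, hn2, inv_one, mul_one]
  calc ‖(1 + χ₂ (p : ZMod m)) - (1 + χ₁ (p : ZMod m))‖
      ≤ ‖1 + χ₂ (p : ZMod m)‖ + ‖1 + χ₁ (p : ZMod m)‖ := norm_sub_le _ _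
    _ = _ := add_comm _ _

theorem t6' : ∃ m0 : ℕ, ∀ (m : ℕ) [NeZero m], m0 ≤ m → ∀ χ₁ χ₂ : DirichletCharacter ℂ m,
    VV m χ₁ * (1 + Real.log m) ≤ 1 / 2 ^ 14 → VV m χ₂ * (1 + Real.log m) ≤ 1 / 2 ^ 14 →
      χ₁ = χ₂ := by
  obtain ⟨a2, ha2⟩ := grow 5 0 (7 / 2000) (by norm_num)
  obtain ⟨a3, ha3⟩ := mert
  obtain ⟨a4, ha4⟩ := prod_le (1 / 1000) (by norm_num)
  obtain ⟨a5, ha5⟩ := KK_le (1 / 1000) (by norm_num)
  refine ⟨a2 + a3 + a4 + a5 + 1, ?_⟩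
  intro m _ hm χ₁ χ₂ hv1 hv2
  by_contra hne
  have b2 := ha2 m (by omega)
  have b3 := ha3 m (by omega)
  have b4 := ha4 m (by omega)
  have b5 := ha5 m (by omega)
  have hm1 : 1 ≤ m := by omega
  have hm0 : (0 : ℝ) < m := by exact_mod_cast hm1
  have hm1' : (1 : ℝ) ≤ m := by exact_mod_cast hm1
  have hψ : χ₁ * χ₂⁻¹ ≠ 1 := by
    intro h
    exact hne (mul_inv_eq_one.mp h)
  obtain ⟨g, g1, gmul, gb, gp, gq, gM⟩ := gext m (χ₁ * χ₂⁻¹) hψ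
  set M := ⌊(m : ℝ) ^ (51 / 100 : ℝ)⌋₊ with hM
  have hlog : 0 ≤ Real.log m := Real.log_nonneg hm1'
  -- the primes up to yy
  have c1 : ∑ p ∈ PY m, ‖1 - (χ₁ * χ₂⁻¹) (p : ZMod m)‖ / p ≤ 1 / 64 := by
    have e1 : ∑ p ∈ PY m, ‖1 - (χ₁ * χ₂⁻¹) (p : ZMod m)‖ / p ≤
        ∑ p ∈ PY m, ‖1 + χ₁ (p : ZMod m)‖ / p + ∑ p ∈ PY m, ‖1 + χ₂ (p : ZMod m)‖ / p := by
      rw [← Finset.sum_add_distrib]
      apply Finset.sum_le_sum
      intro p hp
      rw [mem_PY] at hp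
      rw [← add_div]
      have := ht6_unit m χ₁ χ₂ p hp.2.1 hp.2.2
      gcongr
    have hV : ∀ χ : DirichletCharacter ℂ m, 0 ≤ VV m χ := by
      intro χ
      unfold VV
      exact Finset.sum_nonneg fun i _ => by positivity
    have hc : ∀ χ : DirichletCharacter ℂ m, VV m χ * (1 + Real.log m) ≤ 1 / 2 ^ 14 →
        ∑ p ∈ PY m, ‖1 + χ (p : ZMod m)‖ / p ≤ 1 / 128 := by
      intro χ hχ
      refine (ht6_cauchy m hm1 χ _ (hV χ) le_rfl).trans ?_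
      rw [Real.sqrt_le_left (by norm_num)]
      refine hχ.trans ?_
      norm_num
    have e2 := hc χ₁ hv1
    have e3 := hc χ₂ hv2
    linarith
  -- all primes up to M
  have c2 : ∑ p ∈ (Icc 1 M).filter Nat.Prime, ‖1 - g p‖ / p ≤ 9 / 64 := by
    have e1 : ∑ p ∈ (Icc 1 M).filter Nat.Prime, ‖1 - g p‖ / p ≤
        ∑ p ∈ (Icc 1 M).filter Nat.Prime,
          ((if p ∈ PY m then ‖1 - (χ₁ * χ₂⁻¹) (p : ZMod m)‖ / p else 0) +
            (if yy m < p then 2 * ((1 : ℝ) / p) else 0)) := by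
      apply Finset.sum_le_sum
      intro p hp
      rw [Finset.mem_filter, Finset.mem_Icc] at hp
      by_cases hpm : p ∣ m
      · rw [gq p hp.2 hpm, sub_self, norm_zero, zero_div]
        apply add_nonneg
        · split_ifs <;> positivity
        · split_ifs <;> positivity
      · by_cases hpy : yy m < p
        · rw [if_pos hpy]
          have h1 : ‖1 - g p‖ ≤ 2 := by
            calc ‖1 - g p‖ ≤ ‖(1 : ℂ)‖ + ‖g p‖ := norm_sub_le _ _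
              _ ≤ 1 + 1 := by rw [norm_one]; gcongr; exact gb p
              _ = 2 := by norm_num
          have h2 : ‖1 - g p‖ / p ≤ 2 * ((1 : ℝ) / p) := by
            rw [mul_one_div]
            gcongr
          have h3 : (0 : ℝ) ≤ (if p ∈ PY m then ‖1 - (χ₁ * χ₂⁻¹) (p : ZMod m)‖ / p else 0) := by
            split_ifs <;> positivity
          linarith
        · rw [if_neg hpy, add_zero, if_pos (mem_PY.mpr ⟨by omega, hp.2, hpm⟩), gp p hp.2 hpm]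
    have e2 : ∑ p ∈ (Icc 1 M).filter Nat.Prime,
        (if p ∈ PY m then ‖1 - (χ₁ * χ₂⁻¹) (p : ZMod m)‖ / p else 0) ≤
          ∑ p ∈ PY m, ‖1 - (χ₁ * χ₂⁻¹) (p : ZMod m)‖ / p := by
      rw [← Finset.sum_filter]
      apply Finset.sum_le_sum_of_subset_of_nonneg
      · intro p hp
        rw [Finset.mem_filter] at hp
        exact hp.2
      · intro p _ _
        positivity
    have e3 : ∑ p ∈ (Icc 1 M).filter Nat.Prime, (if yy m < p then 2 * ((1 : ℝ) / p) else 0) ≤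
        2 * (1 / 16) := by
      rw [← Finset.sum_filter, Finset.filter_filter, ← Finset.mul_sum]
      gcongr
    rw [Finset.sum_add_distrib] at e1
    linarith
  have c3 := pret g g1 gmul gb M
  have hM0 : (0 : ℝ) ≤ M := Nat.cast_nonneg _
  have c4 : ∑ n ∈ Icc 1 M, ‖1 - g n‖ ≤ 9 / 32 * M := by
    refine c3.trans ?_
    calc 2 * (M : ℝ) * ∑ p ∈ (Icc 1 M).filter Nat.Prime, ‖1 - g p‖ / p ≤ 2 * (M : ℝ) * (9 / 64) := by
          gcongr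
      _ = 9 / 32 * M := by ring
  have c5 : (M : ℝ) - 9 / 32 * M ≤ ‖∑ n ∈ Icc 1 M, g n‖ := by
    have e1 : ∑ n ∈ Icc 1 M, g n = (M : ℂ) - ∑ n ∈ Icc 1 M, (1 - g n) := by
      rw [Finset.sum_sub_distrib]
      simp
    have e2 : ‖∑ n ∈ Icc 1 M, (1 - g n)‖ ≤ 9 / 32 * M := (norm_sum_le _ _).trans c4
    have e3 : ‖(M : ℂ)‖ - ‖∑ n ∈ Icc 1 M, (1 - g n)‖ ≤ ‖(M : ℂ) - ∑ n ∈ Icc 1 M, (1 - g n)‖ :=
      norm_sub_norm_le _ _
    rw [e1]
    have e4 : ‖(M : ℂ)‖ = M := by simp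
    rw [e4] at e3
    linarith
  -- upper bound
  have d1 : (M : ℝ) ≤ (m : ℝ) ^ (51 / 100 : ℝ) := Nat.floor_le (by positivity)
  have d2 : (m : ℝ) ^ (51 / 100 : ℝ) < M + 1 := Nat.lt_floor_add_one _
  have d3 : (5 : ℝ) ≤ (m : ℝ) ^ (7 / 2000 : ℝ) := by
    have := b2
    rw [pow_zero, mul_one] at this
    exact this
  have hKK : 0 ≤ KK m := by
    unfold KK
    positivity
  have d4 : ‖∑ n ∈ Icc 1 M, g n‖ ≤ (m : ℝ) ^ (1013 / 2000 : ℝ) := by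
    refine (gM M).trans ?_
    have e1 : (M : ℝ) * KK m ≤ ((m : ℝ) ^ (1011 / 2000 : ℝ)) ^ 2 := by
      calc (M : ℝ) * KK m ≤ (m : ℝ) ^ (51 / 100 : ℝ) * (m : ℝ) ^ (1 / 2 + 1 / 1000 : ℝ) := by
            gcongr
        _ = ((m : ℝ) ^ (1011 / 2000 : ℝ)) ^ 2 := by
            rw [← Real.rpow_add hm0, ← Real.rpow_natCast, ← Real.rpow_mul hm0.le]
            norm_num
    have e2 : Real.sqrt ((M : ℝ) * KK m) ≤ (m : ℝ) ^ (1011 / 2000 : ℝ) :=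
      Real.sqrt_le_iff.mpr ⟨by positivity, e1⟩
    calc Real.sqrt ((M : ℝ) * KK m) * ∏ p ∈ m.primeFactors, (1 - (p : ℝ) ^ (-(1 / 2 : ℝ)))⁻¹
        ≤ (m : ℝ) ^ (1011 / 2000 : ℝ) * (m : ℝ) ^ (1 / 1000 : ℝ) := by
          apply mul_le_mul e2 b4
          · apply Finset.prod_nonneg
            intro p hp
            have hp1 : (1 : ℝ) ≤ p := by
              exact_mod_cast (Nat.prime_of_mem_primeFactors hp).one_lt.le
            have : (p : ℝ) ^ (-(1 / 2 : ℝ)) ≤ 1 := Real.rpow_le_one_of_one_le_of_nonpos hp1 (by norm_num)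
            rw [inv_nonneg]
            linarith
          · positivity
      _ = (m : ℝ) ^ (1013 / 2000 : ℝ) := by
          rw [← Real.rpow_add hm0]
          norm_num
  have d5 : (5 : ℝ) * (m : ℝ) ^ (1013 / 2000 : ℝ) ≤ (m : ℝ) ^ (51 / 100 : ℝ) := by
    calc (5 : ℝ) * (m : ℝ) ^ (1013 / 2000 : ℝ) ≤
        (m : ℝ) ^ (7 / 2000 : ℝ) * (m : ℝ) ^ (1013 / 2000 : ℝ) := by gcongr
      _ = (m : ℝ) ^ (51 / 100 : ℝ) := by
          rw [← Real.rpow_add hm0]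
          norm_num
  have d6 : (1 : ℝ) ≤ (m : ℝ) ^ (1013 / 2000 : ℝ) := Real.one_le_rpow hm1' (by norm_num)
  nlinarith [c5, d4, d5, d6, d2]

end Pool.Agent.H78.PH
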