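import Pool.Agent.H78.PH.HRec
import Pool.Agent.H78.PH.HT6

/-!
# LQ / PG stage 2, HT7a: one real character

`Y = {χ ∈ Xr : VV χ ≤ ρ^(1/10)}`; by `t5'` the weight of `Xr \ Y` is `≤ ρ^(1/5 - 1/10) = ρ^(1/10)`; `weight2`, `weight_one`: the weight of `Y` is
`≥ 1 - ρ^(1/3) - ρ^(1/10) > 0`, so `Y` is not empty; by `t6'` (`ρ^(1/10) (1 + log m) ≤ 2^(-14)`: `small`) `Y = {χ}`.  `χ⁻¹ ∈ Y` too
(`χ⁻¹ x = conj (χ x)`, `‖1 + conj z‖ = ‖1 + z‖`), so `χ² = 1`.  `χ ≠ 1`: there is a prime `q ≤ bb m` not dividing `m` (`pq_card`) and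
`2 > ρ^(1/4)`.  The weight of all other characters is `≤ ρ^(1/3) + ρ^(1/10) ≤ ρ^(1/11)` (`small`).
`minus_half`: at least half of the primes `p ∈ pq m Q`, `Q ≤ yy m`, have `χ p = -1`: `χ p ∈ {1, -1}` (`χ² = 1`, `p ∤ m`), and if `χ p = 1` then
`Ww p ≥ 4 ‖cc χ‖² ≥ 2` (`χ ∈ Xr`); `∑ Ww = #pq aa ≤ #pq ρ^(1/4)` (`aa_le`).
-/

set_option autoImplicit false

namespace Pool.Agent.H78.PH

open Finset
open Pool.Agent.H34PG (lam lam_val lam_mul lam_prime)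
open Pool.Agent.H11.LQ Pool.Agent.H78.PG

theorem ht7a_VV_inv (m : ℕ) [NeZero m] (χ : DirichletCharacter ℂ m) : VV m χ⁻¹ = VV m χ := by
  unfold VV
  refine Finset.sum_congr rfl fun p _ => ?_
  have h : χ⁻¹ (p : ZMod m) = star (χ (p : ZMod m)) := by
    rw [← MulChar.star_apply']
  have h2 : (1 : ℂ) + χ⁻¹ (p : ZMod m) = star (1 + χ (p : ZMod m)) := by
    rw [h, star_add, star_one]
  rw [h2, norm_star]

/-- weight of the bad characters -/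
theorem ht7a_bad {ρ : ℝ} (hρ : 0 < ρ) (m : ℕ) [NeZero m] (η : ℤ)
    (h5 : ∑ χ ∈ Xr ρ m, ‖cc m (FC m η) χ‖ ^ 2 * VV m χ ≤ ρ ^ (1 / 5 : ℝ))
    (Z : Finset (DirichletCharacter ℂ m)) (hZ : Z ⊆ Xr ρ m)
    (hZ2 : ∀ χ ∈ Z, ¬ VV m χ ≤ ρ ^ (1 / 10 : ℝ)) :
    ∑ χ ∈ Z, ‖cc m (FC m η) χ‖ ^ 2 ≤ ρ ^ (1 / 10 : ℝ) := by
  have hV : ∀ χ : DirichletCharacter ℂ m, 0 ≤ VV m χ := fun χ => by
    unfold VV
    exact Finset.sum_nonneg fun p _ => by positivity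
  have h1 : (∑ χ ∈ Z, ‖cc m (FC m η) χ‖ ^ 2) * ρ ^ (1 / 10 : ℝ) ≤ ρ ^ (1 / 5 : ℝ) := by
    rw [Finset.sum_mul]
    calc ∑ χ ∈ Z, ‖cc m (FC m η) χ‖ ^ 2 * ρ ^ (1 / 10 : ℝ)
        ≤ ∑ χ ∈ Z, ‖cc m (FC m η) χ‖ ^ 2 * VV m χ := by
          refine Finset.sum_le_sum fun χ hχ => ?_
          exact mul_le_mul_of_nonneg_left (le_of_lt (not_le.mp (hZ2 χ hχ))) (by positivity)
      _ ≤ ∑ χ ∈ Xr ρ m, ‖cc m (FC m η) χ‖ ^ 2 * VV m χ := by
          refine Finset.sum_le_sum_of_subset_of_nonneg hZ fun χ _ _ => ?_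
          exact mul_nonneg (by positivity) (hV χ)
      _ ≤ _ := h5
  have h2 : ρ ^ (1 / 5 : ℝ) = ρ ^ (1 / 10 : ℝ) * ρ ^ (1 / 10 : ℝ) := by
    rw [← Real.rpow_add hρ]
    congr 1
    norm_num
  rw [h2] at h1
  exact le_of_mul_le_mul_right h1 (Real.rpow_pos_of_pos hρ _)

/-- a character with a nonzero coefficient has the parity of `F` -/
theorem ht7a_par (m : ℕ) [NeZero m] (hm : 3 ≤ m) {η : ℤ} (hη : η = 1 ∨ η = -1)
    (χ : DirichletCharacter ℂ m) (hc : cc m (FC m η) χ ≠ 0) : χ (-1) = (η : ℂ) := by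
  have hF : ∀ u : (ZMod m)ˣ, FC m η ((-u : (ZMod m)ˣ) : ZMod m) = (η : ℂ) * FC m η (u : ZMod m) := by
    intro u
    have hdvd : m ∣ (u : ZMod m).val + ((-u : (ZMod m)ˣ) : ZMod m).val := by
      rw [← ZMod.natCast_eq_zero_iff, Nat.cast_add, ZMod.natCast_zmod_val, ZMod.natCast_zmod_val,
        Units.val_neg, add_neg_cancel]
    have hne : 2 * ((u : ZMod m).val % m) ≠ m := by
      intro h
      rw [Nat.mod_eq_of_lt (ZMod.val_lt _)] at h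
      have h1 := ZMod.val_coe_unit_coprime u
      have h2 : Nat.gcd (u : ZMod m).val m = (u : ZMod m).val :=
        Nat.gcd_eq_left ⟨2, by rw [mul_comm]; exact h.symm⟩
      rw [Nat.Coprime, h2] at h1
      omega
    have h := F_neg hη hdvd hne
    unfold FC
    rw [h]
    push_cast
    ring
  have h1 : ∑ u : (ZMod m)ˣ, FC m η (u : ZMod m) * (starRingEnd ℂ) (χ (u : ZMod m))
      = (η : ℂ) * (starRingEnd ℂ) (χ (-1)) *
        ∑ u : (ZMod m)ˣ, FC m η (u : ZMod m) * (starRingEnd ℂ) (χ (u : ZMod m)) := by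
    rw [Finset.mul_sum]
    rw [← Equiv.sum_comp (Equiv.neg (ZMod m)ˣ)
      (fun u : (ZMod m)ˣ => FC m η (u : ZMod m) * (starRingEnd ℂ) (χ (u : ZMod m)))]
    refine Finset.sum_congr rfl fun u _ => ?_
    have h2 : χ ((-u : (ZMod m)ˣ) : ZMod m) = χ (-1) * χ (u : ZMod m) := by
      rw [← map_mul, Units.val_neg, neg_one_mul]
    rw [Equiv.neg_apply, hF u, h2, map_mul]
    ring
  have h3 : cc m (FC m η) χ = (η : ℂ) * (starRingEnd ℂ) (χ (-1)) * cc m (FC m η) χ := by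
    unfold cc
    conv_lhs => rw [h1]
    ring
  have h4 : (η : ℂ) * (starRingEnd ℂ) (χ (-1)) = 1 := by
    have h5 : (1 : ℂ) * cc m (FC m η) χ
        = (η : ℂ) * (starRingEnd ℂ) (χ (-1)) * cc m (FC m η) χ := by rw [one_mul]; exact h3
    exact (mul_right_cancel₀ hc h5).symm
  have h6 : (starRingEnd ℂ) (χ (-1)) = (η : ℂ) := by
    rcases hη with h | h
    · rw [h] at h4 ⊢
      simpa using h4
    · rw [h] at h4 ⊢
      push_cast at h4 ⊢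
      linear_combination -h4
  have h7 := congrArg (starRingEnd ℂ) h6
  rw [Complex.conj_conj] at h7
  rw [h7]
  exact map_intCast (starRingEnd ℂ) η

/-- half of the primes -/
theorem ht7a_half {ρ : ℝ} (m : ℕ) [NeZero m] (η : ℤ) {χ : DirichletCharacter ℂ m}
    (hX : χ ∈ Xr ρ m) (hc : 1 / 2 ≤ ‖cc m (FC m η) χ‖ ^ 2) (hsq : χ ^ 2 = 1) (Q : ℕ)
    (ha : aa ρ m η Q ≤ 1) : ((pq m Q).card : ℝ) / 2
        ≤ (((pq m Q).filter (fun p : ℕ => χ (p : ZMod m) = -1)).card : ℝ) := by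
  classical
  have hval : ∀ p ∈ pq m Q, χ (p : ZMod m) = 1 ∨ χ (p : ZMod m) = -1 := by
    intro p hp
    rw [mem_pq] at hp
    have hu : IsUnit (p : ZMod m) := by
      rw [ZMod.isUnit_iff_coprime]
      exact (Nat.Prime.coprime_iff_not_dvd hp.2.1).mpr hp.2.2
    have h : χ (p : ZMod m) ^ 2 = 1 := by
      rw [← MulChar.pow_apply' χ two_ne_zero, hsq, MulChar.one_apply hu]
    have h' : (χ (p : ZMod m) - 1) * (χ (p : ZMod m) + 1) = 0 := by linear_combination h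
    rcases mul_eq_zero.mp h' with h2 | h2
    · exact Or.inl (sub_eq_zero.mp h2)
    · exact Or.inr (eq_neg_of_add_eq_zero_left h2)
  have hsplit := Finset.card_filter_add_card_filter_not (s := pq m Q)
    (fun p : ℕ => χ (p : ZMod m) = -1)
  have hW0 : ∀ p : ℕ, 0 ≤ Ww ρ m η p := fun p => by
    unfold Ww
    exact Finset.sum_nonneg fun χ _ => by positivity
  have hW2 : ∀ p ∈ (pq m Q).filter (fun p : ℕ => ¬ χ (p : ZMod m) = -1), 2 ≤ Ww ρ m η p := by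
    intro p hp
    rw [Finset.mem_filter] at hp
    have h1 : χ (p : ZMod m) = 1 := (hval p hp.1).resolve_right hp.2
    have h2 : ‖cc m (FC m η) χ‖ ^ 2 * ‖χ (p : ZMod m) + 1‖ ^ 2 ≤ Ww ρ m η p := by
      unfold Ww
      exact Finset.single_le_sum
        (f := fun χ : DirichletCharacter ℂ m =>
          ‖cc m (FC m η) χ‖ ^ 2 * ‖χ (p : ZMod m) + 1‖ ^ 2)
        (fun χ _ => by positivity) hX
    have h3 : ‖χ (p : ZMod m) + 1‖ ^ 2 = 4 := by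
      rw [h1]
      norm_num
    rw [h3] at h2
    linarith
  have hsum : (((pq m Q).filter (fun p : ℕ => ¬ χ (p : ZMod m) = -1)).card : ℝ) * 2
      ≤ ∑ p ∈ pq m Q, Ww ρ m η p := by
    calc (((pq m Q).filter (fun p : ℕ => ¬ χ (p : ZMod m) = -1)).card : ℝ) * 2
        = ∑ p ∈ (pq m Q).filter (fun p : ℕ => ¬ χ (p : ZMod m) = -1), (2 : ℝ) := by
          rw [Finset.sum_const, nsmul_eq_mul]
      _ ≤ ∑ p ∈ (pq m Q).filter (fun p : ℕ => ¬ χ (p : ZMod m) = -1), Ww ρ m η p :=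
          Finset.sum_le_sum hW2
      _ ≤ ∑ p ∈ pq m Q, Ww ρ m η p :=
          Finset.sum_le_sum_of_subset_of_nonneg (Finset.filter_subset _ _) fun p _ _ => hW0 p
  have hle : ∑ p ∈ pq m Q, Ww ρ m η p ≤ ((pq m Q).card : ℝ) := by
    rcases Nat.eq_zero_or_pos (pq m Q).card with h0 | h0
    · have h1 : pq m Q = ∅ := Finset.card_eq_zero.mp h0
      rw [h1]
      simp
    · have h1 : (0 : ℝ) < ((pq m Q).card : ℝ) := by exact_mod_cast h0
      unfold aa at ha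
      rw [div_le_one h1] at ha
      exact ha
  have hs2 : (((pq m Q).filter (fun p : ℕ => χ (p : ZMod m) = -1)).card : ℝ)
      + (((pq m Q).filter (fun p : ℕ => ¬ χ (p : ZMod m) = -1)).card : ℝ) = ((pq m Q).card : ℝ) := by
    exact_mod_cast hsplit
  linarith

/-- a small prime not dividing the modulus -/
theorem ht7a_prime : ∃ m0 : ℕ, ∀ m : ℕ, m0 ≤ m → ∃ q ∈ pq m (bb m), True := by
  obtain ⟨n1, H1⟩ := pq_card
  obtain ⟨n2, H2⟩ := grow 1 800 1 one_pos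
  refine ⟨n1 + n2 + 8, fun m hm => ?_⟩
  have hm8 : (8 : ℝ) ≤ (m : ℝ) := by
    have : 8 ≤ m := by omega
    exact_mod_cast this
  have hL : (2 : ℝ) ≤ Real.log m := by
    rw [Real.le_log_iff_exp_le (by linarith)]
    have h1 : Real.exp 2 = Real.exp 1 * Real.exp 1 := by
      rw [← Real.exp_add]
      norm_num
    have h2 := Real.exp_one_lt_d9
    have h3 := Real.exp_pos 1
    rw [h1]
    nlinarith
  have hL1 : (1 : ℝ) ≤ Real.log m := by linarith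
  have hL0 : (0 : ℝ) ≤ Real.log m := by linarith
  have hP0 : Real.log m ^ 3 + 1 ≤ Real.log m ^ 4 := by
    have e2 : (1 : ℝ) ≤ Real.log m ^ 3 := one_le_pow₀ hL1
    have e3 : Real.log m ^ 4 = Real.log m ^ 3 * Real.log m := by ring
    nlinarith
  have hP1 : Real.log m ^ 3 + 1 ≤ Real.log m ^ 800 :=
    hP0.trans (pow_le_pow_right₀ hL1 (by norm_num))
  have hP2 : Real.log m ^ 3 ≤ (bb m : ℝ) := by
    have h := (Nat.lt_floor_add_one (Real.log m ^ 800)).le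
    exact le_of_add_le_add_right (hP1.trans h)
  have hP3 : bb m ≤ m := by
    have h1 : (bb m : ℝ) ≤ Real.log m ^ 800 := by
      unfold bb
      exact Nat.floor_le (pow_nonneg hL0 _)
    have h2 : Real.log m ^ 800 ≤ (1 + Real.log m) ^ 800 :=
      pow_le_pow_left₀ hL0 (le_add_of_nonneg_left zero_le_one) 800
    have H2 := H2 m (by omega)
    rw [Real.rpow_one, one_mul] at H2
    exact_mod_cast (h1.trans h2).trans H2
  have H1 := H1 m (by omega)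
  have h4 := H1 (bb m) hP2 hP3
  have h5 : (0 : ℝ) < ((pq m (bb m)).card : ℝ) := by
    refine lt_of_lt_of_le ?_ h4
    have h6 : (0 : ℝ) < (bb m : ℝ) := lt_of_lt_of_le (by positivity) hP2
    positivity
  have h6 : 0 < (pq m (bb m)).card := by exact_mod_cast h5
  obtain ⟨q, hq⟩ := Finset.card_pos.mp h6
  exact ⟨q, hq, trivial⟩

open Classical in
/-- the same with the filter on the natural numbers -/
theorem t7a_nat : ∃ C : ℕ, ∃ m0 : ℕ, ∀ (m : ℕ) [NeZero m], m0 ≤ m → ∀ ρ : ℝ, Rho C m ρ →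
    ∀ η : ℤ, Hyp2 ρ m η → ∃ χ ∈ Xr ρ m, χ ^ 2 = 1 ∧ χ ≠ 1 ∧ χ (-1) = (η : ℂ) ∧
      ∑ χ' ∈ univ.filter (fun χ' => χ' ∉ ({χ} : Finset (DirichletCharacter ℂ m))),
        ‖cc m (FC m η) χ'‖ ^ 2 ≤ ρ ^ (1 / 11 : ℝ) ∧
      ∀ Q : ℕ, Q ≤ yy m → ((pq m Q).card : ℝ) / 2
        ≤ (((pq m Q).filter (fun p : ℕ => χ (p : ZMod m) = -1)).card : ℝ) := by
  obtain ⟨c1, n1, H1⟩ := t5'
  obtain ⟨n2, H2⟩ := t6'
  obtain ⟨c3, n3, H3⟩ := aa_le
  obtain ⟨c4, n4, H4⟩ := weight2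
  obtain ⟨c5, n5, H5⟩ := small (2 ^ 14) 1 (1 / 10) (by norm_num)
  obtain ⟨c6, n6, H6⟩ := small 2 0 (1 / 110) (by norm_num)
  obtain ⟨n7, H7⟩ := ht7a_prime
  refine ⟨c1 + c3 + c4 + c5 + c6, n1 + n2 + n3 + n4 + n5 + n6 + n7 + 3,
    fun m _ hm ρ hR η hyp => ?_⟩
  have hm3 : 3 ≤ m := by omega
  have hL1 : (1 : ℝ) ≤ Real.log m := by
    have h3 : (3 : ℝ) ≤ m := by exact_mod_cast hm3
    rw [Real.le_log_iff_exp_le (by linarith)]
    linarith [Real.exp_one_lt_d9]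
  replace H1 := H1 m (by omega) ρ (Rho_mono (by omega) hm3 hR) η hyp
  replace H2 := H2 m (by omega)
  replace H3 := H3 m (by omega) ρ (Rho_mono (by omega) hm3 hR) η hyp
  replace H4 := H4 m (by omega) ρ (Rho_mono (by omega) hm3 hR) η hyp
  replace H5 := H5 m (by omega) ρ (Rho_mono (by omega) hm3 hR)
  replace H6 := H6 m (by omega) ρ (Rho_mono (by omega) hm3 hR)
  obtain ⟨q, hq, _⟩ := H7 m (by omega)
  rw [pow_one] at H5
  rw [pow_zero, mul_one] at H6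
  have hρ : 0 < ρ := hR.1
  have hρ1 : ρ ≤ 1 := by
    have h1 := hR.2.2
    have h2 : (1 : ℝ) ≤ Real.log m ^ (c1 + c3 + c4 + c5 + c6) := one_le_pow₀ hL1
    have h3 : ρ * 1 ≤ ρ * Real.log m ^ (c1 + c3 + c4 + c5 + c6) :=
      mul_le_mul_of_nonneg_left h2 hρ.le
    linarith
  have hp10 : 0 < ρ ^ (1 / 10 : ℝ) := Real.rpow_pos_of_pos hρ _
  have h10 : ρ ^ (1 / 10 : ℝ) ≤ 1 / 2 ^ 14 := by
    have h1 : ρ ^ (1 / 10 : ℝ) ≤ (1 + Real.log m) * ρ ^ (1 / 10 : ℝ) := by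
      nlinarith
    rw [le_div_iff₀ (by norm_num)]
    nlinarith
  have h310 : ρ ^ (1 / 3 : ℝ) ≤ ρ ^ (1 / 10 : ℝ) :=
    Real.rpow_le_rpow_of_exponent_ge hρ hρ1 (by norm_num)
  have h11 : 2 * ρ ^ (1 / 10 : ℝ) ≤ ρ ^ (1 / 11 : ℝ) := by
    have h1 : ρ ^ (1 / 10 : ℝ) = ρ ^ (1 / 110 : ℝ) * ρ ^ (1 / 11 : ℝ) := by
      rw [← Real.rpow_add hρ]
      congr 1
      norm_num
    have h2 : 0 < ρ ^ (1 / 11 : ℝ) := Real.rpow_pos_of_pos hρ _
    rw [h1]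
    nlinarith
  have hη := hyp.1
  have hW := weight_one m (by omega) η hη
  have hs : ∑ ψ : DirichletCharacter ℂ m, ‖cc m (FC m η) ψ‖ ^ 2
      = ∑ ψ ∈ Xr ρ m, ‖cc m (FC m η) ψ‖ ^ 2
        + ∑ ψ ∈ univ.filter (fun ψ => ψ ∉ Xr ρ m), ‖cc m (FC m η) ψ‖ ^ 2 := by
    have h := Finset.sum_filter_add_sum_filter_not (univ : Finset (DirichletCharacter ℂ m))
      (fun ψ => ψ ∈ Xr ρ m) (fun ψ => ‖cc m (FC m η) ψ‖ ^ 2)
    rw [← h]
    congr 2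
    ext ψ
    simp
  -- a good character
  obtain ⟨χ, hχX, hχV⟩ : ∃ χ ∈ Xr ρ m, VV m χ ≤ ρ ^ (1 / 10 : ℝ) := by
    by_contra hcon
    push Not at hcon
    have hb := ht7a_bad hρ m η H1 (Xr ρ m) (Finset.Subset.refl _)
      (fun ψ hψ => not_le.mpr (hcon ψ hψ))
    rw [hW] at hs
    have h14 : (1 : ℝ) / 2 ^ 14 ≤ 1 / 3 := by norm_num
    linarith
  have hgood : ∀ ψ : DirichletCharacter ℂ m, VV m ψ ≤ ρ ^ (1 / 10 : ℝ) →
      VV m ψ * (1 + Real.log m) ≤ 1 / 2 ^ 14 := by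
    intro ψ hψ
    have h1 : VV m ψ * (1 + Real.log m) ≤ ρ ^ (1 / 10 : ℝ) * (1 + Real.log m) :=
      mul_le_mul_of_nonneg_right hψ (by linarith)
    refine h1.trans ?_
    rw [le_div_iff₀ (by norm_num)]
    nlinarith
  have huniq : ∀ ψ : DirichletCharacter ℂ m, VV m ψ ≤ ρ ^ (1 / 10 : ℝ) → ψ = χ :=
    fun ψ hψ => H2 ψ χ (hgood ψ hψ) (hgood χ hχV)
  have hinv : χ⁻¹ = χ := huniq _ (by rw [ht7a_VV_inv]; exact hχV)
  have hsq : χ ^ 2 = 1 := by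
    rw [pow_two]
    nth_rewrite 1 [← hinv]
    exact inv_mul_cancel χ
  have hne : χ ≠ 1 := by
    intro h
    rw [mem_pq] at hq
    have h2 := mem_Xr.mp hχX q hq.2.1 hq.1 hq.2.2
    have hu : IsUnit (q : ZMod m) := by
      rw [ZMod.isUnit_iff_coprime]
      exact (Nat.Prime.coprime_iff_not_dvd hq.2.1).mpr hq.2.2
    rw [h, MulChar.one_apply hu] at h2
    have h3 : ‖(1 : ℂ) + 1‖ = 2 := by norm_num
    rw [h3] at h2
    have h4 : ρ ^ (1 / 4 : ℝ) ≤ 1 := Real.rpow_le_one hρ.le hρ1 (by norm_num)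
    linarith
  -- the weight of the other characters
  have hrest : ∑ ψ ∈ (Xr ρ m).erase χ, ‖cc m (FC m η) ψ‖ ^ 2 ≤ ρ ^ (1 / 10 : ℝ) := by
    refine ht7a_bad hρ m η H1 _ (Finset.erase_subset _ _) fun ψ hψ hV => ?_
    exact (Finset.ne_of_mem_erase hψ) (huniq ψ hV)
  have hall : ∑ χ' ∈ univ.filter (fun χ' => χ' ∉ ({χ} : Finset (DirichletCharacter ℂ m))),
      ‖cc m (FC m η) χ'‖ ^ 2 ≤ ρ ^ (1 / 11 : ℝ) := by
    have h1 : univ.filter (fun χ' => χ' ∉ ({χ} : Finset (DirichletCharacter ℂ m)))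
        ⊆ (Xr ρ m).erase χ ∪ univ.filter (fun ψ => ψ ∉ Xr ρ m) := by
      intro ψ hψ
      rw [Finset.mem_filter, Finset.mem_singleton] at hψ
      rw [Finset.mem_union, Finset.mem_erase, Finset.mem_filter]
      by_cases h : ψ ∈ Xr ρ m
      · exact Or.inl ⟨hψ.2, h⟩
      · exact Or.inr ⟨Finset.mem_univ _, h⟩
    have h2 := Finset.sum_le_sum_of_subset_of_nonneg h1
      (f := fun ψ : DirichletCharacter ℂ m => ‖cc m (FC m η) ψ‖ ^ 2)
      (fun ψ _ _ => by positivity)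
    have h3 := Finset.sum_union_inter (s₁ := (Xr ρ m).erase χ)
      (s₂ := univ.filter (fun ψ => ψ ∉ Xr ρ m))
      (f := fun ψ : DirichletCharacter ℂ m => ‖cc m (FC m η) ψ‖ ^ 2)
    have h4 : 0 ≤ ∑ ψ ∈ (Xr ρ m).erase χ ∩ univ.filter (fun ψ => ψ ∉ Xr ρ m),
        ‖cc m (FC m η) ψ‖ ^ 2 := Finset.sum_nonneg fun ψ _ => by positivity
    linarith
  have hc : 1 / 2 ≤ ‖cc m (FC m η) χ‖ ^ 2 := by
    have h1 := Finset.sum_erase_add (Xr ρ m) (fun ψ => ‖cc m (FC m η) ψ‖ ^ 2) hχX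
    rw [hW] at hs
    have h14 : (1 : ℝ) / 2 ^ 14 ≤ 1 / 4 := by norm_num
    linarith
  have hpar : χ (-1) = (η : ℂ) := by
    refine ht7a_par m hm3 hη χ fun h => ?_
    rw [h, norm_zero] at hc
    norm_num at hc
  refine ⟨χ, hχX, hsq, hne, hpar, hall, fun Q hQ => ?_⟩
  have h4 : ρ ^ (1 / 4 : ℝ) ≤ 1 := Real.rpow_le_one hρ.le hρ1 (by norm_num)
  have h5 := ht7a_half m η hχX hc hsq Q ((H3 Q hQ).trans h4)
  refine h5.trans (le_of_eq ?_)
  congr 2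

open Classical in
theorem t7a : ∃ C : ℕ, ∃ m0 : ℕ, ∀ (m : ℕ) [NeZero m], m0 ≤ m → ∀ ρ : ℝ, Rho C m ρ →
    ∀ η : ℤ, Hyp2 ρ m η → ∃ χ ∈ Xr ρ m, χ ^ 2 = 1 ∧ χ ≠ 1 ∧ χ (-1) = (η : ℂ) ∧
      ∑ χ' ∈ univ.filter (fun χ' => χ' ∉ ({χ} : Finset (DirichletCharacter ℂ m))),
        ‖cc m (FC m η) χ'‖ ^ 2 ≤ ρ ^ (1 / 11 : ℝ) ∧
      ∀ Q : ℕ, Q ≤ yy m → ((pq m Q).card : ℝ) / 2
        ≤ (((pq m Q).filter (fun p => χ (p : ZMod m) = -1)).card : ℝ) := by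
  obtain ⟨C, m0, H⟩ := t7a_nat
  refine ⟨C, m0 + 3, fun m _ hm ρ hR η hyp => ?_⟩
  obtain ⟨χ, h1, h2, h3, hp, h4, h5⟩ := H m (by omega) ρ hR η hyp
  refine ⟨χ, h1, h2, h3, hp, h4, fun Q hQ => (h5 Q hQ).trans ?_⟩
  have hy : yy m < m := by
    have hm1 : (1 : ℝ) < (m : ℝ) := by
      have : 1 < m := by omega
      exact_mod_cast this
    have h6 : (yy m : ℝ) ≤ (m : ℝ) ^ (49 / 100 : ℝ) := by
      unfold yy
      exact Nat.floor_le (by positivity)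
    have h7 : (m : ℝ) ^ (49 / 100 : ℝ) < (m : ℝ) ^ (1 : ℝ) :=
      Real.rpow_lt_rpow_of_exponent_lt hm1 (by norm_num)
    rw [Real.rpow_one] at h7
    exact_mod_cast lt_of_le_of_lt h6 h7
  have key : ((pq m Q).filter (fun p : ℕ => χ (p : ZMod m) = -1)).card
      ≤ (((pq m Q).filter (fun p => χ (p : ZMod m) = -1)).card : ℕ) := by
    refine Finset.card_le_card_of_injOn (fun p : ℕ => (p : ZMod m)) ?_ ?_
    · intro p hp
      rw [Finset.mem_coe, Finset.mem_filter] at hp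
      rw [Finset.mem_coe, Finset.mem_filter]
      refine ⟨?_, hp.2⟩
      simp only [Finset.bind_def, Finset.mem_sup, Finset.pure_def, Finset.mem_singleton]
      exact ⟨p, hp.1, rfl⟩
    · intro p hp q hq hpq
      rw [Finset.mem_coe, Finset.mem_filter, mem_pq] at hp hq
      have hpq' : (p : ZMod m) = (q : ZMod m) := hpq
      rw [ZMod.natCast_eq_natCast_iff'] at hpq'
      rw [Nat.mod_eq_of_lt (by omega), Nat.mod_eq_of_lt (by omega)] at hpq'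
      exact hpq'
  exact_mod_cast key

end Pool.Agent.H78.PH
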