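import Pool.Agent.H78.PG.TDefs

/-!
# LQ / PG stage 2, analytic part: definitions (helper78)

`ρ` is the size of the exceptional sets relative to `m`; all losses are powers of `log m`.

* `Rho C m ρ` : `m^(-1/100) ≤ ρ` and `ρ (log m)^C ≤ 1`;
* `bb m = ⌊(log m)^800⌋`;
* `Xr ρ m` : the characters with `‖χ q + 1‖ ≤ ρ^(1/4)` at all primes `q ≤ bb m` not dividing `m`;
* `Gr ρ m η` : the part of the Fourier expansion of `F m η` with characters in `Xr`;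
* `pq m P` : the primes `≤ P` not dividing `m`;
* `Ww ρ m η p = ∑_{χ ∈ Xr} ‖cc χ‖² ‖χ p + 1‖²`, `aa` its average over `pq m P`;
* `Hyp2 ρ m η` : the hypothesis on the exceptional sets;
* `D0 ρ m η M = ∑_{x ∈ cop m M} ‖λ(x) - Gr(x)‖²`.
-/

set_option autoImplicit false

namespace Pool.Agent.H78.PH

open Finset
open Pool.Agent.H34PG (lam lam_val lam_mul lam_prime)
open Pool.Agent.H11.LQ Pool.Agent.H78.PG

/-- the admissible range for `ρ` -/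
def Rho (C m : ℕ) (ρ : ℝ) : Prop :=
  0 < ρ ∧ (m : ℝ) ^ (-(1 / 100 : ℝ)) ≤ ρ ∧ ρ * Real.log m ^ C ≤ 1

/-- the bound for the auxiliary primes -/
noncomputable def bb (m : ℕ) : ℕ := ⌊Real.log m ^ 800⌋₊

open Classical in
/-- the characters close to `-1` at all small primes -/
noncomputable def Xr (ρ : ℝ) (m : ℕ) [NeZero m] : Finset (DirichletCharacter ℂ m) :=
  univ.filter (fun χ => ∀ q : ℕ, q.Prime → q ≤ bb m → ¬ q ∣ m →
    ‖χ (q : ZMod m) + 1‖ ≤ ρ ^ (1 / 4 : ℝ))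

/-- the main part of the expansion of `F` -/
noncomputable def Gr (ρ : ℝ) (m : ℕ) [NeZero m] (η : ℤ) (n : ℕ) : ℂ :=
  ∑ χ ∈ Xr ρ m, cc m (FC m η) χ * χ (n : ZMod m)

/-- the primes `≤ P` not dividing `m` -/
noncomputable def pq (m P : ℕ) : Finset ℕ :=
  (Finset.range (P + 1)).filter (fun p => p.Prime ∧ ¬ p ∣ m)

/-- the mean square distance to `-1` at `p` -/
noncomputable def Ww (ρ : ℝ) (m : ℕ) [NeZero m] (η : ℤ) (p : ℕ) : ℝ :=
  ∑ χ ∈ Xr ρ m, ‖cc m (FC m η) χ‖ ^ 2 * ‖χ (p : ZMod m) + 1‖ ^ 2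

/-- its average over the primes `≤ P` not dividing `m` -/
noncomputable def aa (ρ : ℝ) (m : ℕ) [NeZero m] (η : ℤ) (P : ℕ) : ℝ :=
  (∑ p ∈ pq m P, Ww ρ m η p) / (pq m P).card

/-- the distance of `λ` and `Gr` on `[1, M]` -/
noncomputable def D0 (ρ : ℝ) (m : ℕ) [NeZero m] (η : ℤ) (M : ℕ) : ℝ :=
  ∑ x ∈ cop m M, ‖((lam x : ℤ) : ℂ) - Gr ρ m η x‖ ^ 2

/-- the hypothesis on the exceptional sets -/
def Hyp2 (ρ : ℝ) (m : ℕ) (η : ℤ) : Prop :=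
  (η = 1 ∨ η = -1) ∧ ∀ q : ℕ, q.Prime → q ≤ bb m → ((Ex m η q).card : ℝ) ≤ ρ * m

/-- products of `j` different elements of `T` -/
def SP (T : Finset ℕ) (j : ℕ) : Finset ℕ :=
  (powersetCard j T).image (fun A => ∏ p ∈ A, p)

open Classical in
theorem mem_Xr {ρ : ℝ} {m : ℕ} [NeZero m] {χ : DirichletCharacter ℂ m} :
    χ ∈ Xr ρ m ↔ ∀ q : ℕ, q.Prime → q ≤ bb m → ¬ q ∣ m →
      ‖χ (q : ZMod m) + 1‖ ≤ ρ ^ (1 / 4 : ℝ) := by
  unfold Xr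
  simp

theorem mem_pq {m P p : ℕ} : p ∈ pq m P ↔ p ≤ P ∧ p.Prime ∧ ¬ p ∣ m := by
  unfold pq
  rw [mem_filter, mem_range, Nat.lt_succ_iff]

theorem PY_eq (m : ℕ) : PY m = pq m (yy m) := by
  ext p
  rw [mem_PY, mem_pq]

theorem Rho_mono {C C' m : ℕ} {ρ : ℝ} (hC : C ≤ C') (hm : 3 ≤ m) (h : Rho C' m ρ) :
    Rho C m ρ := by
  obtain ⟨h0, h1, h2⟩ := h
  refine ⟨h0, h1, le_trans ?_ h2⟩
  have h3 : (1 : ℝ) ≤ Real.log m := by
    rw [Real.le_log_iff_exp_le (by positivity)]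
    have h4 : (3 : ℝ) ≤ m := by exact_mod_cast hm
    linarith [Real.exp_one_lt_d9]
  exact mul_le_mul_of_nonneg_left (pow_le_pow_right₀ h3 hC) h0.le

end Pool.Agent.H78.PH
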