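import Pool.Agent.H78.PH.HNum

/-!
# LQ / PG stage 2, HCnt: counting primes and products

`pq_card`: `#pq m P ≥ π(P) - ω(m)`, `π(P) ≥ P/(2 log P)` (Mathlib `Chebyshev.psi_ge`, `Chebyshev.psi_le_primeCounting_mul_log`),
`ω(m) ≤ 2 log m ≤ P/(4 log m)` as `P ≥ (log m)^3`.
`SP_card`: for a set of primes the products are different (`Nat.primeFactors_prod`) and `(n choose j) ≥ (n/j)^j`.
`pairs_dvd`, `triples_dvd`: the components are prime factors of `y`.
-/

set_option autoImplicit false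

namespace Pool.Agent.H78.PH

open Finset
open Pool.Agent.H34PG (lam lam_val lam_mul lam_prime)
open Pool.Agent.H11.LQ Pool.Agent.H78.PG

private theorem hcnt_pi (B : ℕ) (hB : 16 ≤ B) :
    (B : ℝ) / 2 ≤ (Nat.primeCounting B : ℝ) * Real.log B := by
  have h1 := Chebyshev.psi_ge B
  have h2 := Chebyshev.psi_le_primeCounting_mul_log B
  have hB' : (16 : ℝ) ≤ B := by exact_mod_cast hB
  have h3 : Real.log ((B : ℝ) + 1) ≤ ((B : ℝ) + 1) / 16 - 1 + 4 * Real.log 2 := by
    have h4 : (B : ℝ) + 1 = ((B : ℝ) + 1) / 16 * 2 ^ 4 := by ring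
    have h5 : Real.log ((B : ℝ) + 1) = Real.log (((B : ℝ) + 1) / 16) + 4 * Real.log 2 := by
      conv_lhs => rw [h4]
      rw [Real.log_mul (by positivity) (by positivity), Real.log_pow]
      norm_num
    rw [h5]
    have := Real.log_le_sub_one_of_pos (show (0 : ℝ) < ((B : ℝ) + 1) / 16 by positivity)
    linarith
  have h6 := Real.log_two_gt_d9
  have h7 := Real.log_two_lt_d9
  nlinarith

theorem pq_card : ∃ m0 : ℕ, ∀ m : ℕ, m0 ≤ m → ∀ P : ℕ, Real.log m ^ 3 ≤ P → P ≤ m →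
    (P : ℝ) / (4 * Real.log m) ≤ ((pq m P).card : ℝ) := by
  refine ⟨3 ^ 8, fun m hm P hP hPm => ?_⟩
  have hm' : (3 : ℝ) ^ 8 ≤ m := by exact_mod_cast hm
  have hL : 8 ≤ Real.log m := by
    rw [Real.le_log_iff_exp_le (by linarith [show (0 : ℝ) < 3 ^ 8 by norm_num])]
    have h1 : Real.exp 8 = Real.exp 1 ^ 8 := by
      rw [← Real.exp_nat_mul]
      norm_num
    rw [h1]
    refine le_trans ?_ hm'
    exact pow_le_pow_left₀ (Real.exp_pos _).le (by linarith [Real.exp_one_lt_d9]) 8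
  have hm1 : 1 ≤ m := le_trans (by norm_num) hm
  have hP3 : 8 * Real.log m ^ 2 ≤ P := by
    have h2 : Real.log m ^ 3 = Real.log m * Real.log m ^ 2 := by ring
    nlinarith [sq_nonneg (Real.log m)]
  have hP16 : 16 ≤ P := by
    have h3 : (16 : ℝ) ≤ P := by nlinarith
    exact_mod_cast h3
  have hPpos : (0 : ℝ) < P := by
    have : (16 : ℝ) ≤ P := by exact_mod_cast hP16
    linarith
  have hpi := hcnt_pi P hP16
  have hom := omega_le m m hm1 le_rfl
  have hlogP : Real.log P ≤ Real.log m := Real.log_le_log hPpos (by exact_mod_cast hPm)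
  have hcard : Nat.primeCounting P ≤ (pq m P).card + m.primeFactors.card := by
    have hsub : (Finset.range (P + 1)).filter Nat.Prime ⊆ pq m P ∪ m.primeFactors := by
      intro p hp
      rw [mem_filter, mem_range, Nat.lt_succ_iff] at hp
      rw [mem_union, mem_pq, Nat.mem_primeFactors]
      by_cases hpm : p ∣ m
      · exact Or.inr ⟨hp.2, hpm, by omega⟩
      · exact Or.inl ⟨hp.1, hp.2, hpm⟩
    calc Nat.primeCounting P = ((Finset.range (P + 1)).filter Nat.Prime).card := by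
          rw [Nat.primeCounting, Nat.primeCounting', Nat.count_eq_card_filter_range]
      _ ≤ (pq m P ∪ m.primeFactors).card := card_le_card hsub
      _ ≤ (pq m P).card + m.primeFactors.card := card_union_le _ _
  have hcard' : (Nat.primeCounting P : ℝ) ≤
      ((pq m P).card : ℝ) + (m.primeFactors.card : ℝ) := by exact_mod_cast hcard
  have hpiL : (P : ℝ) / 2 ≤ (Nat.primeCounting P : ℝ) * Real.log m :=
    hpi.trans (mul_le_mul_of_nonneg_left hlogP (by positivity))
  rw [div_le_iff₀ (by positivity)]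
  have h10 : (P : ℝ) / 2 ≤ (((pq m P).card : ℝ) + 2 * Real.log m) * Real.log m :=
    hpiL.trans (mul_le_mul_of_nonneg_right (by linarith) (by linarith))
  nlinarith

private theorem hcnt_choose : ∀ j n : ℕ, 1 ≤ j → j ≤ n → ((n : ℝ) / j) ^ j ≤ (n.choose j : ℝ) := by
  intro j
  induction j with
  | zero => intro n h; omega
  | succ j ih =>
    intro n _ hn
    rcases Nat.eq_zero_or_pos j with rfl | hj
    · simp
    obtain ⟨k, rfl⟩ : ∃ k, n = k + 1 := ⟨n - 1, by omega⟩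
    have hjk : j ≤ k := by omega
    have h1 := ih k hj hjk
    have hj' : (0 : ℝ) < j := by exact_mod_cast hj
    have hjk' : (j : ℝ) ≤ k := by exact_mod_cast hjk
    have h2 : ((k + 1 : ℕ) : ℝ) / (j + 1 : ℕ) ≤ (k : ℝ) / j := by
      rw [div_le_div_iff₀ (by positivity) hj']
      push_cast
      nlinarith
    have h3 : (((k + 1 : ℕ) : ℝ) / (j + 1 : ℕ)) ^ j ≤ (k.choose j : ℝ) :=
      (pow_le_pow_left₀ (by positivity) h2 j).trans h1
    have h4 : ((k + 1 : ℕ) : ℝ) * (k.choose j : ℝ) = ((k + 1).choose (j + 1) : ℝ) * (j + 1 : ℕ) := by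
      exact_mod_cast Nat.add_one_mul_choose_eq k j
    have h5 : ((k + 1).choose (j + 1) : ℝ) = (((k + 1 : ℕ) : ℝ) / (j + 1 : ℕ)) * (k.choose j : ℝ) := by
      have h6 : ((j + 1 : ℕ) : ℝ) ≠ 0 := by positivity
      rw [div_mul_eq_mul_div, eq_div_iff h6, h4]
    rw [h5, pow_succ, mul_comm]
    exact mul_le_mul_of_nonneg_left h3 (by positivity)

theorem SP_card {T : Finset ℕ} (hT : ∀ p ∈ T, p.Prime) {j : ℕ} (hj : 1 ≤ j) (hjT : j ≤ T.card) :
    ((T.card : ℝ) / j) ^ j ≤ ((SP T j).card : ℝ) := by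
  have h0 : (SP T j).card = T.card.choose j := by
    unfold SP
    rw [card_image_of_injOn, card_powersetCard]
    intro A hA B hB hAB
    rw [mem_coe, mem_powersetCard] at hA hB
    have hA' : ∀ p ∈ A, p.Prime := fun p hp => hT p (hA.1 hp)
    have hB' : ∀ p ∈ B, p.Prime := fun p hp => hT p (hB.1 hp)
    have h1 := Nat.primeFactors_prod hA'
    have h2 := Nat.primeFactors_prod hB'
    have hAB' : ∏ p ∈ A, p = ∏ p ∈ B, p := hAB
    rw [← h1, ← h2, hAB']
  rw [h0]
  exact hcnt_choose j T.card hj hjT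

theorem pairs_dvd {T : Finset ℕ} (hT : ∀ p ∈ T, p.Prime) {m y : ℕ} (h1 : 1 ≤ y) (h2 : y ≤ m) :
    (((T ×ˢ T).filter (fun q => q.1 * q.2 ∣ y)).card : ℝ) ≤ (2 * Real.log m) ^ 2 := by
  have hom := omega_le m y h1 h2
  have hsub : (T ×ˢ T).filter (fun q => q.1 * q.2 ∣ y) ⊆ y.primeFactors ×ˢ y.primeFactors := by
    intro q hq
    rw [mem_filter, mem_product] at hq
    rw [mem_product, Nat.mem_primeFactors, Nat.mem_primeFactors]
    exact ⟨⟨hT _ hq.1.1, (Dvd.intro _ rfl).trans hq.2, by omega⟩,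
      ⟨hT _ hq.1.2, (Dvd.intro_left _ rfl).trans hq.2, by omega⟩⟩
  have h3 : (((T ×ˢ T).filter (fun q => q.1 * q.2 ∣ y)).card : ℝ) ≤
      (y.primeFactors.card : ℝ) ^ 2 := by
    have h4 := card_le_card hsub
    rw [card_product] at h4
    rw [sq]
    exact_mod_cast h4
  exact h3.trans (pow_le_pow_left₀ (by positivity) hom 2)

theorem triples_dvd {T : Finset ℕ} (hT : ∀ p ∈ T, p.Prime) {m y : ℕ} (h1 : 1 ≤ y) (h2 : y ≤ m) :
    (((T ×ˢ (T ×ˢ T)).filter (fun q => q.1 * (q.2.1 * q.2.2) ∣ y)).card : ℝ)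
      ≤ (2 * Real.log m) ^ 3 := by
  have hom := omega_le m y h1 h2
  have hsub : (T ×ˢ (T ×ˢ T)).filter (fun q => q.1 * (q.2.1 * q.2.2) ∣ y) ⊆
      y.primeFactors ×ˢ (y.primeFactors ×ˢ y.primeFactors) := by
    intro q hq
    rw [mem_filter, mem_product, mem_product] at hq
    rw [mem_product, mem_product, Nat.mem_primeFactors, Nat.mem_primeFactors, Nat.mem_primeFactors]
    have h5 : q.2.1 * q.2.2 ∣ y := (Dvd.intro_left _ rfl).trans hq.2
    exact ⟨⟨hT _ hq.1.1, (Dvd.intro _ rfl).trans hq.2, by omega⟩,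
      ⟨hT _ hq.1.2.1, (Dvd.intro _ rfl).trans h5, by omega⟩,
      ⟨hT _ hq.1.2.2, (Dvd.intro_left _ rfl).trans h5, by omega⟩⟩
  have h3 : (((T ×ˢ (T ×ˢ T)).filter (fun q => q.1 * (q.2.1 * q.2.2) ∣ y)).card : ℝ) ≤
      (y.primeFactors.card : ℝ) ^ 3 := by
    have h4 := card_le_card hsub
    rw [card_product, card_product] at h4
    have h6 : (y.primeFactors.card : ℝ) ^ 3 =
        (y.primeFactors.card : ℝ) * ((y.primeFactors.card : ℝ) * (y.primeFactors.card : ℝ)) := by ring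
    rw [h6]
    exact_mod_cast h4
  exact h3.trans (pow_le_pow_left₀ (by positivity) hom 3)

end Pool.Agent.H78.PH
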