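import Pool.Agent.H78.PH.HStep
import Pool.Agent.H78.PG.TPret

/-!
# LQ / PG stage 2, HRec: the averages `aa` are small for all `P ≤ m^(49/100)`

`P ≤ bb m`: every `Ww p ≤ ρ^(1/2) ∑ ‖cc‖² ≤ ρ^(1/2)` (`mem_Xr`, `weight_one`), so `aa ≤ ρ^(1/2)` (also if `pq` is empty: `0/0 = 0`).
Claim by strong induction: `aa(P) ≤ ρ^(1/2) + (1 + log P)^5 * G` for `1 ≤ P ≤ yy m`, with `G = 20 ρ^(1/2) + E (1+L)^6 ρ^(1/3)`: for
`P > bb m`: `aa(P) ≤ 20 (ρ^(1/2) + (1 + (log P)/2)^5 G) + E (1+L)^6 ρ^(1/3)`, and `20 (1 + x/2)^5 + 1 ≤ (1 + x)^5` for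
`x = log P ≥ 100` (`log √P ≤ (log P)/2`; for large `m`, `log bb m ≥ 100`).
Hence `aa(P) ≤ ρ^(1/4)` (`small`, `c = 1/12`).
`t5'`: `a n = Ww n` if `n ∈ pq m (yy m)`, else `0`: `∑_{n ≤ P} a n = #pq aa(P) ≤ ρ^(1/4) P`; `psum`:
`∑_{p ∈ PY} Ww p/p ≤ ρ^(1/4) (1 + log yy) ≤ ρ^(1/5)` (`small`), and the left side is `∑_{Xr} ‖cc‖² VV χ` (exchange of sums;
`‖1 + χ p‖ = ‖χ p + 1‖`).
-/

set_option autoImplicit false

namespace Pool.Agent.H78.PH

open Finset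
open Pool.Agent.H34PG (lam lam_val lam_mul lam_prime)
open Pool.Agent.H11.LQ Pool.Agent.H78.PG

private theorem hrec_log {m : ℕ} (hm : 27 ≤ m) : (3 : ℝ) ≤ Real.log m := by
  have h1 : (1 : ℝ) ≤ Real.log 3 := by
    rw [Real.le_log_iff_exp_le (by norm_num)]
    linarith [Real.exp_one_lt_d9]
  have h2 : Real.log (27 : ℝ) = 3 * Real.log 3 := by
    rw [show (27 : ℝ) = 3 ^ 3 by norm_num, Real.log_pow]
    norm_num
  have h3 : Real.log (27 : ℝ) ≤ Real.log m :=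
    Real.log_le_log (by norm_num) (by exact_mod_cast hm)
  linarith

private theorem hrec_rho {C m : ℕ} {ρ : ℝ} (hm : 27 ≤ m) (h : Rho C m ρ) : ρ ≤ 1 := by
  obtain ⟨h0, -, h2⟩ := h
  have h3 := hrec_log hm
  have h4 : (1 : ℝ) ≤ Real.log m ^ C := one_le_pow₀ (by linarith)
  calc ρ = ρ * 1 := (mul_one ρ).symm
    _ ≤ ρ * Real.log m ^ C := mul_le_mul_of_nonneg_left h4 h0.le
    _ ≤ 1 := h2

private theorem hrec_yy {m : ℕ} (hm : 27 ≤ m) : yy m ≤ m := by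
  have h1 : (1 : ℝ) ≤ m := by
    have : 1 ≤ m := by omega
    exact_mod_cast this
  unfold yy
  have h2 : (m : ℝ) ^ (49 / 100 : ℝ) ≤ m := by
    calc (m : ℝ) ^ (49 / 100 : ℝ) ≤ (m : ℝ) ^ (1 : ℝ) :=
          Real.rpow_le_rpow_of_exponent_le h1 (by norm_num)
      _ = m := Real.rpow_one _
  calc ⌊(m : ℝ) ^ (49 / 100 : ℝ)⌋₊ ≤ ⌊(m : ℝ)⌋₊ := Nat.floor_le_floor h2
    _ = m := Nat.floor_natCast m

private theorem hrec_logP {m P : ℕ} (hm : 27 ≤ m) (hP : P ≤ yy m) :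
    Real.log P ≤ Real.log m := by
  rcases Nat.eq_zero_or_pos P with h | h
  · subst h
    rw [Nat.cast_zero, Real.log_zero]
    linarith [hrec_log hm]
  · exact Real.log_le_log (by exact_mod_cast h) (by exact_mod_cast hP.trans (hrec_yy hm))

/-- the base of the recursion -/
private theorem hrec_base {m : ℕ} [NeZero m] (hm : 27 ≤ m) {ρ : ℝ} (h0 : 0 < ρ) {η : ℤ}
    (hη : η = 1 ∨ η = -1) {P : ℕ} (hP : P ≤ bb m) : aa ρ m η P ≤ ρ ^ (1 / 2 : ℝ) := by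
  classical
  have hw : ∀ p ∈ pq m P, Ww ρ m η p ≤ ρ ^ (1 / 2 : ℝ) := by
    intro p hp
    rw [mem_pq] at hp
    obtain ⟨h1, h2, h3⟩ := hp
    have h4 : Ww ρ m η p ≤ ∑ χ ∈ Xr ρ m, ‖cc m (FC m η) χ‖ ^ 2 * ρ ^ (1 / 2 : ℝ) := by
      unfold Ww
      refine Finset.sum_le_sum fun χ hχ => mul_le_mul_of_nonneg_left ?_ (by positivity)
      have h5 := mem_Xr.mp hχ p h2 (h1.trans hP) h3
      calc ‖χ (p : ZMod m) + 1‖ ^ 2 ≤ (ρ ^ (1 / 4 : ℝ)) ^ 2 :=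
            pow_le_pow_left₀ (norm_nonneg _) h5 2
        _ = ρ ^ (1 / 2 : ℝ) := by
            rw [← Real.rpow_natCast, ← Real.rpow_mul h0.le]
            norm_num
    rw [← Finset.sum_mul] at h4
    have h6 : ∑ χ ∈ Xr ρ m, ‖cc m (FC m η) χ‖ ^ 2 ≤ 1 := by
      rw [← weight_one m (by omega) η hη]
      exact Finset.sum_le_univ_sum_of_nonneg fun χ => by positivity
    have h7 := mul_le_mul_of_nonneg_right h6 (Real.rpow_nonneg h0.le (1 / 2 : ℝ))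
    linarith
  unfold aa
  rcases Nat.eq_zero_or_pos (pq m P).card with h | h
  · rw [h, Nat.cast_zero, div_zero]
    exact Real.rpow_nonneg h0.le _
  · rw [div_le_iff₀ (by exact_mod_cast h)]
    have h8 := Finset.sum_le_sum hw
    rw [Finset.sum_const, nsmul_eq_mul] at h8
    linarith

private theorem hrec_poly {x : ℝ} (hx : 100 ≤ x) : 20 * (1 + x / 2) ^ 5 + 1 ≤ (1 + x) ^ 5 := by
  have h1 : 1 + x / 2 ≤ 51 / 101 * (1 + x) := by linarith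
  have h2 : (1 + x / 2) ^ 5 ≤ (51 / 101 * (1 + x)) ^ 5 :=
    pow_le_pow_left₀ (by linarith) h1 5
  have h3 : (1 : ℝ) ≤ (1 + x) ^ 5 / 10 := by
    have h4 : (101 : ℝ) ^ 5 ≤ (1 + x) ^ 5 := pow_le_pow_left₀ (by norm_num) (by linarith) 5
    norm_num at h4
    linarith
  rw [mul_pow] at h2
  have h5 : (20 : ℝ) * (51 / 101) ^ 5 ≤ 9 / 10 := by norm_num
  have h6 : (0 : ℝ) ≤ (1 + x) ^ 5 := by positivity
  have h7 := mul_le_mul_of_nonneg_right h5 h6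
  nlinarith

private theorem hrec_ind {m : ℕ} [NeZero m] (hm : 27 ≤ m) {ρ E : ℝ} (h0 : 0 < ρ) (hE : 0 ≤ E)
    {η : ℤ} (hη : η = 1 ∨ η = -1)
    (hs : ∀ P : ℕ, bb m < P → P ≤ yy m → aa ρ m η P ≤ 20 * aa ρ m η (Nat.sqrt P) +
      E * (1 + Real.log m) ^ 6 * ρ ^ (1 / 3 : ℝ)) (P : ℕ) : P ≤ yy m →
    aa ρ m η P ≤ ρ ^ (1 / 2 : ℝ) + (1 + Real.log P) ^ 5 *
      (20 * ρ ^ (1 / 2 : ℝ) + E * (1 + Real.log m) ^ 6 * ρ ^ (1 / 3 : ℝ)) := by
  have hL := hrec_log hm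
  have hr : 0 ≤ ρ ^ (1 / 2 : ℝ) := Real.rpow_nonneg h0.le _
  obtain ⟨G, hG⟩ : ∃ G, G = 20 * ρ ^ (1 / 2 : ℝ) + E * (1 + Real.log m) ^ 6 * ρ ^ (1 / 3 : ℝ) :=
    ⟨_, rfl⟩
  have hG0 : 0 ≤ G := by
    rw [hG]
    have h1 : 0 ≤ ρ ^ (1 / 3 : ℝ) := Real.rpow_nonneg h0.le _
    positivity
  rw [← hG]
  induction P using Nat.strong_induction_on with
  | _ P ih =>
    intro hP
    have hlogn : ∀ Q : ℕ, 0 ≤ Real.log Q := fun Q => Real.log_natCast_nonneg Q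
    rcases Nat.lt_or_ge (bb m) P with h | h
    · have h1 : Real.log m ^ 800 < (P : ℝ) := by
        have h2 : Real.log m ^ 800 < (bb m : ℝ) + 1 := by
          unfold bb
          exact Nat.lt_floor_add_one _
        have h3 : ((bb m : ℕ) : ℝ) + 1 ≤ P := by exact_mod_cast h
        linarith
      have h4 : (1 : ℝ) ≤ Real.log (Real.log m) := by
        rw [Real.le_log_iff_exp_le (by linarith)]
        linarith [Real.exp_one_lt_d9]
      have h5 : (100 : ℝ) ≤ Real.log P := by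
        have h6 : Real.log (Real.log m ^ 800) ≤ Real.log P :=
          Real.log_le_log (by positivity) h1.le
        rw [Real.log_pow] at h6
        push_cast at h6
        linarith
      have hP1 : 1 < P := by
        by_contra hcon
        have h7 : (P : ℝ) ≤ 1 := by exact_mod_cast (by omega : P ≤ 1)
        have h8 := Real.log_nonpos (Nat.cast_nonneg P) h7
        linarith
      have hsq : Nat.sqrt P < P := Nat.sqrt_lt_self hP1
      have h9 := ih (Nat.sqrt P) hsq (hsq.le.trans hP)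
      have h10 := hs P h hP
      have h11 : Real.log (Nat.sqrt P : ℕ) ≤ Real.log P / 2 := by
        have hs0 : 0 < Nat.sqrt P := Nat.sqrt_pos.mpr (by omega)
        have h12 : ((Nat.sqrt P : ℕ) : ℝ) ^ 2 ≤ P := by
          exact_mod_cast (by rw [sq]; exact Nat.sqrt_le P : (Nat.sqrt P) ^ 2 ≤ P)
        have h13 := Real.log_le_log (by positivity) h12
        rw [Real.log_pow] at h13
        push_cast at h13
        linarith
      have h14 : (1 + Real.log (Nat.sqrt P : ℕ)) ^ 5 ≤ (1 + Real.log P / 2) ^ 5 :=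
        pow_le_pow_left₀ (by linarith [hlogn (Nat.sqrt P)]) (by linarith) 5
      have h15 := mul_le_mul_of_nonneg_right h14 hG0
      have h16 := mul_le_mul_of_nonneg_right (hrec_poly h5) hG0
      nlinarith
    · have h1 := hrec_base hm h0 hη h
      have h2 : 0 ≤ (1 + Real.log P) ^ 5 * G := by
        have := hlogn P
        positivity
      linarith

theorem aa_le : ∃ C : ℕ, ∃ m0 : ℕ, ∀ (m : ℕ) [NeZero m], m0 ≤ m → ∀ ρ : ℝ, Rho C m ρ →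
    ∀ η : ℤ, Hyp2 ρ m η → ∀ P : ℕ, P ≤ yy m → aa ρ m η P ≤ ρ ^ (1 / 4 : ℝ) := by
  obtain ⟨C1, E, hE, m1, h1⟩ := step
  obtain ⟨C2, m2, h2⟩ := small (21 + E) 11 (1 / 12) (by norm_num)
  refine ⟨max C1 C2, max 27 (max m1 m2), fun m _ hm ρ hρ η hH P hP => ?_⟩
  have hm27 : 27 ≤ m := (le_max_left _ _).trans hm
  have hm1 : m1 ≤ m := ((le_max_left _ _).trans (le_max_right _ _)).trans hm
  have hm2 : m2 ≤ m := ((le_max_right _ _).trans (le_max_right _ _)).trans hm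
  have hρ1 : Rho C1 m ρ := Rho_mono (le_max_left _ _) (by omega) hρ
  have hρ2 : Rho C2 m ρ := Rho_mono (le_max_right _ _) (by omega) hρ
  have h0 : 0 < ρ := hρ.1
  have hle := hrec_rho hm27 hρ
  have hL := hrec_log hm27
  have h3 := hrec_ind hm27 h0 hE hH.1 (fun P' => h1 m hm1 ρ hρ1 η hH P') P hP
  have h4 := h2 m hm2 ρ hρ2
  have h5 : ρ ^ (1 / 2 : ℝ) ≤ ρ ^ (1 / 3 : ℝ) :=
    Real.rpow_le_rpow_of_exponent_ge h0 hle (by norm_num)
  have hl0 : 0 ≤ Real.log P := Real.log_natCast_nonneg P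
  have h6 : (1 + Real.log P) ^ 5 ≤ (1 + Real.log m) ^ 5 :=
    pow_le_pow_left₀ (by linarith) (by linarith [hrec_logP hm27 hP]) 5
  obtain ⟨r, hr⟩ : ∃ r, r = ρ ^ (1 / 3 : ℝ) := ⟨_, rfl⟩
  have hr0 : 0 < r := by rw [hr]; exact Real.rpow_pos_of_pos h0 _
  obtain ⟨X, hX⟩ : ∃ X, X = 1 + Real.log m := ⟨_, rfl⟩
  have hX1 : 1 ≤ X := by rw [hX]; linarith
  rw [← hr] at h3 h5
  rw [← hX] at h3 h4 h6
  have h7 : 20 * ρ ^ (1 / 2 : ℝ) + E * X ^ 6 * r ≤ (20 + E) * X ^ 6 * r := by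
    have h8 : (1 : ℝ) ≤ X ^ 6 := one_le_pow₀ hX1
    have h9 : 20 * r ≤ 20 * (X ^ 6 * r) := by
      have := mul_le_mul_of_nonneg_right h8 hr0.le
      linarith
    nlinarith
  have h10 : (1 + Real.log P) ^ 5 * (20 * ρ ^ (1 / 2 : ℝ) + E * X ^ 6 * r) ≤
      X ^ 5 * ((20 + E) * X ^ 6 * r) := by
    refine mul_le_mul h6 h7 ?_ (by positivity)
    have : 0 ≤ ρ ^ (1 / 2 : ℝ) := Real.rpow_nonneg h0.le _
    positivity
  have h11 : aa ρ m η P ≤ (21 + E) * X ^ 11 * r := by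
    have h12 : (1 : ℝ) ≤ X ^ 11 := one_le_pow₀ hX1
    have h13 : r ≤ X ^ 11 * r := by
      have := mul_le_mul_of_nonneg_right h12 hr0.le
      linarith
    have h14 : X ^ 5 * ((20 + E) * X ^ 6 * r) = (20 + E) * (X ^ 11 * r) := by ring
    calc aa ρ m η P ≤ r + (20 + E) * (X ^ 11 * r) := by linarith
      _ ≤ X ^ 11 * r + (20 + E) * (X ^ 11 * r) := by linarith
      _ = (21 + E) * X ^ 11 * r := by ring
  have h15 : r = ρ ^ (1 / 12 : ℝ) * ρ ^ (1 / 4 : ℝ) := by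
    rw [hr, ← Real.rpow_add h0]
    norm_num
  have h16 : 0 ≤ ρ ^ (1 / 4 : ℝ) := Real.rpow_nonneg h0.le _
  calc aa ρ m η P ≤ (21 + E) * X ^ 11 * r := h11
    _ = ((21 + E) * X ^ 11 * ρ ^ (1 / 12 : ℝ)) * ρ ^ (1 / 4 : ℝ) := by rw [h15]; ring
    _ ≤ 1 * ρ ^ (1 / 4 : ℝ) := mul_le_mul_of_nonneg_right h4 h16
    _ = ρ ^ (1 / 4 : ℝ) := one_mul _

theorem t5' : ∃ C : ℕ, ∃ m0 : ℕ, ∀ (m : ℕ) [NeZero m], m0 ≤ m → ∀ ρ : ℝ, Rho C m ρ →
    ∀ η : ℤ, Hyp2 ρ m η →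
      ∑ χ ∈ Xr ρ m, ‖cc m (FC m η) χ‖ ^ 2 * VV m χ ≤ ρ ^ (1 / 5 : ℝ) := by
  classical
  obtain ⟨C1, m1, h1⟩ := aa_le
  obtain ⟨C2, m2, h2⟩ := small 1 1 (1 / 20) (by norm_num)
  refine ⟨max C1 C2, max 27 (max m1 m2), fun m _ hm ρ hρ η hH => ?_⟩
  have hm27 : 27 ≤ m := (le_max_left _ _).trans hm
  have hm1 : m1 ≤ m := ((le_max_left _ _).trans (le_max_right _ _)).trans hm
  have hm2 : m2 ≤ m := ((le_max_right _ _).trans (le_max_right _ _)).trans hm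
  have hρ1 : Rho C1 m ρ := Rho_mono (le_max_left _ _) (by omega) hρ
  have hρ2 : Rho C2 m ρ := Rho_mono (le_max_right _ _) (by omega) hρ
  have h0 : 0 < ρ := hρ.1
  have hL := hrec_log hm27
  have hθ : 0 ≤ ρ ^ (1 / 4 : ℝ) := Real.rpow_nonneg h0.le _
  -- partial summation
  have h3 := psum (fun n => if n.Prime ∧ ¬ n ∣ m then Ww ρ m η n else 0) (ρ ^ (1 / 4 : ℝ)) hθ
    (yy m) (by
      intro M hM1 hM
      have e1 : ∑ n ∈ Icc 1 M, (if n.Prime ∧ ¬ n ∣ m then Ww ρ m η n else 0) =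
          ∑ p ∈ pq m M, Ww ρ m η p := by
        rw [← Finset.sum_filter]
        refine Finset.sum_congr ?_ fun _ _ => rfl
        ext p
        rw [mem_filter, mem_Icc, mem_pq]
        constructor
        · rintro ⟨⟨-, h4⟩, h5⟩
          exact ⟨h4, h5⟩
        · rintro ⟨h4, h5⟩
          exact ⟨⟨h5.1.one_lt.le, h4⟩, h5⟩
      rw [e1]
      have h4 := h1 m hm1 ρ hρ1 η hH M hM
      have hcard : ((pq m M).card : ℝ) ≤ M := by
        have h5 : pq m M ⊆ Icc 1 M := by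
          intro p hp
          rw [mem_pq] at hp
          exact mem_Icc.mpr ⟨hp.2.1.one_lt.le, hp.1⟩
        have h6 := Finset.card_le_card h5
        rw [Nat.card_Icc] at h6
        exact_mod_cast (by omega : (pq m M).card ≤ M)
      rcases Nat.eq_zero_or_pos (pq m M).card with h | h
      · rw [Finset.card_eq_zero.mp h, Finset.sum_empty]
        positivity
      · unfold aa at h4
        rw [div_le_iff₀ (by exact_mod_cast h)] at h4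
        exact h4.trans (mul_le_mul_of_nonneg_left hcard hθ))
  -- exchange of the sums
  have h4 : ∑ χ ∈ Xr ρ m, ‖cc m (FC m η) χ‖ ^ 2 * VV m χ =
      ∑ n ∈ Icc 1 (yy m), (if n.Prime ∧ ¬ n ∣ m then Ww ρ m η n else 0) / (n : ℝ) := by
    have e1 : ∀ n ∈ Icc 1 (yy m), (if n.Prime ∧ ¬ n ∣ m then Ww ρ m η n else 0) / (n : ℝ) =
        if n.Prime ∧ ¬ n ∣ m then Ww ρ m η n / (n : ℝ) else 0 := by
      intro n _
      split_ifs
      · rfl
      · rw [zero_div]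
    rw [Finset.sum_congr rfl e1, ← Finset.sum_filter]
    have e2 : (Icc 1 (yy m)).filter (fun n => n.Prime ∧ ¬ n ∣ m) = PY m := by
      ext p
      rw [mem_filter, mem_Icc, mem_PY]
      constructor
      · rintro ⟨⟨-, h4⟩, h5⟩
        exact ⟨h4, h5⟩
      · rintro ⟨h4, h5⟩
        exact ⟨⟨h5.1.one_lt.le, h4⟩, h5⟩
    rw [e2]
    unfold VV Ww
    have e3 : ∀ p ∈ PY m, (∑ χ ∈ Xr ρ m, ‖cc m (FC m η) χ‖ ^ 2 * ‖χ (p : ZMod m) + 1‖ ^ 2) / (p : ℝ)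
        = ∑ χ ∈ Xr ρ m, ‖cc m (FC m η) χ‖ ^ 2 * (‖1 + χ (p : ZMod m)‖ ^ 2 / (p : ℝ)) := by
      intro p _
      rw [Finset.sum_div]
      refine Finset.sum_congr rfl fun χ _ => ?_
      rw [add_comm (1 : ℂ), mul_div_assoc]
    rw [Finset.sum_congr rfl e3, Finset.sum_comm]
    refine Finset.sum_congr rfl fun χ _ => ?_
    rw [Finset.mul_sum]
  rw [h4]
  refine h3.trans ?_
  have h5 := h2 m hm2 ρ hρ2
  rw [one_mul, pow_one] at h5
  have h6 : 1 + Real.log (yy m : ℕ) ≤ 1 + Real.log m := by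
    linarith [hrec_logP hm27 (le_refl (yy m))]
  have h7 : ρ ^ (1 / 4 : ℝ) = ρ ^ (1 / 20 : ℝ) * ρ ^ (1 / 5 : ℝ) := by
    rw [← Real.rpow_add h0]
    norm_num
  have h8 : 0 ≤ ρ ^ (1 / 5 : ℝ) := Real.rpow_nonneg h0.le _
  calc ρ ^ (1 / 4 : ℝ) * (1 + Real.log (yy m : ℕ)) ≤ ρ ^ (1 / 4 : ℝ) * (1 + Real.log m) :=
        mul_le_mul_of_nonneg_left h6 hθ
    _ = ((1 + Real.log m) * ρ ^ (1 / 20 : ℝ)) * ρ ^ (1 / 5 : ℝ) := by rw [h7]; ring
    _ ≤ 1 * ρ ^ (1 / 5 : ℝ) := mul_le_mul_of_nonneg_right h5 h8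
    _ = ρ ^ (1 / 5 : ℝ) := one_mul _

end Pool.Agent.H78.PH
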