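import Pool.Agent.H78.PH.HCnt
import Pool.Agent.H78.PH.HQU
import Pool.Agent.H78.PG.TW

/-!
# LQ / PG stage 2, HStA: the distance on short intervals, with multipliers `q₁ q₂`

`T = pq m Q`, `n = #T`, `2 Q² M ≤ m`.  For `(q₁, q₂) ∈ T × T`, `s = q₁ q₂ ≤ Q²`, and `x ∈ cop m M`: `s x ≤ m/2`, `λ(s x) = λ(x)`, so
`‖λ(x) - G(x)‖² ≤ 2 ‖λ(s x) - G(s x)‖² + 2 ‖G(s x) - G(x)‖²`.
Sum over `x` and the pairs: the first part is `≤ 2 (2 log m)² D0(m/2)` (`y = s x ∈ cop m (m/2)`; a given `y` and pair determine `x`,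
at most `(2 log m)²` pairs divide `y`: `pairs_dvd`); the second: `G(s x) - G(x) = ∑_{Xr} cc χ (χ s - 1) χ(x)`, `quasi_upper`, and
`‖χ(q₁ q₂) - 1‖² ≤ (‖χ q₁ + 1‖ + ‖χ q₂ + 1‖)² ≤ 2 ‖χ q₁ + 1‖² + 2 ‖χ q₂ + 1‖²`, so the sum over the pairs is
`≤ 2 (#cop + #X KK) * 4 n ∑_T Ww`.
-/

set_option autoImplicit false

namespace Pool.Agent.H78.PH

open Finset
open Pool.Agent.H34PG (lam lam_val lam_mul lam_prime)
open Pool.Agent.H11.LQ Pool.Agent.H78.PG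

/-- double counting of the products -/
theorem hsta_sum_le {α : Type*} (S : Finset α) (w : α → ℕ) (C D : Finset ℕ) (h : ℕ → ℝ) (K : ℝ)
    (hh : ∀ y, 0 ≤ h y) (hS : ∀ s ∈ S, 1 ≤ w s) (hD : ∀ s ∈ S, ∀ x ∈ C, w s * x ∈ D)
    (hK : ∀ y ∈ D, ((S.filter (fun s => w s ∣ y)).card : ℝ) ≤ K) :
    ∑ s ∈ S, ∑ x ∈ C, h (w s * x) ≤ K * ∑ y ∈ D, h y := by
  classical
  have e1 : ∀ s ∈ S, ∑ x ∈ C, h (w s * x) ≤ ∑ y ∈ D, if w s ∣ y then h y else 0 := by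
    intro s hs
    have e2 : ∑ x ∈ C, h (w s * x) = ∑ y ∈ C.image (fun x => w s * x), h y := by
      rw [sum_image]
      intro a _ b _ hab
      exact Nat.eq_of_mul_eq_mul_left (hS s hs) hab
    rw [e2, ← sum_filter]
    refine sum_le_sum_of_subset_of_nonneg ?_ (fun y _ _ => hh y)
    intro y hy
    rw [mem_image] at hy
    obtain ⟨x, hx, rfl⟩ := hy
    rw [mem_filter]
    exact ⟨hD s hs x hx, dvd_mul_right _ _⟩
  calc ∑ s ∈ S, ∑ x ∈ C, h (w s * x) ≤ ∑ s ∈ S, ∑ y ∈ D, (if w s ∣ y then h y else 0) :=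
        sum_le_sum e1
    _ = ∑ y ∈ D, ∑ s ∈ S, (if w s ∣ y then h y else 0) := sum_comm
    _ = ∑ y ∈ D, ((S.filter (fun s => w s ∣ y)).card : ℝ) * h y := by
        refine sum_congr rfl (fun y _ => ?_)
        rw [← sum_filter, sum_const, nsmul_eq_mul]
    _ ≤ ∑ y ∈ D, K * h y := sum_le_sum fun y hy => mul_le_mul_of_nonneg_right (hK y hy) (hh y)
    _ = K * ∑ y ∈ D, h y := by rw [mul_sum]

/-- the character values -/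
theorem hsta_char {m : ℕ} (χ : DirichletCharacter ℂ m) (p q : ℕ) :
    ‖χ ((p * q : ℕ) : ZMod m) - 1‖ ^ 2
      ≤ 2 * ‖χ (p : ZMod m) + 1‖ ^ 2 + 2 * ‖χ (q : ZMod m) + 1‖ ^ 2 := by
  have h1 : χ ((p * q : ℕ) : ZMod m) - 1
      = (χ (p : ZMod m) + 1) * χ (q : ZMod m) - (χ (q : ZMod m) + 1) := by
    rw [Nat.cast_mul, map_mul]
    ring
  have h2 : ‖χ ((p * q : ℕ) : ZMod m) - 1‖ ≤ ‖χ (p : ZMod m) + 1‖ + ‖χ (q : ZMod m) + 1‖ := by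
    rw [h1]
    refine (norm_sub_le _ _).trans ?_
    rw [norm_mul]
    have h3 : ‖χ (q : ZMod m)‖ ≤ 1 := DirichletCharacter.norm_le_one χ _
    have h4 : ‖χ (p : ZMod m) + 1‖ * ‖χ (q : ZMod m)‖ ≤ ‖χ (p : ZMod m) + 1‖ * 1 := by gcongr
    linarith
  have h5 := norm_nonneg (χ ((p * q : ℕ) : ZMod m) - 1)
  nlinarith [sq_nonneg (‖χ (p : ZMod m) + 1‖ - ‖χ (q : ZMod m) + 1‖)]

/-- the main part at `s x` and at `x` -/
theorem hsta_G (ρ : ℝ) (m : ℕ) [NeZero m] (η : ℤ) (s M : ℕ) :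
    ∑ x ∈ cop m M, ‖Gr ρ m η (s * x) - Gr ρ m η x‖ ^ 2
      ≤ (((cop m M).card : ℝ) + (Xr ρ m).card * KK m)
        * ∑ χ ∈ Xr ρ m, ‖cc m (FC m η) χ‖ ^ 2 * ‖χ (s : ZMod m) - 1‖ ^ 2 := by
  have h := quasi_upper m (Xr ρ m) (fun χ => cc m (FC m η) χ * (χ (s : ZMod m) - 1)) M
  have e1 : ∀ x : ℕ, Gr ρ m η (s * x) - Gr ρ m η x
      = ∑ χ ∈ Xr ρ m, cc m (FC m η) χ * (χ (s : ZMod m) - 1) * χ (x : ZMod m) := by
    intro x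
    unfold Gr
    rw [← sum_sub_distrib]
    refine sum_congr rfl fun χ _ => ?_
    rw [Nat.cast_mul, map_mul]
    ring
  have e2 : ∀ χ : DirichletCharacter ℂ m, ‖cc m (FC m η) χ * (χ (s : ZMod m) - 1)‖ ^ 2
      = ‖cc m (FC m η) χ‖ ^ 2 * ‖χ (s : ZMod m) - 1‖ ^ 2 := by
    intro χ
    rw [norm_mul, mul_pow]
  simp only [e2] at h
  refine le_trans (le_of_eq ?_) h
  exact sum_congr rfl fun x _ => by rw [e1 x]

theorem hsta_KK_nonneg (m : ℕ) : 0 ≤ KK m := by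
  unfold KK
  have : 0 ≤ Real.log m := Real.log_natCast_nonneg m
  positivity

/-- the pointwise comparison -/
theorem hsta_point (ρ : ℝ) (m : ℕ) [NeZero m] (η : ℤ) {p q x : ℕ} (hp : p.Prime) (hq : q.Prime)
    (hx : 1 ≤ x) :
    ‖((lam x : ℤ) : ℂ) - Gr ρ m η x‖ ^ 2
      ≤ 2 * ‖((lam (p * q * x) : ℤ) : ℂ) - Gr ρ m η (p * q * x)‖ ^ 2
        + 2 * ‖Gr ρ m η (p * q * x) - Gr ρ m η x‖ ^ 2 := by
  have h1 : lam (p * q * x) = lam x := by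
    rw [lam_mul (p * q) x (Nat.mul_pos hp.pos hq.pos) hx, lam_mul p q hp.pos hq.pos,
      lam_prime hp, lam_prime hq]
    ring
  rw [h1]
  have h2 : ((lam x : ℤ) : ℂ) - Gr ρ m η x
      = (((lam x : ℤ) : ℂ) - Gr ρ m η (p * q * x)) + (Gr ρ m η (p * q * x) - Gr ρ m η x) := by
    ring
  have h3 : ‖((lam x : ℤ) : ℂ) - Gr ρ m η x‖
      ≤ ‖((lam x : ℤ) : ℂ) - Gr ρ m η (p * q * x)‖ + ‖Gr ρ m η (p * q * x) - Gr ρ m η x‖ := by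
    rw [h2]
    exact norm_add_le _ _
  have h4 := norm_nonneg (((lam x : ℤ) : ℂ) - Gr ρ m η x)
  nlinarith [sq_nonneg (‖((lam x : ℤ) : ℂ) - Gr ρ m η (p * q * x)‖
    - ‖Gr ρ m η (p * q * x) - Gr ρ m η x‖)]

theorem stepA (m : ℕ) [NeZero m] (hm : 3 ≤ m) (ρ : ℝ) (η : ℤ) (Q M : ℕ) (hM : 2 * Q ^ 2 * M ≤ m) :
    ((pq m Q).card : ℝ) ^ 2 * D0 ρ m η M ≤ 2 * (2 * Real.log m) ^ 2 * D0 ρ m η (m / 2)
      + 8 * (((cop m M).card : ℝ) + (Xr ρ m).card * KK m) * ((pq m Q).card : ℝ)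
        * ∑ p ∈ pq m Q, Ww ρ m η p := by
  classical
  set T : Finset ℕ := pq m Q with hT
  have hTp : ∀ p ∈ T, p.Prime := fun p hp => (mem_pq.mp hp).2.1
  have hTc : ∀ p ∈ T, p.Coprime m := fun p hp =>
    (Nat.Prime.coprime_iff_not_dvd (hTp p hp)).mpr (mem_pq.mp hp).2.2
  set h : ℕ → ℝ := fun y => ‖((lam y : ℤ) : ℂ) - Gr ρ m η y‖ ^ 2 with hh
  have hh0 : ∀ y, 0 ≤ h y := fun y => by simp only [hh]; positivity
  set A : ℝ := ((cop m M).card : ℝ) + (Xr ρ m).card * KK m with hA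
  have hA0 : 0 ≤ A := by
    have := hsta_KK_nonneg m
    rw [hA]
    positivity
  -- one pair
  have f1 : ∀ r ∈ T ×ˢ T, D0 ρ m η M ≤ 2 * (∑ x ∈ cop m M, h (r.1 * r.2 * x))
      + 2 * (A * (2 * Ww ρ m η r.1 + 2 * Ww ρ m η r.2)) := by
    intro r hr
    rw [mem_product] at hr
    have hp := hTp r.1 hr.1
    have hq := hTp r.2 hr.2
    have g1 : D0 ρ m η M ≤ ∑ x ∈ cop m M,
        (2 * h (r.1 * r.2 * x) + 2 * ‖Gr ρ m η (r.1 * r.2 * x) - Gr ρ m η x‖ ^ 2) := by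
      unfold D0
      refine sum_le_sum fun x hx => ?_
      exact hsta_point ρ m η hp hq (mem_cop.mp hx).1
    rw [sum_add_distrib, ← mul_sum, ← mul_sum] at g1
    have g2 := hsta_G ρ m η (r.1 * r.2) M
    have g3 : ∑ χ ∈ Xr ρ m, ‖cc m (FC m η) χ‖ ^ 2 * ‖χ ((r.1 * r.2 : ℕ) : ZMod m) - 1‖ ^ 2
        ≤ 2 * Ww ρ m η r.1 + 2 * Ww ρ m η r.2 := by
      unfold Ww
      rw [mul_sum, mul_sum, ← sum_add_distrib]
      refine sum_le_sum fun χ _ => ?_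
      have g4 := hsta_char χ r.1 r.2
      calc ‖cc m (FC m η) χ‖ ^ 2 * ‖χ ((r.1 * r.2 : ℕ) : ZMod m) - 1‖ ^ 2
          ≤ ‖cc m (FC m η) χ‖ ^ 2
            * (2 * ‖χ (r.1 : ZMod m) + 1‖ ^ 2 + 2 * ‖χ (r.2 : ZMod m) + 1‖ ^ 2) := by gcongr
        _ = _ := by ring
    have g5 : ∑ x ∈ cop m M, ‖Gr ρ m η (r.1 * r.2 * x) - Gr ρ m η x‖ ^ 2
        ≤ A * (2 * Ww ρ m η r.1 + 2 * Ww ρ m η r.2) :=
      g2.trans (mul_le_mul_of_nonneg_left g3 hA0)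
    linarith
  -- the products
  have f2 : ∑ r ∈ T ×ˢ T, ∑ x ∈ cop m M, h (r.1 * r.2 * x)
      ≤ (2 * Real.log m) ^ 2 * D0 ρ m η (m / 2) := by
    refine hsta_sum_le (T ×ˢ T) (fun r => r.1 * r.2) (cop m M) (cop m (m / 2)) h _ hh0 ?_ ?_ ?_
    · intro r hr
      rw [mem_product] at hr
      exact Nat.mul_pos (hTp _ hr.1).pos (hTp _ hr.2).pos
    · intro r hr x hx
      rw [mem_product] at hr
      obtain ⟨hx1, hx2, hx3⟩ := mem_cop.mp hx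
      rw [mem_cop]
      have k1 : r.1 ≤ Q := (mem_pq.mp hr.1).1
      have k2 : r.2 ≤ Q := (mem_pq.mp hr.2).1
      refine ⟨Nat.mul_pos (Nat.mul_pos (hTp _ hr.1).pos (hTp _ hr.2).pos) hx1, ?_,
        Nat.Coprime.mul_left (Nat.Coprime.mul_left (hTc _ hr.1) (hTc _ hr.2)) hx3⟩
      rw [Nat.le_div_iff_mul_le (by norm_num)]
      calc r.1 * r.2 * x * 2 ≤ Q * Q * M * 2 := by gcongr
        _ = 2 * Q ^ 2 * M := by ring
        _ ≤ m := hM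
    · intro y hy
      obtain ⟨hy1, hy2, _⟩ := mem_cop.mp hy
      exact pairs_dvd hTp hy1 (by omega)
  -- the sum over the pairs
  have f3 : ((T.card : ℝ)) ^ 2 * D0 ρ m η M = ∑ _r ∈ T ×ˢ T, D0 ρ m η M := by
    rw [sum_const, card_product, nsmul_eq_mul]
    push_cast
    ring
  have f4 : ∑ r ∈ T ×ˢ T, (2 * Ww ρ m η r.1 + 2 * Ww ρ m η r.2)
      = 4 * (T.card : ℝ) * ∑ p ∈ T, Ww ρ m η p := by
    rw [sum_product]
    have k1 : ∀ a ∈ T, ∑ b ∈ T, (2 * Ww ρ m η (a, b).1 + 2 * Ww ρ m η (a, b).2)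
        = 2 * (T.card : ℝ) * Ww ρ m η a + 2 * ∑ p ∈ T, Ww ρ m η p := by
      intro a _
      simp only
      rw [sum_add_distrib, sum_const, nsmul_eq_mul, ← mul_sum]
      ring
    rw [sum_congr rfl k1, sum_add_distrib, sum_const, nsmul_eq_mul, ← mul_sum]
    ring
  calc ((T.card : ℝ)) ^ 2 * D0 ρ m η M = ∑ _r ∈ T ×ˢ T, D0 ρ m η M := f3
    _ ≤ ∑ r ∈ T ×ˢ T, (2 * (∑ x ∈ cop m M, h (r.1 * r.2 * x))
        + 2 * (A * (2 * Ww ρ m η r.1 + 2 * Ww ρ m η r.2))) := sum_le_sum f1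
    _ = 2 * (∑ r ∈ T ×ˢ T, ∑ x ∈ cop m M, h (r.1 * r.2 * x))
        + 2 * (A * ∑ r ∈ T ×ˢ T, (2 * Ww ρ m η r.1 + 2 * Ww ρ m η r.2)) := by
        rw [sum_add_distrib, ← mul_sum, ← mul_sum, ← mul_sum]
    _ ≤ 2 * ((2 * Real.log m) ^ 2 * D0 ρ m η (m / 2))
        + 2 * (A * (4 * (T.card : ℝ) * ∑ p ∈ T, Ww ρ m η p)) := by
        rw [f4]
        linarith
    _ = 2 * (2 * Real.log m) ^ 2 * D0 ρ m η (m / 2)
      + 8 * A * (T.card : ℝ) * ∑ p ∈ T, Ww ρ m η p := by ring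

end Pool.Agent.H78.PH
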