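import Pool.Agent.H78.PH.HCnt
import Pool.Agent.H78.PH.HQU
import Pool.Agent.H78.PG.TW

/-!
# LQ / PG stage 2, HStB: the sum of `Ww` over the primes `≤ P`

`2 P M ≤ m`.  For `p ∈ pq m P` and `x ∈ cop m M`: `p x ≤ m/2`, `λ(p x) = -λ(x)`, so
`‖G(p x) + G(x)‖² ≤ 2 ‖G(p x) - λ(p x)‖² + 2 ‖G(x) - λ(x)‖²`.  Sum over `x` and `p`: the first part is `≤ 2 (2 log m) D0(m/2)`
(every `y ≤ m/2` has at most `2 log m` prime factors: `omega_le`), the second `2 #pq D0(M)`.  And `G(p x) + G(x) = ∑ cc χ (χ p + 1) χ(x)`,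
`Pool.Agent.H78.PG.quasi`: the left side is `≥ (#cop - #X KK) Ww p` for every `p`.
-/

set_option autoImplicit false

namespace Pool.Agent.H78.PH

open Finset
open Pool.Agent.H34PG (lam lam_val lam_mul lam_prime)
open Pool.Agent.H11.LQ Pool.Agent.H78.PG

private theorem hStB_lower (m : ℕ) [NeZero m] (ρ : ℝ) (η : ℤ) (M p : ℕ) :
    (((cop m M).card : ℝ) - (Xr ρ m).card * KK m) * Ww ρ m η p
      ≤ ∑ x ∈ cop m M, ‖Gr ρ m η (p * x) + Gr ρ m η x‖ ^ 2 := by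
  have h := quasi m (Xr ρ m) (fun χ => cc m (FC m η) χ * (χ (p : ZMod m) + 1)) M
  have e1 : ∑ χ ∈ Xr ρ m, ‖cc m (FC m η) χ * (χ (p : ZMod m) + 1)‖ ^ 2 = Ww ρ m η p := by
    unfold Ww
    refine sum_congr rfl fun χ _ => ?_
    rw [norm_mul, mul_pow]
  have e2 : ∑ x ∈ cop m M, ‖∑ χ ∈ Xr ρ m, cc m (FC m η) χ * (χ (p : ZMod m) + 1) *
      χ (x : ZMod m)‖ ^ 2 = ∑ x ∈ cop m M, ‖Gr ρ m η (p * x) + Gr ρ m η x‖ ^ 2 := by
    refine sum_congr rfl fun x _ => ?_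
    congr 2
    unfold Gr
    rw [← sum_add_distrib]
    refine sum_congr rfl fun χ _ => ?_
    rw [Nat.cast_mul, map_mul]
    ring
  rw [e1, e2] at h
  exact h

private theorem hStB_fib (m : ℕ) (P M : ℕ) (hM : 2 * P * M ≤ m) (f : ℕ → ℝ)
    (hf : ∀ y, 0 ≤ f y) :
    ∑ p ∈ pq m P, ∑ x ∈ cop m M, f (p * x) ≤ (2 * Real.log m) * ∑ y ∈ cop m (m / 2), f y := by
  classical
  rw [← sum_product']
  have hmap : ∀ q ∈ pq m P ×ˢ cop m M, q.1 * q.2 ∈ cop m (m / 2) := by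
    intro q hq
    rw [mem_product, mem_pq, mem_cop] at hq
    obtain ⟨⟨h1, h2, h3⟩, h4, h5, h6⟩ := hq
    rw [mem_cop]
    refine ⟨Nat.mul_pos h2.pos h4, ?_, ?_⟩
    · rw [Nat.le_div_iff_mul_le (by norm_num)]
      calc q.1 * q.2 * 2 ≤ P * M * 2 := Nat.mul_le_mul_right _ (Nat.mul_le_mul h1 h5)
        _ = 2 * P * M := by ring
        _ ≤ m := hM
    · exact Nat.Coprime.mul_left ((Nat.Prime.coprime_iff_not_dvd h2).mpr h3) h6
  rw [← sum_fiberwise_of_maps_to hmap, mul_sum]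
  refine sum_le_sum fun y hy => ?_
  rw [mem_cop] at hy
  obtain ⟨hy1, hy2, _⟩ := hy
  have e1 : ∑ q ∈ (pq m P ×ˢ cop m M).filter (fun q => q.1 * q.2 = y), f (q.1 * q.2)
      = (((pq m P ×ˢ cop m M).filter (fun q => q.1 * q.2 = y)).card : ℝ) * f y := by
    rw [← nsmul_eq_mul, ← sum_const]
    refine sum_congr rfl fun q hq => ?_
    rw [mem_filter] at hq
    rw [hq.2]
  rw [e1]
  refine mul_le_mul_of_nonneg_right ?_ (hf y)
  have h3 : ((pq m P ×ˢ cop m M).filter (fun q => q.1 * q.2 = y)).card ≤ y.primeFactors.card := by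
    refine card_le_card_of_injOn (fun q : ℕ × ℕ => q.1) ?_ ?_
    · intro q hq
      rw [mem_coe, mem_filter, mem_product, mem_pq, mem_cop] at hq
      obtain ⟨⟨⟨_, h2, _⟩, _⟩, h7⟩ := hq
      rw [mem_coe, Nat.mem_primeFactors]
      exact ⟨h2, ⟨q.2, h7.symm⟩, by omega⟩
    · intro q hq r hr hqr
      rw [mem_coe, mem_filter, mem_product, mem_pq] at hq hr
      simp only at hqr
      have h8 : q.1 * q.2 = q.1 * r.2 := by
        rw [hq.2, hqr, hr.2]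
      exact Prod.ext hqr (Nat.eq_of_mul_eq_mul_left hq.1.1.2.1.pos h8)
  have h4 : (((pq m P ×ˢ cop m M).filter (fun q => q.1 * q.2 = y)).card : ℝ)
      ≤ (y.primeFactors.card : ℝ) := by exact_mod_cast h3
  exact h4.trans (omega_le m y hy1 (hy2.trans (Nat.div_le_self _ _)))

theorem stepB (m : ℕ) [NeZero m] (hm : 3 ≤ m) (ρ : ℝ) (η : ℤ) (P M : ℕ) (hM : 2 * P * M ≤ m) :
    (((cop m M).card : ℝ) - (Xr ρ m).card * KK m) * ∑ p ∈ pq m P, Ww ρ m η p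
      ≤ 2 * (2 * Real.log m) * D0 ρ m η (m / 2) + 2 * ((pq m P).card : ℝ) * D0 ρ m η M := by
  have _ := hm
  have h1 : (((cop m M).card : ℝ) - (Xr ρ m).card * KK m) * ∑ p ∈ pq m P, Ww ρ m η p
      ≤ ∑ p ∈ pq m P, ∑ x ∈ cop m M, ‖Gr ρ m η (p * x) + Gr ρ m η x‖ ^ 2 := by
    rw [mul_sum]
    exact sum_le_sum fun p _ => hStB_lower m ρ η M p
  have h2 : ∀ p ∈ pq m P, ∀ x ∈ cop m M, ‖Gr ρ m η (p * x) + Gr ρ m η x‖ ^ 2
      ≤ 2 * ‖((lam (p * x) : ℤ) : ℂ) - Gr ρ m η (p * x)‖ ^ 2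
        + 2 * ‖((lam x : ℤ) : ℂ) - Gr ρ m η x‖ ^ 2 := by
    intro p hp x hx
    rw [mem_pq] at hp
    rw [mem_cop] at hx
    have h3 : lam (p * x) = - lam x := by
      rw [lam_mul p x hp.2.1.pos hx.1, lam_prime hp.2.1]
      ring
    have h4 : ((lam (p * x) : ℤ) : ℂ) = - ((lam x : ℤ) : ℂ) := by
      rw [h3]
      push_cast
      ring
    set a : ℂ := ((lam (p * x) : ℤ) : ℂ) - Gr ρ m η (p * x) with ha
    set b : ℂ := ((lam x : ℤ) : ℂ) - Gr ρ m η x with hb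
    have h5 : Gr ρ m η (p * x) + Gr ρ m η x = - (a + b) := by
      rw [ha, hb, h4]
      ring
    rw [h5, norm_neg]
    have h6 : ‖a + b‖ ≤ ‖a‖ + ‖b‖ := norm_add_le a b
    have h7 : ‖a + b‖ ^ 2 ≤ (‖a‖ + ‖b‖) ^ 2 := pow_le_pow_left₀ (norm_nonneg _) h6 2
    nlinarith [sq_nonneg (‖a‖ - ‖b‖)]
  refine h1.trans ((sum_le_sum fun p hp => sum_le_sum fun x hx => h2 p hp x hx).trans ?_)
  have e1 : ∑ p ∈ pq m P, ∑ x ∈ cop m M, (2 * ‖((lam (p * x) : ℤ) : ℂ) - Gr ρ m η (p * x)‖ ^ 2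
        + 2 * ‖((lam x : ℤ) : ℂ) - Gr ρ m η x‖ ^ 2)
      = 2 * (∑ p ∈ pq m P, ∑ x ∈ cop m M, ‖((lam (p * x) : ℤ) : ℂ) - Gr ρ m η (p * x)‖ ^ 2)
        + 2 * ((pq m P).card : ℝ) * D0 ρ m η M := by
    have e2 : ∀ p ∈ pq m P, ∑ x ∈ cop m M, (2 * ‖((lam (p * x) : ℤ) : ℂ) - Gr ρ m η (p * x)‖ ^ 2
        + 2 * ‖((lam x : ℤ) : ℂ) - Gr ρ m η x‖ ^ 2)
        = 2 * (∑ x ∈ cop m M, ‖((lam (p * x) : ℤ) : ℂ) - Gr ρ m η (p * x)‖ ^ 2)
          + 2 * D0 ρ m η M := by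
      intro p _
      rw [sum_add_distrib, ← mul_sum, ← mul_sum]
      rfl
    rw [sum_congr rfl e2, sum_add_distrib, ← mul_sum, sum_const, nsmul_eq_mul]
    ring
  rw [e1]
  have h8 := hStB_fib m P M hM (fun y => ‖((lam y : ℤ) : ℂ) - Gr ρ m η y‖ ^ 2)
    (fun y => by positivity)
  have h9 : ∑ y ∈ cop m (m / 2), ‖((lam y : ℤ) : ℂ) - Gr ρ m η y‖ ^ 2 = D0 ρ m η (m / 2) := rfl
  rw [h9] at h8
  linarith

end Pool.Agent.H78.PH
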