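import Pool.Agent.H78.PH.HNum
import Pool.Agent.H78.PG.TW

/-!
# LQ / PG stage 2, HW: the weight outside `Xr`, and the base scale

`weight2`: as `Pool.Agent.H78.PG.weight` (module PG/TW): for a prime `q ≤ bb m` not dividing `m`, by `twist`:
`∑ ‖cc‖² ‖χ q + 1‖² ≤ 4 #Ex(q)/φ(m) ≤ 4 ρ m/φ(m) ≤ 4 ρ (2 + 2 log m)` (`tot_log`); a `χ ∉ Xr` has a `q ≤ bb m` with
`‖χ q + 1‖² > ρ^(1/2)`; so the weight is `≤ (log m)^800 ρ^(-1/2) 4 ρ (2 + 2 log m) ≤ ρ^(1/3)` (`small` with `c = 1/6`).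
`base_scale`: `F m η y = λ(y)` for `1 ≤ y ≤ m/2` (`F_small`), `y ↦` the unit of `ZMod m` is injective on `cop m (m/2)`, `part_sum`:
`≤ φ(m) * weight ≤ ρ^(1/3) m`.
-/

set_option autoImplicit false

namespace Pool.Agent.H78.PH

open Finset
open Pool.Agent.H34PG (lam lam_val lam_mul lam_prime)
open Pool.Agent.H11.LQ Pool.Agent.H78.PG

private theorem hw_val {m : ℕ} [NeZero m] (hm : 2 ≤ m) (u : (ZMod m)ˣ) : ¬ m ∣ (u : ZMod m).val := by
  intro h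
  have h1 : (u : ZMod m).val < m := ZMod.val_lt _
  have h2 : (u : ZMod m).val = 0 := Nat.eq_zero_of_dvd_of_lt h h1
  have h3 : (u : ZMod m) = 0 := (ZMod.val_eq_zero _).mp h2
  have : Fact (1 < m) := ⟨by omega⟩
  exact u.ne_zero h3

private theorem hw_norm {m : ℕ} [NeZero m] (hm : 2 ≤ m) {η : ℤ} (hη : η = 1 ∨ η = -1)
    (u : (ZMod m)ˣ) : ‖FC m η (u : ZMod m)‖ = 1 := by
  unfold FC
  rcases F_val (m := m) hη (hw_val hm u) with h | h <;> rw [h] <;> simp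

private theorem hw_bound {m : ℕ} [NeZero m] (hm : 2 ≤ m) {η : ℤ} (hη : η = 1 ∨ η = -1) {q : ℕ}
    (hq : q.Prime) :
    ∑ u : (ZMod m)ˣ, ‖FC m η ((q : ZMod m) * u) + FC m η (u : ZMod m)‖ ^ 2
      ≤ 4 * ((Ex m η q).card : ℝ) := by
  classical
  have h1 : ∀ u : (ZMod m)ˣ, ‖FC m η ((q : ZMod m) * u) + FC m η (u : ZMod m)‖ ^ 2
      ≤ if (u : ZMod m).val ∈ Ex m η q then (4 : ℝ) else 0 := by
    intro u
    have e1 : FC m η ((q : ZMod m) * u) = ((F m η (q * (u : ZMod m).val) : ℤ) : ℂ) := by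
      rw [← FC_natCast]
      congr 1
      rw [Nat.cast_mul, ZMod.natCast_zmod_val]
    have e2 : FC m η (u : ZMod m) = ((F m η (u : ZMod m).val : ℤ) : ℂ) := rfl
    rw [e1, e2]
    split_ifs with h
    · have h3 : ‖((F m η (q * (u : ZMod m).val) : ℤ) : ℂ)‖ ≤ 1 := by
        by_cases h4 : m ∣ q * (u : ZMod m).val
        · rw [F_dvd h4]; simp
        · rcases F_val (m := m) hη h4 with h5 | h5 <;> rw [h5] <;> simp
      have h4 : ‖((F m η (u : ZMod m).val : ℤ) : ℂ)‖ = 1 := hw_norm hm hη u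
      have h5 := norm_add_le ((F m η (q * (u : ZMod m).val) : ℤ) : ℂ)
        ((F m η (u : ZMod m).val : ℤ) : ℂ)
      have h6 : ‖((F m η (q * (u : ZMod m).val) : ℤ) : ℂ) + ((F m η (u : ZMod m).val : ℤ) : ℂ)‖ ≤ 2 := by
        linarith
      nlinarith [norm_nonneg (((F m η (q * (u : ZMod m).val) : ℤ) : ℂ) +
        ((F m η (u : ZMod m).val : ℤ) : ℂ))]
    · have h3 : F m η (q * (u : ZMod m).val) = lam q * F m η (u : ZMod m).val := by
        by_contra hc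
        exact h (mem_Ex.mpr ⟨ZMod.val_lt _, hc⟩)
      rw [h3, lam_prime hq]
      simp
  refine (sum_le_sum fun u _ => h1 u).trans ?_
  rw [← sum_filter, sum_const, nsmul_eq_mul, mul_comm]
  refine mul_le_mul_of_nonneg_left ?_ (by norm_num)
  rw [Nat.cast_le]
  refine card_le_card_of_injOn (fun u : (ZMod m)ˣ => (u : ZMod m).val) ?_ ?_
  · intro u hu
    rw [mem_coe, mem_filter] at hu
    exact hu.2
  · intro u _ v _ huv
    exact Units.ext (ZMod.val_injective m huv)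

private theorem hw_L {m1 : ℕ} (m : ℕ) (ρ : ℝ) (C : ℕ)
    (hs : ∀ m : ℕ, m1 ≤ m → ∀ ρ : ℝ, Rho C m ρ → 16 * (1 + Real.log m) ^ 801 * ρ ^ (1 / 6 : ℝ) ≤ 1)
    (hm : m1 ≤ m) (hρ : Rho C m ρ) :
    ∃ L : ℝ, 1 ≤ L ∧ ((bb m : ℕ) : ℝ) ≤ L ∧ 16 * (L * (1 + Real.log m)) * ρ ^ (1 / 6 : ℝ) ≤ 1 := by
  have hlog : 0 ≤ Real.log m := Real.log_natCast_nonneg m
  have h1 : (1 : ℝ) ≤ 1 + Real.log m := le_add_of_nonneg_right hlog
  have h2 : Real.log m ≤ 1 + Real.log m := le_add_of_nonneg_left zero_le_one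
  refine ⟨(1 + Real.log m) ^ 800, one_le_pow₀ h1, ?_, ?_⟩
  · exact (Nat.floor_le (pow_nonneg hlog 800)).trans (pow_le_pow_left₀ hlog h2 800)
  · have h3 := hs m hm ρ hρ
    rwa [pow_succ (1 + Real.log m) 800] at h3

private theorem hw_alg1 (L t r s : ℝ) : (2 * L) * (r * (8 * t * s)) = 16 * (L * t) * (r * s) := by
  ring

private theorem hw_alg2 (L a b : ℝ) : 16 * L * (a * b) = a * (16 * L * b) := by
  ring

open Classical in
theorem weight2 : ∃ C : ℕ, ∃ m0 : ℕ, ∀ (m : ℕ) [NeZero m], m0 ≤ m → ∀ ρ : ℝ, Rho C m ρ →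
    ∀ η : ℤ, Hyp2 ρ m η →
      ∑ χ ∈ univ.filter (fun χ => χ ∉ Xr ρ m), ‖cc m (FC m η) χ‖ ^ 2 ≤ ρ ^ (1 / 3 : ℝ) := by
  obtain ⟨C, m1, hs⟩ := small 16 801 (1 / 6) (by norm_num)
  refine ⟨C, m1 + 3, fun m _ hm ρ hρ η hH => ?_⟩
  obtain ⟨hη, hEx⟩ := hH
  have hρ0 : 0 < ρ := hρ.1
  have hmm : 2 ≤ m := by omega
  have hlog : 0 ≤ Real.log m := Real.log_natCast_nonneg m
  obtain ⟨L, hL1, hLbb, hsm⟩ := hw_L m ρ C hs (by omega) hρ
  have hφ : 0 < (m.totient : ℝ) := by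
    have h2 : 0 < m.totient := Nat.totient_pos.mpr (by omega)
    exact_mod_cast h2
  have hT := tot_log m (by omega)
  -- the bound for one prime
  have hq : ∀ q ∈ pq m (bb m), ∑ χ : DirichletCharacter ℂ m,
      ‖cc m (FC m η) χ‖ ^ 2 * ‖χ (q : ZMod m) + 1‖ ^ 2 ≤ 8 * (1 + Real.log m) * ρ := by
    intro q hq
    rw [mem_pq] at hq
    obtain ⟨hq1, hq2, hq3⟩ := hq
    have hu : IsUnit (q : ZMod m) := by
      rw [ZMod.isUnit_iff_coprime]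
      exact (Nat.Prime.coprime_iff_not_dvd hq2).mpr hq3
    rw [twist m (FC m η) (q : ZMod m) hu]
    have h3 := hw_bound hmm hη (q := q) hq2
    have h5 := hEx q hq2 hq1
    rw [one_div, inv_mul_le_iff₀ hφ]
    calc ∑ u : (ZMod m)ˣ, ‖FC m η ((q : ZMod m) * u) + FC m η (u : ZMod m)‖ ^ 2
        ≤ 4 * (ρ * m) := h3.trans (by linarith)
      _ ≤ 4 * (ρ * ((2 + 2 * Real.log m) * m.totient)) := by
          have := mul_le_mul_of_nonneg_left hT hρ0.le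
          linarith
      _ = m.totient * (8 * (1 + Real.log m) * ρ) := by ring
  -- comparison
  have hc : ∀ χ ∈ univ.filter (fun χ : DirichletCharacter ℂ m => χ ∉ Xr ρ m),
      ‖cc m (FC m η) χ‖ ^ 2 ≤ ∑ q ∈ pq m (bb m), ρ ^ (-(1 / 2) : ℝ) *
        (‖cc m (FC m η) χ‖ ^ 2 * ‖χ (q : ZMod m) + 1‖ ^ 2) := by
    intro χ hχ
    rw [mem_filter] at hχ
    have h3 := hχ.2
    rw [mem_Xr] at h3
    push Not at h3
    obtain ⟨q, hq1, hq2, hq3, hq4⟩ := h3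
    have h5 : q ∈ pq m (bb m) := mem_pq.mpr ⟨hq2, hq1, hq3⟩
    have h6 : ‖cc m (FC m η) χ‖ ^ 2 ≤ ρ ^ (-(1 / 2) : ℝ) *
        (‖cc m (FC m η) χ‖ ^ 2 * ‖χ (q : ZMod m) + 1‖ ^ 2) := by
      have h7 : ρ ^ (1 / 2 : ℝ) ≤ ‖χ (q : ZMod m) + 1‖ ^ 2 := by
        have e1 : ρ ^ (1 / 2 : ℝ) = (ρ ^ (1 / 4 : ℝ)) ^ 2 := by
          rw [← Real.rpow_natCast, ← Real.rpow_mul hρ0.le]
          congr 1
          push_cast
          norm_num
        rw [e1]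
        exact pow_le_pow_left₀ (by positivity) hq4.le 2
      have h8 : ρ ^ (-(1 / 2) : ℝ) * ρ ^ (1 / 2 : ℝ) = 1 := by
        rw [← Real.rpow_add hρ0, neg_add_cancel, Real.rpow_zero]
      calc ‖cc m (FC m η) χ‖ ^ 2
          = ‖cc m (FC m η) χ‖ ^ 2 * (ρ ^ (-(1 / 2) : ℝ) * ρ ^ (1 / 2 : ℝ)) := by
            rw [h8, mul_one]
        _ = ρ ^ (-(1 / 2) : ℝ) * (‖cc m (FC m η) χ‖ ^ 2 * ρ ^ (1 / 2 : ℝ)) := by ring
        _ ≤ _ := by
            refine mul_le_mul_of_nonneg_left ?_ (by positivity)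
            exact mul_le_mul_of_nonneg_left h7 (by positivity)
    refine h6.trans ?_
    exact single_le_sum (f := fun q : ℕ => ρ ^ (-(1 / 2) : ℝ) *
        (‖cc m (FC m η) χ‖ ^ 2 * ‖χ (q : ZMod m) + 1‖ ^ 2)) (fun _ _ => by positivity) h5
  have hsum : ∑ χ ∈ univ.filter (fun χ : DirichletCharacter ℂ m => χ ∉ Xr ρ m),
      ‖cc m (FC m η) χ‖ ^ 2 ≤ ∑ q ∈ pq m (bb m), ρ ^ (-(1 / 2) : ℝ) *
        (8 * (1 + Real.log m) * ρ) := by
    refine (sum_le_sum hc).trans ?_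
    rw [sum_comm]
    refine sum_le_sum fun q hq' => ?_
    rw [← mul_sum]
    refine mul_le_mul_of_nonneg_left ?_ (by positivity)
    refine le_trans ?_ (hq q hq')
    exact sum_le_sum_of_subset_of_nonneg (filter_subset _ _) fun _ _ _ => by positivity
  refine hsum.trans ?_
  rw [sum_const, nsmul_eq_mul]
  have hcard : ((pq m (bb m)).card : ℝ) ≤ 2 * L := by
    have h3 : (pq m (bb m)).card ≤ bb m + 1 := by
      unfold pq
      exact (card_filter_le _ _).trans (by rw [card_range])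
    have h4 : ((pq m (bb m)).card : ℝ) ≤ ((bb m : ℕ) : ℝ) + 1 := by exact_mod_cast h3
    linarith
  have e1 : ρ ^ (-(1 / 2) : ℝ) * ρ = ρ ^ (1 / 3 : ℝ) * ρ ^ (1 / 6 : ℝ) := by
    rw [← Real.rpow_add hρ0]
    nth_rewrite 2 [← Real.rpow_one ρ]
    rw [← Real.rpow_add hρ0]
    congr 1
    norm_num
  have hT0 : (0 : ℝ) ≤ 1 + Real.log m := by linarith
  calc ((pq m (bb m)).card : ℝ) * (ρ ^ (-(1 / 2) : ℝ) * (8 * (1 + Real.log m) * ρ))
      ≤ (2 * L) * (ρ ^ (-(1 / 2) : ℝ) * (8 * (1 + Real.log m) * ρ)) :=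
        mul_le_mul_of_nonneg_right hcard
          (mul_nonneg (Real.rpow_nonneg hρ0.le _) (mul_nonneg (mul_nonneg (by norm_num) hT0) hρ0.le))
    _ = 16 * (L * (1 + Real.log m)) * (ρ ^ (-(1 / 2) : ℝ) * ρ) := hw_alg1 _ _ _ _
    _ = ρ ^ (1 / 3 : ℝ) * (16 * (L * (1 + Real.log m)) * ρ ^ (1 / 6 : ℝ)) := by
        rw [e1]
        exact hw_alg2 _ _ _
    _ ≤ ρ ^ (1 / 3 : ℝ) * 1 :=
        mul_le_mul_of_nonneg_left hsm (Real.rpow_nonneg hρ0.le _)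
    _ = ρ ^ (1 / 3 : ℝ) := mul_one _

/-- sums over numbers prime to `m` and sums over the unit group -/
private theorem hw_units (m : ℕ) [NeZero m] (g : ZMod m → ℝ) (hg : ∀ z, 0 ≤ g z) :
    ∑ y ∈ cop m (m / 2), g (y : ZMod m) ≤ ∑ u : (ZMod m)ˣ, g (u : ZMod m) := by
  classical
  let f : ℕ → (ZMod m)ˣ := fun y => if h : y.Coprime m then ZMod.unitOfCoprime y h else 1
  have hf : ∀ y ∈ cop m (m / 2), ((f y : (ZMod m)ˣ) : ZMod m) = (y : ZMod m) := by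
    intro y hy
    have h := (mem_cop.mp hy).2.2
    simp only [f, dif_pos h, ZMod.coe_unitOfCoprime]
  have e1 : ∑ y ∈ cop m (m / 2), g (y : ZMod m) = ∑ u ∈ (cop m (m / 2)).image f, g (u : ZMod m) := by
    rw [sum_image]
    · exact sum_congr rfl fun y hy => by rw [hf y hy]
    · intro a ha b hb hab
      have ha1 := mem_cop.mp (mem_coe.mp ha)
      have hb1 := mem_cop.mp (mem_coe.mp hb)
      have h1 : (a : ZMod m) = (b : ZMod m) := by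
        rw [← hf a (mem_coe.mp ha), ← hf b (mem_coe.mp hb), hab]
      rw [ZMod.natCast_eq_natCast_iff'] at h1
      rwa [Nat.mod_eq_of_lt (by omega), Nat.mod_eq_of_lt (by omega)] at h1
  rw [e1]
  exact sum_le_sum_of_subset_of_nonneg (subset_univ _) fun _ _ _ => hg _

open Classical in
/-- mean square distance of `λ` and a part of the Fourier sum on `[1, m/2]` -/
theorem half_le (m : ℕ) [NeZero m] (hm : 2 ≤ m) (η : ℤ) (X : Finset (DirichletCharacter ℂ m)) :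
    ∑ y ∈ cop m (m / 2), ‖((lam y : ℤ) : ℂ) - ∑ χ ∈ X, cc m (FC m η) χ * χ (y : ZMod m)‖ ^ 2
      ≤ m * ∑ χ ∈ univ.filter (fun χ => χ ∉ X), ‖cc m (FC m η) χ‖ ^ 2 := by
  have g1 := hw_units m
    (fun z => ‖FC m η z - ∑ χ ∈ X, cc m (FC m η) χ * χ z‖ ^ 2) (fun z => by positivity)
  have g2 := part_sum m (FC m η) X
  have g3 : (m.totient : ℝ) ≤ m := by exact_mod_cast Nat.totient_le m
  have g4 : ∑ y ∈ cop m (m / 2), ‖((lam y : ℤ) : ℂ) - ∑ χ ∈ X, cc m (FC m η) χ * χ (y : ZMod m)‖ ^ 2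
      = ∑ y ∈ cop m (m / 2), ‖FC m η (y : ZMod m) - ∑ χ ∈ X, cc m (FC m η) χ * χ (y : ZMod m)‖ ^ 2 := by
    refine sum_congr rfl fun y hy => ?_
    obtain ⟨hy1, hy2, _⟩ := mem_cop.mp hy
    rw [FC_natCast, F_small (by omega) (by omega)]
  rw [g4]
  refine g1.trans ?_
  rw [g2]
  exact mul_le_mul_of_nonneg_right g3 (sum_nonneg fun _ _ => by positivity)

theorem base_scale : ∃ C : ℕ, ∃ m0 : ℕ, ∀ (m : ℕ) [NeZero m], m0 ≤ m → ∀ ρ : ℝ, Rho C m ρ →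
    ∀ η : ℤ, Hyp2 ρ m η → D0 ρ m η (m / 2) ≤ ρ ^ (1 / 3 : ℝ) * m := by
  classical
  obtain ⟨C, m1, h⟩ := weight2
  refine ⟨C, m1 + 2, fun m _ hm ρ hρ η hH => ?_⟩
  have h1 := h m (by omega) ρ hρ η hH
  have h2 := half_le m (by omega) η (Xr ρ m)
  unfold D0 Gr
  refine h2.trans ?_
  rw [mul_comm]
  refine mul_le_mul_of_nonneg_right ?_ (Nat.cast_nonneg m)
  convert h1 using 2

end Pool.Agent.H78.PH
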