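import Pool.Agent.H78.PH.HNum
import Pool.Agent.H78.PH.HCnt
import Pool.Agent.H78.PG.TFour

/-!
# LQ / PG stage 2, HXc: the number of characters in `Xr`

`B = bb m`, `r = ⌊log m / log B⌋` (so `B^r ≤ m < B^(r+1)`; `r ≥ 1`, `r ≤ log m`), `T = pq m B`, `S = SP T r`: elements in `[1, m]`, prime to `m`.
`ortho_sum`: `∑_χ ‖∑_S χ s‖² = φ(m) #S ≤ m #S`.  For `χ ∈ Xr`: `‖χ s - (-1)^r‖ ≤ r ρ^(1/4) ≤ 1/2` (`small`; all factors have
norm `≤ 1`), so `‖∑_S χ s‖ ≥ #S/2` and `#Xr #S ≤ 4 m`.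
`#T ≥ B/(4 log m)` (`pq_card`), `#S ≥ (#T/r)^r` (`SP_card`), `#T/r ≥ B/(4 (log m)²) ≥ B/(log m)³`, so
`#S ≥ B^r (log m)^(-3r) ≥ (m/B) (log m)^(-3r)`, and `(log m)^(3r) ≤ exp(3 log log m * log m/log B) ≤ m^(3/799)` for large `m`
(`log B ≥ 799 log log m`), `4 B ≤ m^(1/1000)`.  So `#Xr ≤ 4 B m^(3/799) ≤ m^(1/200)`.
-/

set_option autoImplicit false

namespace Pool.Agent.H78.PH

open Finset
open Pool.Agent.H34PG (lam lam_val lam_mul lam_prime)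
open Pool.Agent.H11.LQ Pool.Agent.H78.PG

/-- numerics for `bb` -/
theorem hxc_bb : ∃ m0 : ℕ, ∀ m : ℕ, m0 ≤ m → 16 ≤ Real.log m ∧
    799 * Real.log (Real.log m) ≤ Real.log (bb m) ∧ Real.log m ^ 3 ≤ (bb m : ℝ) ∧
    4 * (bb m : ℝ) ≤ (m : ℝ) ^ (1 / 1000 : ℝ) := by
  obtain ⟨n1, h1⟩ := grow 4 800 (1 / 1000) (by norm_num)
  refine ⟨n1 + ⌈Real.exp 16⌉₊, fun m hm => ?_⟩
  have h1 := h1 m (by omega)
  have hm1 : Real.exp 16 ≤ (m : ℝ) :=
    (Nat.le_ceil _).trans (by exact_mod_cast (show ⌈Real.exp 16⌉₊ ≤ m by omega))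
  have hm0 : (0 : ℝ) < m := (Real.exp_pos _).trans_le hm1
  have hL : 16 ≤ Real.log m := (Real.le_log_iff_exp_le hm0).mpr hm1
  have hL0 : 0 ≤ Real.log m := le_trans (by norm_num) hL
  have hL1 : 1 ≤ Real.log m := le_trans (by norm_num) hL
  have hpos : 0 < Real.log m := lt_of_lt_of_le (by norm_num) hL
  have ha1 : (1 : ℝ) ≤ Real.log m ^ 799 := one_le_pow₀ hL1
  have ha2 : Real.log m ^ 800 = Real.log m ^ 799 * Real.log m := pow_succ _ _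
  have hfl : Real.log m ^ 800 < (bb m : ℝ) + 1 := by
    unfold bb
    exact Nat.lt_floor_add_one _
  have hfu : (bb m : ℝ) ≤ Real.log m ^ 800 := by
    unfold bb
    exact Nat.floor_le (pow_nonneg hL0 _)
  have hb : Real.log m ^ 799 ≤ (bb m : ℝ) := by
    rw [ha2] at hfl
    clear h1 ha2 hfu
    generalize Real.log m ^ 799 = a at *
    nlinarith
  refine ⟨hL, ?_, ?_, ?_⟩
  · have h2 := Real.log_le_log (pow_pos hpos 799) hb
    rw [Real.log_pow] at h2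
    exact_mod_cast h2
  · exact (pow_le_pow_right₀ hL1 (by norm_num)).trans hb
  · have h3 : Real.log m ^ 800 ≤ (1 + Real.log m) ^ 800 :=
      pow_le_pow_left₀ hL0 (le_add_of_nonneg_left zero_le_one) 800
    exact (mul_le_mul_of_nonneg_left (hfu.trans h3) (by norm_num)).trans h1

/-- the supply: a set of many products of `r` primes `≤ bb m` -/
theorem supply : ∃ m0 : ℕ, ∀ m : ℕ, m0 ≤ m → ∃ r : ℕ, 1 ≤ r ∧ (r : ℝ) ≤ Real.log m ∧
    bb m ^ r ≤ m ∧ (m : ℝ) ^ (1 - 1 / 200 : ℝ) * 4 ≤ ((SP (pq m (bb m)) r).card : ℝ) := by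
  obtain ⟨n1, H1⟩ := pq_card
  obtain ⟨n2, H2⟩ := hxc_bb
  refine ⟨n1 + n2 + 3, fun m hm => ?_⟩
  have H1 := H1 m (by omega)
  obtain ⟨hL, hlB, hB3, hB4⟩ := H2 m (by omega)
  have hm1 : (1 : ℝ) ≤ (m : ℝ) := by exact_mod_cast (show 1 ≤ m by omega)
  have hm0 : (0 : ℝ) < (m : ℝ) := by linarith
  have hmm : (m : ℝ) ^ (1 / 1000 : ℝ) ≤ m := by
    calc (m : ℝ) ^ (1 / 1000 : ℝ) ≤ (m : ℝ) ^ (1 : ℝ) :=
          Real.rpow_le_rpow_of_exponent_le hm1 (by norm_num)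
      _ = m := Real.rpow_one _
  have hBm : bb m ≤ m := by
    have h : (bb m : ℝ) ≤ m := by
      have h0 : (0 : ℝ) ≤ bb m := Nat.cast_nonneg _
      linarith
    exact_mod_cast h
  have H1 := H1 (bb m) hB3 hBm
  obtain ⟨B, hBdef⟩ : ∃ B, B = bb m := ⟨_, rfl⟩
  obtain ⟨T, hT⟩ : ∃ T, T = pq m B := ⟨_, rfl⟩
  rw [← hBdef] at hlB hB3 hB4 hBm H1
  rw [← hBdef, ← hT]
  rw [← hT] at H1
  have hTp : ∀ p ∈ T, p.Prime := fun p hp => by
    rw [hT, mem_pq] at hp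
    exact hp.2.1
  obtain ⟨L, hLdef⟩ : ∃ L, L = Real.log m := ⟨_, rfl⟩
  rw [← hLdef] at hL hlB hB3 H1 ⊢
  have hB1 : (1 : ℝ) < B := by nlinarith [sq_nonneg L, mul_pos (show (0:ℝ) < L by linarith) (show (0:ℝ) < L by linarith)]
  have hB1' : 1 < B := by exact_mod_cast hB1
  have hlogL : 1 ≤ Real.log L := by
    rw [Real.le_log_iff_exp_le (by linarith)]
    linarith [Real.exp_one_lt_d9]
  have hr1 : 1 ≤ Nat.log B m := Nat.log_pos hB1' hBm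
  have hrle : B ^ Nat.log B m ≤ m := Nat.pow_log_le_self B (by omega)
  have hrlt : m < B ^ (Nat.log B m + 1) := Nat.lt_pow_succ_log_self hB1' m
  obtain ⟨r, hr⟩ : ∃ r, r = Nat.log B m := ⟨_, rfl⟩
  rw [← hr] at hr1 hrle hrlt
  have hrlog : (r : ℝ) * Real.log B ≤ L := by
    have h1 : ((B : ℝ)) ^ r ≤ m := by exact_mod_cast hrle
    have h2 := Real.log_le_log (pow_pos (by linarith) r) h1
    rw [Real.log_pow] at h2
    rw [hLdef]
    exact h2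
  have hr0 : (1 : ℝ) ≤ r := by exact_mod_cast hr1
  have hr799 : (r : ℝ) * (799 * Real.log L) ≤ L :=
    (mul_le_mul_of_nonneg_left hlB (by linarith)).trans hrlog
  have hrL : (r : ℝ) ≤ L := by
    have h1 : (r : ℝ) * 1 ≤ (r : ℝ) * (799 * Real.log L) :=
      mul_le_mul_of_nonneg_left (by linarith) (by linarith)
    linarith
  have hTr : (B : ℝ) / (4 * L ^ 2) ≤ (T.card : ℝ) / r := by
    rw [div_le_div_iff₀ (by positivity) (by linarith)]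
    have h1 : (B : ℝ) / (4 * L) * (4 * L) = B := by field_simp
    have h2 : (B : ℝ) ≤ T.card * (4 * L) := by
      rw [← h1]
      exact mul_le_mul_of_nonneg_right H1 (by linarith)
    calc (B : ℝ) * r ≤ (T.card * (4 * L)) * L :=
          mul_le_mul h2 hrL (by linarith) (by positivity)
      _ = T.card * (4 * L ^ 2) := by ring
  have hrT : r ≤ T.card := by
    have h1 : (r : ℝ) ≤ T.card := by
      refine hrL.trans (le_trans ?_ H1)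
      rw [le_div_iff₀ (by linarith)]
      nlinarith
    exact_mod_cast h1
  have hS := SP_card hTp hr1 hrT
  refine ⟨r, hr1, hrL, hrle, le_trans ?_ hS⟩
  have h5 : ((B : ℝ) / L ^ 3) ^ r ≤ ((T.card : ℝ) / r) ^ r := by
    refine pow_le_pow_left₀ (by positivity) (le_trans ?_ hTr) r
    refine div_le_div_of_nonneg_left (by linarith) (by positivity) ?_
    nlinarith [sq_nonneg L]
  refine le_trans ?_ h5
  rw [div_pow, le_div_iff₀ (by positivity)]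
  have h6 : (L ^ 3) ^ r ≤ (m : ℝ) ^ (3 / 799 : ℝ) := by
    have hL0 : 0 < L := by linarith
    have h7 : (L ^ 3) ^ r = Real.exp (3 * r * Real.log L) := by
      rw [← pow_mul, ← Real.rpow_natCast, Real.rpow_def_of_pos hL0]
      congr 1
      push_cast
      ring
    rw [h7, Real.rpow_def_of_pos hm0, ← hLdef]
    refine Real.exp_le_exp.mpr ?_
    nlinarith
  have h8 : (m : ℝ) ≤ (B : ℝ) * B ^ r := by
    have : m ≤ B * B ^ r := by
      rw [pow_succ, mul_comm] at hrlt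
      exact hrlt.le
    exact_mod_cast this
  have h9 : (m : ℝ) ^ (1 - 1 / 200 : ℝ) * 4 * (m : ℝ) ^ (3 / 799 : ℝ) * B ≤ (B : ℝ) ^ r * B := by
    have h10 : (m : ℝ) ^ (1 - 1 / 200 : ℝ) * (m : ℝ) ^ (3 / 799 : ℝ) * (m : ℝ) ^ (1 / 1000 : ℝ)
        ≤ m := by
      rw [← Real.rpow_add hm0, ← Real.rpow_add hm0]
      calc (m : ℝ) ^ (1 - 1 / 200 + 3 / 799 + 1 / 1000 : ℝ) ≤ (m : ℝ) ^ (1 : ℝ) :=
            Real.rpow_le_rpow_of_exponent_le hm1 (by norm_num)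
        _ = m := Real.rpow_one _
    calc (m : ℝ) ^ (1 - 1 / 200 : ℝ) * 4 * (m : ℝ) ^ (3 / 799 : ℝ) * B
        = (m : ℝ) ^ (1 - 1 / 200 : ℝ) * (m : ℝ) ^ (3 / 799 : ℝ) * (4 * B) := by ring
      _ ≤ (m : ℝ) ^ (1 - 1 / 200 : ℝ) * (m : ℝ) ^ (3 / 799 : ℝ) * (m : ℝ) ^ (1 / 1000 : ℝ) :=
          mul_le_mul_of_nonneg_left hB4 (by positivity)
      _ ≤ m := h10
      _ ≤ (B : ℝ) * B ^ r := h8
      _ = (B : ℝ) ^ r * B := mul_comm _ _
  have h11 : (m : ℝ) ^ (1 - 1 / 200 : ℝ) * 4 * (m : ℝ) ^ (3 / 799 : ℝ) ≤ (B : ℝ) ^ r :=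
    le_of_mul_le_mul_right h9 (by linarith)
  exact (mul_le_mul_of_nonneg_left h6 (by positivity)).trans h11

/-- products of elements close to `-1` -/
theorem hxc_prod (A : Finset ℕ) (f : ℕ → ℂ) (t : ℝ) (h : ∀ p ∈ A, ‖f p + 1‖ ≤ t)
    (h1 : ∀ p ∈ A, ‖f p‖ ≤ 1) :
    ‖∏ p ∈ A, f p - (-1) ^ A.card‖ ≤ A.card * t := by
  induction A using Finset.induction_on with
  | empty => simp
  | insert a A ha ih =>
    rw [prod_insert ha, card_insert_of_notMem ha]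
    have e1 : f a * ∏ p ∈ A, f p - (-1) ^ (A.card + 1)
        = f a * (∏ p ∈ A, f p - (-1) ^ A.card) + (-1) ^ A.card * (f a + 1) := by
      rw [pow_succ]
      ring
    rw [e1]
    have e2 := ih (fun p hp => h p (mem_insert_of_mem hp)) (fun p hp => h1 p (mem_insert_of_mem hp))
    calc ‖f a * (∏ p ∈ A, f p - (-1) ^ A.card) + (-1) ^ A.card * (f a + 1)‖
        ≤ ‖f a * (∏ p ∈ A, f p - (-1) ^ A.card)‖ + ‖(-1) ^ A.card * (f a + 1)‖ := norm_add_le _ _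
      _ ≤ A.card * t + t := by
          rw [norm_mul, norm_mul, norm_pow, norm_neg, norm_one, one_pow, one_mul]
          refine add_le_add ?_ (h a (mem_insert_self _ _))
          calc ‖f a‖ * ‖∏ p ∈ A, f p - (-1) ^ A.card‖
              ≤ 1 * ‖∏ p ∈ A, f p - (-1) ^ A.card‖ :=
                mul_le_mul_of_nonneg_right (h1 a (mem_insert_self _ _)) (norm_nonneg _)
            _ ≤ A.card * t := by rw [one_mul]; exact e2
      _ = ((A.card + 1 : ℕ) : ℝ) * t := by push_cast; ring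

/-- a lower bound for the character sums over `SP` -/
theorem hxc_low (m : ℕ) [NeZero m] (ρ : ℝ) (r : ℕ) (hr : (r : ℝ) * ρ ^ (1 / 4 : ℝ) ≤ 1 / 2)
    (χ : DirichletCharacter ℂ m) (hχ : χ ∈ Xr ρ m) :
    ((SP (pq m (bb m)) r).card : ℝ) / 2 ≤ ‖∑ s ∈ SP (pq m (bb m)) r, χ (s : ZMod m)‖ := by
  obtain ⟨S, hS⟩ : ∃ S, S = SP (pq m (bb m)) r := ⟨_, rfl⟩
  rw [← hS]
  have h0 : ∀ s ∈ S, ‖χ (s : ZMod m) - (-1) ^ r‖ ≤ 1 / 2 := by
    intro s hs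
    rw [hS, SP, mem_image] at hs
    obtain ⟨A, hA, rfl⟩ := hs
    rw [mem_powersetCard] at hA
    have e1 : χ ((∏ p ∈ A, p : ℕ) : ZMod m) = ∏ p ∈ A, χ (p : ZMod m) := by
      rw [Nat.cast_prod, map_prod]
    rw [e1]
    have e2 := hxc_prod A (fun p => χ (p : ZMod m)) (ρ ^ (1 / 4 : ℝ)) (fun p hp => by
      have hp' := hA.1 hp
      rw [mem_pq] at hp'
      exact mem_Xr.mp hχ p hp'.2.1 hp'.1 hp'.2.2) (fun p _ => DirichletCharacter.norm_le_one χ _)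
    rw [hA.2] at e2
    exact e2.trans hr
  have h1 : ‖∑ s ∈ S, (χ (s : ZMod m) - (-1) ^ r)‖ ≤ (S.card : ℝ) * (1 / 2) := by
    calc ‖∑ s ∈ S, (χ (s : ZMod m) - (-1) ^ r)‖
        ≤ ∑ s ∈ S, ‖χ (s : ZMod m) - (-1) ^ r‖ := norm_sum_le _ _
      _ ≤ ∑ _s ∈ S, (1 / 2 : ℝ) := Finset.sum_le_sum h0
      _ = (S.card : ℝ) * (1 / 2) := by rw [sum_const, nsmul_eq_mul]
  have h2 : ‖∑ _s ∈ S, ((-1 : ℂ) ^ r)‖ = (S.card : ℝ) := by
    rw [sum_const, nsmul_eq_mul, norm_mul, norm_pow, norm_neg, norm_one, one_pow, mul_one,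
      Complex.norm_natCast]
  have h3 : ∑ _s ∈ S, ((-1 : ℂ) ^ r)
      = ∑ s ∈ S, χ (s : ZMod m) - ∑ s ∈ S, (χ (s : ZMod m) - (-1) ^ r) := by
    rw [← sum_sub_distrib]
    exact sum_congr rfl fun s _ => by ring
  have h4 := norm_sub_le (∑ s ∈ S, χ (s : ZMod m)) (∑ s ∈ S, (χ (s : ZMod m) - (-1) ^ r))
  rw [← h3, h2] at h4
  linarith

theorem Xr_card : ∃ C : ℕ, ∃ m0 : ℕ, ∀ (m : ℕ) [NeZero m], m0 ≤ m → ∀ ρ : ℝ, Rho C m ρ →
    ((Xr ρ m).card : ℝ) ≤ (m : ℝ) ^ (1 / 200 : ℝ) := by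
  obtain ⟨n1, H1⟩ := supply
  obtain ⟨C2, n2, H2⟩ := small 2 1 (1 / 4) (by norm_num)
  refine ⟨C2, n1 + n2 + 3, fun m _ hm ρ hρ => ?_⟩
  obtain ⟨r, hr1, hrL, hrm, hS⟩ := H1 m (by omega)
  have h2 := H2 m (by omega) ρ hρ
  have hρ0 := hρ.1
  rw [pow_one] at h2
  have hr : (r : ℝ) * ρ ^ (1 / 4 : ℝ) ≤ 1 / 2 := by
    have h3 : 0 ≤ ρ ^ (1 / 4 : ℝ) := Real.rpow_nonneg hρ0.le _
    have h4 : (r : ℝ) * ρ ^ (1 / 4 : ℝ) ≤ (1 + Real.log m) * ρ ^ (1 / 4 : ℝ) :=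
      mul_le_mul_of_nonneg_right (by linarith) h3
    linarith
  obtain ⟨T, hT⟩ : ∃ T : ℝ, T = ((SP (pq m (bb m)) r).card : ℝ) := ⟨_, rfl⟩
  rw [← hT] at hS
  have hm1 : (1 : ℝ) ≤ (m : ℝ) := by exact_mod_cast (show 1 ≤ m by omega)
  have hmpos : (0 : ℝ) < m := by linarith
  have hTpos : 0 < T := lt_of_lt_of_le (by positivity) hS
  have e1 := ortho_sum m (SP (pq m (bb m)) r) fun s hs => by
    rw [SP, mem_image] at hs
    obtain ⟨A, hA, rfl⟩ := hs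
    rw [mem_powersetCard] at hA
    have hp : ∀ p ∈ A, p ≤ bb m ∧ p.Prime ∧ ¬ p ∣ m := fun p hp => by
      have := hA.1 hp
      rwa [mem_pq] at this
    refine ⟨?_, ?_, ?_⟩
    · exact Nat.Coprime.prod_left fun p hp' =>
        (Nat.Prime.coprime_iff_not_dvd (hp p hp').2.1).mpr (hp p hp').2.2
    · exact Nat.pos_of_ne_zero (prod_ne_zero_iff.mpr fun p hp' => (hp p hp').2.1.ne_zero)
    · refine le_trans ?_ hrm
      rw [← hA.2]
      exact prod_le_pow_card _ _ _ fun p hp' => (hp p hp').1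
  rw [← hT] at e1
  have e2 : ((Xr ρ m).card : ℝ) * (T / 2) ^ 2 ≤ (m.totient : ℝ) * T := by
    rw [← e1]
    calc ((Xr ρ m).card : ℝ) * (T / 2) ^ 2 = ∑ _χ ∈ Xr ρ m, (T / 2) ^ 2 := by
          rw [sum_const, nsmul_eq_mul]
      _ ≤ ∑ χ ∈ Xr ρ m, ‖∑ s ∈ SP (pq m (bb m)) r, χ (s : ZMod m)‖ ^ 2 := by
          refine Finset.sum_le_sum fun χ hχ => pow_le_pow_left₀ (by positivity) ?_ 2
          rw [hT]
          exact hxc_low m ρ r hr χ hχ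
      _ ≤ ∑ χ : DirichletCharacter ℂ m, ‖∑ s ∈ SP (pq m (bb m)) r, χ (s : ZMod m)‖ ^ 2 :=
          Finset.sum_le_univ_sum_of_nonneg fun χ => by positivity
  have e3 : (m.totient : ℝ) * T ≤ m * T :=
    mul_le_mul_of_nonneg_right (by exact_mod_cast Nat.totient_le m) hTpos.le
  have e4 : ((Xr ρ m).card : ℝ) * T ≤ 4 * m := by
    have : ((Xr ρ m).card : ℝ) * T * T ≤ 4 * m * T := by nlinarith [e2, e3]
    exact le_of_mul_le_mul_right this hTpos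
  have e5 : ((Xr ρ m).card : ℝ) * ((m : ℝ) ^ (1 - 1 / 200 : ℝ) * 4) ≤ 4 * m :=
    (mul_le_mul_of_nonneg_left hS (Nat.cast_nonneg _)).trans e4
  have e6 : (m : ℝ) = (m : ℝ) ^ (1 / 200 : ℝ) * (m : ℝ) ^ (1 - 1 / 200 : ℝ) := by
    rw [← Real.rpow_add hmpos]
    norm_num
  have e7 : 0 < (m : ℝ) ^ (1 - 1 / 200 : ℝ) := Real.rpow_pos_of_pos hmpos _
  have e8 : ((Xr ρ m).card : ℝ) * (m : ℝ) ^ (1 - 1 / 200 : ℝ)
      ≤ (m : ℝ) ^ (1 / 200 : ℝ) * (m : ℝ) ^ (1 - 1 / 200 : ℝ) := by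
    rw [← e6]
    linarith
  exact le_of_mul_le_mul_right e8 e7

end Pool.Agent.H78.PH
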