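import Pool.Agent.H78.PH.HStA
import Pool.Agent.H78.PH.HStB
import Pool.Agent.H78.PH.HXc
import Pool.Agent.H78.PH.HW

/-!
# LQ / PG stage 2, HStep: one step `√P → P` of the recursion for the averages `aa`

`Q = Nat.sqrt P`, `M = m / (2 P)` (so `2 P M ≤ m`, `2 Q² M ≤ m`, `M ≥ m/(4P) ≥ m^(51/100)/4` as `P ≤ yy m ≤ m^(49/100)`).
`A = #cop m M`, `X = #Xr KK m ≤ A/10` (`Xr_card`, `cop_big`), `E = D0(m/2) ≤ ρ^(1/3) m` (`base_scale`), `L = log m`.
`stepA`: `D0(M) ≤ 8 L² E/#pq(Q)² + 8.8 A aa(Q)` (`∑_{pq Q} Ww = #pq(Q) aa(Q)`).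
`stepB`: `0.9 A #pq(P) aa(P) ≤ 4 L E + 2 #pq(P) D0(M)`.
So `aa(P) ≤ (10/9) (4 L E/(A #pq P) + 16 L² E/(A #pq(Q)²)) + (10/9) 17.6 aa(Q) ≤ 20 aa(Q) + ...`; `#pq(P) ≥ P/(4L)`,
`#pq(Q) ≥ Q/(4L)`, `Q² ≥ P/4` (`pq_card`; `Q ≥ (log m)^399 ≥ (log m)^3` as `P > bb m`), `A ≥ M/(4+4L) ≥ m/(16 P (1+L))`: the error is
`≤ C (1+L)^6 ρ^(1/3)`.
-/

set_option autoImplicit false

namespace Pool.Agent.H78.PH

open Finset
open Pool.Agent.H34PG (lam lam_val lam_mul lam_prime)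
open Pool.Agent.H11.LQ Pool.Agent.H78.PG

private theorem hstep_num {L A D D0M nP nQ aP aQ p q m X r : ℝ} (hL : 2 ≤ L) (hp : 0 < p)
    (hm : 0 < m) (hq : p ≤ 4 * q ^ 2) (hq0 : 0 < q) (haP : 0 ≤ aP) (haQ : 0 ≤ aQ) (hr : 0 ≤ r)
    (hA : m / (16 * p * (1 + L)) ≤ A) (hX : X ≤ A / 10) (hD : D ≤ r * m)
    (hnP : p / (4 * L) ≤ nP) (hnQ : q / (4 * L) ≤ nQ)
    (hA1 : nQ ^ 2 * D0M ≤ 2 * (2 * L) ^ 2 * D + 8 * (A + X) * nQ * (nQ * aQ))
    (hB1 : (A - X) * (nP * aP) ≤ 2 * (2 * L) * D + 2 * nP * D0M) :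
    aP ≤ 20 * aQ + 20000 * (1 + L) ^ 6 * r := by
  have hL0 : 0 < L := by linarith
  have hA0 : 0 < A := lt_of_lt_of_le (by positivity) hA
  have hnP0 : 0 < nP := lt_of_lt_of_le (by positivity) hnP
  have hnQ0 : 0 < nQ := lt_of_lt_of_le (by positivity) hnQ
  -- bound of D0M
  have h1 : nQ ^ 2 * D0M ≤ 8 * L ^ 2 * D + nQ ^ 2 * (8.8 * A * aQ) := by
    have h2 : 8 * (A + X) * nQ * (nQ * aQ) ≤ nQ ^ 2 * (8.8 * A * aQ) := by
      have h3 : 0 ≤ nQ ^ 2 * aQ := by positivity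
      nlinarith [mul_le_mul_of_nonneg_right hX h3]
    nlinarith
  have h2 : D0M ≤ 8 * L ^ 2 * D / nQ ^ 2 + 8.8 * A * aQ := by
    have h3 : D0M ≤ (8 * L ^ 2 * D + nQ ^ 2 * (8.8 * A * aQ)) / nQ ^ 2 := by
      rw [le_div_iff₀ (by positivity)]
      linarith
    rw [add_div, mul_div_cancel_left₀ _ (by positivity)] at h3
    exact h3
  have h3 : 0.9 * A * (nP * aP) ≤ 4 * L * D + 2 * nP * D0M := by
    have h4 : 0 ≤ nP * aP := by positivity
    nlinarith [mul_le_mul_of_nonneg_right hX h4]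
  have h4 : 0.9 * (A * nP) * aP ≤ 4 * L * D + 16 * L ^ 2 * D * nP / nQ ^ 2 + 17.6 * (A * nP) * aQ := by
    have h5 : 2 * nP * D0M ≤ 2 * nP * (8 * L ^ 2 * D / nQ ^ 2 + 8.8 * A * aQ) :=
      mul_le_mul_of_nonneg_left h2 (by positivity)
    have h6 : 2 * nP * (8 * L ^ 2 * D / nQ ^ 2 + 8.8 * A * aQ)
        = 16 * L ^ 2 * D * nP / nQ ^ 2 + 17.6 * (A * nP) * aQ := by ring
    nlinarith
  -- the two error terms
  have hAp : m ≤ A * (16 * p * (1 + L)) := by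
    rwa [div_le_iff₀ (by positivity)] at hA
  have hnP' : p ≤ nP * (4 * L) := by rwa [div_le_iff₀ (by positivity)] at hnP
  have hnQ' : q ≤ nQ * (4 * L) := by rwa [div_le_iff₀ (by positivity)] at hnQ
  have hDA : D ≤ r * (A * (16 * p * (1 + L))) := hD.trans (mul_le_mul_of_nonneg_left hAp hr)
  have e1 : 4 * L * D ≤ (A * nP) * (256 * L ^ 2 * (1 + L) * r) := by
    have h5 : 4 * L * D ≤ 4 * L * (r * (A * (16 * p * (1 + L)))) :=
      mul_le_mul_of_nonneg_left hDA (by positivity)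
    have h6 : 4 * L * (r * (A * (16 * p * (1 + L)))) = (64 * L * r * A * (1 + L)) * p := by ring
    have h7 : (64 * L * r * A * (1 + L)) * p ≤ (64 * L * r * A * (1 + L)) * (nP * (4 * L)) :=
      mul_le_mul_of_nonneg_left hnP' (by positivity)
    have h8 : (64 * L * r * A * (1 + L)) * (nP * (4 * L))
        = (A * nP) * (256 * L ^ 2 * (1 + L) * r) := by ring
    linarith
  have e2 : 16 * L ^ 2 * D * nP / nQ ^ 2 ≤ (A * nP) * (16384 * L ^ 4 * (1 + L) * r) := by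
    rw [div_le_iff₀ (by positivity)]
    have h5 : p ≤ 4 * (nQ * (4 * L)) ^ 2 := by
      have : q ^ 2 ≤ (nQ * (4 * L)) ^ 2 := pow_le_pow_left₀ hq0.le hnQ' 2
      linarith
    have h6 : 16 * L ^ 2 * nP * D ≤ 16 * L ^ 2 * nP * (r * (A * (16 * p * (1 + L)))) :=
      mul_le_mul_of_nonneg_left hDA (by positivity)
    have h7 : 16 * L ^ 2 * nP * (r * (A * (16 * p * (1 + L))))
        = (256 * L ^ 2 * nP * r * A * (1 + L)) * p := by ring
    have h8 : (256 * L ^ 2 * nP * r * A * (1 + L)) * p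
        ≤ (256 * L ^ 2 * nP * r * A * (1 + L)) * (4 * (nQ * (4 * L)) ^ 2) :=
      mul_le_mul_of_nonneg_left h5 (by positivity)
    have h9 : (256 * L ^ 2 * nP * r * A * (1 + L)) * (4 * (nQ * (4 * L)) ^ 2)
        = (A * nP) * (16384 * L ^ 4 * (1 + L) * r) * nQ ^ 2 := by ring
    linarith
  have hAn : 0 < A * nP := by positivity
  have h5 : (A * nP) * aP ≤ (A * nP) * ((256 * L ^ 2 * (1 + L) * r) / 0.9
      + (16384 * L ^ 4 * (1 + L) * r) / 0.9 + 20 * aQ) := by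
    have h6 : 0 ≤ A * nP * aQ := by positivity
    have h7 : (A * nP) * ((256 * L ^ 2 * (1 + L) * r) / 0.9
      + (16384 * L ^ 4 * (1 + L) * r) / 0.9 + 20 * aQ)
      = ((A * nP) * (256 * L ^ 2 * (1 + L) * r) + (A * nP) * (16384 * L ^ 4 * (1 + L) * r)) / 0.9
        + 20 * (A * nP * aQ) := by ring
    rw [h7]
    have h8 : (A * nP) * aP ≤ ((A * nP) * (256 * L ^ 2 * (1 + L) * r)
        + (A * nP) * (16384 * L ^ 4 * (1 + L) * r) + 17.6 * (A * nP) * aQ) / 0.9 := by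
      rw [le_div_iff₀ (by norm_num)]
      linarith
    refine h8.trans ?_
    rw [add_div]
    have h9 : 17.6 * (A * nP) * aQ / 0.9 ≤ 20 * (A * nP * aQ) := by
      rw [div_le_iff₀ (by norm_num)]
      nlinarith
    linarith
  have h6 := le_of_mul_le_mul_left h5 hAn
  have h7 : L ^ 2 ≤ (1 + L) ^ 5 := by
    have h8 : L ^ 2 ≤ (1 + L) ^ 2 := pow_le_pow_left₀ hL0.le (by linarith) 2
    exact h8.trans (pow_le_pow_right₀ (by linarith) (by norm_num))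
  have h8 : L ^ 4 ≤ (1 + L) ^ 5 := by
    have h8 : L ^ 4 ≤ (1 + L) ^ 4 := pow_le_pow_left₀ hL0.le (by linarith) 4
    exact h8.trans (pow_le_pow_right₀ (by linarith) (by norm_num))
  have hs : 0 ≤ (1 + L) * r := by positivity
  have k1 : 256 * L ^ 2 * (1 + L) * r ≤ 256 * ((1 + L) ^ 6 * r) := by
    have := mul_le_mul_of_nonneg_right h7 hs
    nlinarith
  have k2 : 16384 * L ^ 4 * (1 + L) * r ≤ 16384 * ((1 + L) ^ 6 * r) := by
    have := mul_le_mul_of_nonneg_right h8 hs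
    nlinarith
  have k0 : 0 ≤ (1 + L) ^ 6 * r := by positivity
  have k3 : (256 * L ^ 2 * (1 + L) * r) / 0.9 + (16384 * L ^ 4 * (1 + L) * r) / 0.9
      ≤ 20000 * ((1 + L) ^ 6 * r) := by
    rw [← add_div, div_le_iff₀ (by norm_num)]
    linarith
  linarith

theorem step : ∃ C : ℕ, ∃ E : ℝ, 0 ≤ E ∧ ∃ m0 : ℕ, ∀ (m : ℕ) [NeZero m], m0 ≤ m →
    ∀ ρ : ℝ, Rho C m ρ → ∀ η : ℤ, Hyp2 ρ m η → ∀ P : ℕ, bb m < P → P ≤ yy m →
      aa ρ m η P ≤ 20 * aa ρ m η (Nat.sqrt P) + E * (1 + Real.log m) ^ 6 * ρ ^ (1 / 3 : ℝ) := by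
  obtain ⟨C1, m1, hXr⟩ := Xr_card
  obtain ⟨C2, m2, hbase⟩ := base_scale
  obtain ⟨m3, hcop⟩ := cop_big
  obtain ⟨m4, hpq⟩ := pq_card
  obtain ⟨m5, hgrow⟩ := grow 4 0 (51 / 100) (by norm_num)
  refine ⟨max C1 C2, 20000, by norm_num, m1 + m2 + m3 + m4 + m5 + 8, ?_⟩
  intro m _ hm ρ hρ η hη P hP1 hP2
  have hm8 : 8 ≤ m := by omega
  have hm3 : 3 ≤ m := by omega
  have hm0 : (0 : ℝ) < m := by exact_mod_cast (by omega : 0 < m)
  have hL : 2 ≤ Real.log m := by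
    rw [Real.le_log_iff_exp_le hm0]
    have h1 : Real.exp 2 ≤ 8 := by
      have h2 : Real.exp 2 = Real.exp 1 * Real.exp 1 := by rw [← Real.exp_add]; norm_num
      have h3 := Real.exp_one_lt_d9
      have h4 := Real.exp_pos 1
      rw [h2]
      nlinarith
    have h2 : (8 : ℝ) ≤ m := by exact_mod_cast hm8
    linarith
  have hL0 : 0 < Real.log m := by linarith
  have hX := hXr m (by omega) ρ (Rho_mono (le_max_left _ _) hm3 hρ)
  have hB := hbase m (by omega) ρ (Rho_mono (le_max_right _ _) hm3 hρ) η hη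
  have hρ0 : 0 < ρ := hρ.1
  -- sizes
  have hPpos : 0 < P := by omega
  have hPr : (0 : ℝ) < P := by exact_mod_cast hPpos
  have hPL : Real.log m ^ 800 ≤ (P : ℝ) := by
    have h1 : ⌊Real.log m ^ 800⌋₊ < P := hP1
    exact ((Nat.floor_lt (by positivity)).mp h1).le
  have hPy : (P : ℝ) ≤ (m : ℝ) ^ (49 / 100 : ℝ) := by
    have h1 : (yy m : ℝ) ≤ (m : ℝ) ^ (49 / 100 : ℝ) := Nat.floor_le (by positivity)
    have h2 : (P : ℝ) ≤ (yy m : ℝ) := by exact_mod_cast hP2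
    linarith
  have hm1 : (1 : ℝ) ≤ m := by exact_mod_cast (by omega : 1 ≤ m)
  have hPm : P ≤ m := by
    have h1 : (m : ℝ) ^ (49 / 100 : ℝ) ≤ (m : ℝ) ^ (1 : ℝ) :=
      Real.rpow_le_rpow_of_exponent_le hm1 (by norm_num)
    rw [Real.rpow_one] at h1
    exact_mod_cast hPy.trans h1
  have hm51 : (4 : ℝ) ≤ (m : ℝ) ^ (51 / 100 : ℝ) := by
    have := hgrow m (by omega)
    simpa using this
  have hsplit : (m : ℝ) ^ (51 / 100 : ℝ) * (m : ℝ) ^ (49 / 100 : ℝ) = m := by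
    rw [← Real.rpow_add hm0]
    norm_num
  obtain ⟨Q, hQ⟩ : ∃ Q, Q = Nat.sqrt P := ⟨_, rfl⟩
  obtain ⟨M, hM⟩ : ∃ M, M = m / (2 * P) := ⟨_, rfl⟩
  have hQ1 : Q * Q ≤ P := by rw [hQ]; exact Nat.sqrt_le P
  have hQ2 : P < (Q + 1) * (Q + 1) := by rw [hQ]; exact Nat.lt_succ_sqrt P
  have hM1 : 2 * P * M ≤ m := by rw [hM]; exact Nat.mul_div_le m (2 * P)
  have hM2 : 2 * Q ^ 2 * M ≤ m := by
    refine le_trans ?_ hM1
    have : Q ^ 2 ≤ P := by rw [pow_two]; exact hQ1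
    exact Nat.mul_le_mul_right _ (Nat.mul_le_mul_left _ this)
  have hM3 : (m : ℝ) / (4 * P) ≤ M := by
    have h1 : m < 2 * P * (M + 1) := by
      rw [hM]
      have := Nat.lt_mul_div_succ m (show 0 < 2 * P by omega)
      exact this
    have h2 : (m : ℝ) < 2 * P * (M + 1) := by exact_mod_cast h1
    have h3 : (4 : ℝ) * P ≤ m := by
      calc (4 : ℝ) * P ≤ (m : ℝ) ^ (51 / 100 : ℝ) * (m : ℝ) ^ (49 / 100 : ℝ) :=
            mul_le_mul hm51 hPy hPr.le (by positivity)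
        _ = m := hsplit
    have h4 : (1 : ℝ) ≤ M := by
      have h5 : 1 ≤ M := by
        by_contra h6
        have h7 : M = 0 := by omega
        rw [h7] at h1
        have h8 : 4 * P ≤ m := by exact_mod_cast h3
        omega
      exact_mod_cast h5
    rw [div_le_iff₀ (by positivity)]
    nlinarith
  have hM4 : (m : ℝ) ^ (51 / 100 : ℝ) / 4 ≤ M := by
    refine le_trans ?_ hM3
    rw [div_le_div_iff₀ (by norm_num) (by positivity)]
    have h1 : (m : ℝ) ^ (51 / 100 : ℝ) * P ≤ m := by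
      calc (m : ℝ) ^ (51 / 100 : ℝ) * P ≤ (m : ℝ) ^ (51 / 100 : ℝ) * (m : ℝ) ^ (49 / 100 : ℝ) :=
            mul_le_mul_of_nonneg_left hPy (by positivity)
        _ = m := hsplit
    linarith
  obtain ⟨hc1, hc2⟩ := hcop m (by omega) M hM4
  have hKK : 0 ≤ KK m := by
    unfold KK
    positivity
  have hX2 : ((Xr ρ m).card : ℝ) * KK m ≤ ((cop m M).card : ℝ) / 10 := by
    have h1 : ((Xr ρ m).card : ℝ) * KK m ≤ (m : ℝ) ^ (1 / 200 : ℝ) * KK m :=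
      mul_le_mul_of_nonneg_right hX hKK
    linarith
  have hA : (m : ℝ) / (16 * P * (1 + Real.log m)) ≤ ((cop m M).card : ℝ) := by
    refine le_trans ?_ hc1
    rw [le_div_iff₀ (by positivity)]
    have h1 : (m : ℝ) / (16 * P * (1 + Real.log m)) * (4 + 4 * Real.log m) = m / (4 * P) := by
      field_simp
      ring
    rw [h1]
    exact hM3
  -- Q large
  have hLQ : Real.log m ^ 3 ≤ (Q : ℝ) := by
    by_contra h1
    rw [not_le] at h1
    have h2 : (P : ℝ) < (Q + 1) * (Q + 1) := by exact_mod_cast hQ2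
    have h3 : (1 : ℝ) ≤ Real.log m ^ 3 := one_le_pow₀ (by linarith)
    have h4 : ((Q : ℝ) + 1) * (Q + 1) ≤ (2 * Real.log m ^ 3) * (2 * Real.log m ^ 3) := by
      have h5 : (Q : ℝ) + 1 ≤ 2 * Real.log m ^ 3 := by linarith
      have h6 : (0 : ℝ) ≤ (Q : ℝ) + 1 := by positivity
      exact mul_le_mul h5 h5 h6 (by positivity)
    have h5 : (2 * Real.log m ^ 3) * (2 * Real.log m ^ 3) ≤ Real.log m ^ 8 := by
      have h6 : Real.log m ^ 8 = Real.log m ^ 2 * Real.log m ^ 6 := by ring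
      have h7 : (4 : ℝ) ≤ Real.log m ^ 2 := by nlinarith
      rw [h6]
      have h8 : (0 : ℝ) ≤ Real.log m ^ 6 := by positivity
      nlinarith
    have h6 : Real.log m ^ 8 ≤ Real.log m ^ 800 :=
      pow_le_pow_right₀ (by linarith) (by norm_num)
    linarith
  have hQpos : (0 : ℝ) < Q := lt_of_lt_of_le (by positivity) hLQ
  have hQn : 0 < Q := by exact_mod_cast hQpos
  have hLP : Real.log m ^ 3 ≤ (P : ℝ) :=
    (pow_le_pow_right₀ (by linarith) (by norm_num)).trans hPL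
  have hQP : Q ≤ P := by
    calc Q = Q * 1 := (mul_one Q).symm
      _ ≤ Q * Q := Nat.mul_le_mul_left _ hQn
      _ ≤ P := hQ1
  have hn1 := hpq m (by omega) P hLP hPm
  have hn2 := hpq m (by omega) Q hLQ (hQP.trans hPm)
  have hnP0 : (0 : ℝ) < ((pq m P).card : ℝ) := lt_of_lt_of_le (by positivity) hn1
  have hnQ0 : (0 : ℝ) < ((pq m Q).card : ℝ) := lt_of_lt_of_le (by positivity) hn2
  have hsP : ∑ p ∈ pq m P, Ww ρ m η p = ((pq m P).card : ℝ) * aa ρ m η P := by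
    unfold aa
    field_simp
  have hsQ : ∑ p ∈ pq m Q, Ww ρ m η p = ((pq m Q).card : ℝ) * aa ρ m η Q := by
    unfold aa
    field_simp
  have hWnn : ∀ T : ℕ, 0 ≤ aa ρ m η T := by
    intro T
    unfold aa
    refine div_nonneg (sum_nonneg fun p _ => ?_) (Nat.cast_nonneg _)
    unfold Ww
    exact sum_nonneg fun χ _ => by positivity
  have hA1 := stepA m hm3 ρ η Q M hM2
  have hB1 := stepB m hm3 ρ η P M hM1
  rw [hsQ] at hA1
  rw [hsP] at hB1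
  have hq4 : (P : ℝ) ≤ 4 * (Q : ℝ) ^ 2 := by
    have h2 : (P : ℝ) < (Q + 1) * (Q + 1) := by exact_mod_cast hQ2
    have h3 : (1 : ℝ) ≤ Q := by exact_mod_cast hQn
    nlinarith
  rw [← hQ]
  exact hstep_num hL hPr hm0 hq4 hQpos (hWnn P) (hWnn Q) (by positivity) hA hX2 hB hn1 hn2
    hA1 hB1

end Pool.Agent.H78.PH
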