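import Pool.Agent.H78.PH.HT7a

/-!
# LQ / PG stage 2, HT7b: the real character is close to `λ` on all intervals

`χ` from `t7a`, `c = cc χ`, `D'(M) = ∑_{x ∈ cop m M} ‖λ(x) - c χ(x)‖²`; `D'(m/2) ≤ ρ^(1/11) m` (`half_le` with `X = {χ}`).
Scales: `1 ≤ M`, `2 M ≤ m`; `Q` the largest number with `2 M Q³ ≤ m` (`Nat.findGreatest`; `Q ≥ 1`, `m < 2 M (Q+1)³ ≤ 16 M Q³`).
(i) `Q ≥ (log m)^3`: `Q ≤ m^(1/3) ≤ yy m`; `T = {p ∈ pq m Q : χ p = -1}`, `#T ≥ #pq/2 ≥ Q/(8 log m)` (`pq_card`).  For a triple `s = p₁ p₂ p₃` and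
`x ∈ cop m M`: `s x ≤ m/2`, `λ(s x) = -λ(x)`, `χ(s x) = -χ(x)`, so the term at `s x` is the term at `x`; `#T³ D'(M) ≤ (2 log m)³ D'(m/2)`
(`triples_dvd`).  So `D'(M) ≤ (16 (log m)²)³ ρ^(1/11) m/Q³ ≤ 16 M (16 (log m)²)³ ρ^(1/11)`.
(ii) `Q < (log m)^3`: `D'(M) ≤ D'(m/2) ≤ ρ^(1/11) m ≤ ρ^(1/11) 16 M (log m)^9`.
In both cases `D'(M) ≤ M ρ^(1/12)` (`small`).  `M = 1`: `‖1 - c‖² ≤ ρ^(1/12)`.  So `∑_{cop M} ‖λ - χ‖² ≤ 2 D'(M) + 2 M ‖1 - c‖² ≤ 4 M ρ^(1/12)`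
and `λ, χ ∈ {1, -1}` there, `‖λ - χ‖ ≤ ‖λ - χ‖²`; `4 ρ^(1/12) ≤ ρ^(1/13)`.
-/

set_option autoImplicit false

namespace Pool.Agent.H78.PH

open Finset
open Pool.Agent.H34PG (lam lam_val lam_mul lam_prime)
open Pool.Agent.H11.LQ Pool.Agent.H78.PG

/-- scale change by products of three primes -/
theorem scale3 (m : ℕ) [NeZero m] (hm : 3 ≤ m) (χ : DirichletCharacter ℂ m) (c : ℂ)
    (T : Finset ℕ) (Q M : ℕ) (hT : ∀ p ∈ T, p.Prime ∧ p ≤ Q ∧ ¬ p ∣ m ∧ χ (p : ZMod m) = -1)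
    (hM : 2 * M * Q ^ 3 ≤ m) :
    (T.card : ℝ) ^ 3 * ∑ x ∈ cop m M, ‖((lam x : ℤ) : ℂ) - c * χ (x : ZMod m)‖ ^ 2
      ≤ (2 * Real.log m) ^ 3 *
        ∑ x ∈ cop m (m / 2), ‖((lam x : ℤ) : ℂ) - c * χ (x : ZMod m)‖ ^ 2 := by
  classical
  obtain ⟨f, hf⟩ : ∃ f : ℕ → ℝ, ∀ x, f x = ‖((lam x : ℤ) : ℂ) - c * χ (x : ZMod m)‖ ^ 2 :=
    ⟨_, fun _ => rfl⟩
  have hf0 : ∀ x, 0 ≤ f x := fun x => by rw [hf]; positivity
  simp only [← hf]
  obtain ⟨s, hs⟩ : ∃ s : ℕ × (ℕ × ℕ) → ℕ, ∀ q, s q = q.1 * (q.2.1 * q.2.2) := ⟨_, fun _ => rfl⟩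
  have hmem : ∀ q ∈ T ×ˢ (T ×ˢ T), q.1 ∈ T ∧ q.2.1 ∈ T ∧ q.2.2 ∈ T := by
    intro q hq
    rw [mem_product, mem_product] at hq
    exact ⟨hq.1, hq.2.1, hq.2.2⟩
  have hspos : ∀ q ∈ T ×ˢ (T ×ˢ T), 0 < s q := by
    intro q hq
    obtain ⟨h1, h2, h3⟩ := hmem q hq
    rw [hs]
    exact Nat.mul_pos (hT _ h1).1.pos (Nat.mul_pos (hT _ h2).1.pos (hT _ h3).1.pos)
  have hsle : ∀ q ∈ T ×ˢ (T ×ˢ T), s q ≤ Q ^ 3 := by
    intro q hq
    obtain ⟨h1, h2, h3⟩ := hmem q hq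
    rw [hs]
    calc q.1 * (q.2.1 * q.2.2) ≤ Q * (Q * Q) :=
          Nat.mul_le_mul (hT _ h1).2.1 (Nat.mul_le_mul (hT _ h2).2.1 (hT _ h3).2.1)
      _ = Q ^ 3 := by ring
  have hscop : ∀ q ∈ T ×ˢ (T ×ˢ T), (s q).Coprime m := by
    intro q hq
    obtain ⟨h1, h2, h3⟩ := hmem q hq
    rw [hs]
    exact Nat.Coprime.mul_left ((hT _ h1).1.coprime_iff_not_dvd.2 (hT _ h1).2.2.1)
      (Nat.Coprime.mul_left ((hT _ h2).1.coprime_iff_not_dvd.2 (hT _ h2).2.2.1)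
        ((hT _ h3).1.coprime_iff_not_dvd.2 (hT _ h3).2.2.1))
  have hslam : ∀ q ∈ T ×ˢ (T ×ˢ T), lam (s q) = -1 := by
    intro q hq
    obtain ⟨h1, h2, h3⟩ := hmem q hq
    have p1 := (hT _ h1).1
    have p2 := (hT _ h2).1
    have p3 := (hT _ h3).1
    rw [hs, lam_mul _ _ p1.pos (Nat.mul_pos p2.pos p3.pos), lam_mul _ _ p2.pos p3.pos,
      lam_prime p1, lam_prime p2, lam_prime p3]
    norm_num
  have hschi : ∀ q ∈ T ×ˢ (T ×ˢ T), χ ((s q : ℕ) : ZMod m) = -1 := by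
    intro q hq
    obtain ⟨h1, h2, h3⟩ := hmem q hq
    rw [hs]
    push_cast
    rw [map_mul, map_mul, (hT _ h1).2.2.2, (hT _ h2).2.2.2, (hT _ h3).2.2.2]
    norm_num
  have hfs : ∀ q ∈ T ×ˢ (T ×ˢ T), ∀ x ∈ cop m M, f (s q * x) = f x := by
    intro q hq x hx
    rw [mem_cop] at hx
    rw [hf, hf, lam_mul _ _ (hspos q hq) hx.1, hslam q hq]
    push_cast
    rw [map_mul, hschi q hq]
    have : (-1 * ((lam x : ℤ) : ℂ) - c * (-1 * χ (x : ZMod m)))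
        = -(((lam x : ℤ) : ℂ) - c * χ (x : ZMod m)) := by ring
    rw [this, norm_neg]
  have hin : ∀ q ∈ T ×ˢ (T ×ˢ T), ∑ x ∈ cop m M, f x ≤
      ∑ y ∈ (cop m (m / 2)).filter (fun y => s q ∣ y), f y := by
    intro q hq
    calc ∑ x ∈ cop m M, f x = ∑ x ∈ cop m M, f (s q * x) :=
          Finset.sum_congr rfl fun x hx => (hfs q hq x hx).symm
      _ = ∑ y ∈ (cop m M).image (fun x => s q * x), f y := by
          rw [Finset.sum_image]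
          intro a _ b _ hab
          exact Nat.eq_of_mul_eq_mul_left (hspos q hq) hab
      _ ≤ ∑ y ∈ (cop m (m / 2)).filter (fun y => s q ∣ y), f y := by
          refine Finset.sum_le_sum_of_subset_of_nonneg ?_ fun y _ _ => hf0 y
          intro y hy
          rw [mem_image] at hy
          obtain ⟨x, hx, rfl⟩ := hy
          rw [mem_cop] at hx
          rw [mem_filter, mem_cop]
          refine ⟨⟨Nat.mul_pos (hspos q hq) hx.1, ?_, ?_⟩, dvd_mul_right _ _⟩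
          · rw [Nat.le_div_iff_mul_le (by norm_num)]
            calc s q * x * 2 ≤ Q ^ 3 * M * 2 :=
                  Nat.mul_le_mul_right 2 (Nat.mul_le_mul (hsle q hq) hx.2.1)
              _ = 2 * M * Q ^ 3 := by ring
              _ ≤ m := hM
          · exact Nat.Coprime.mul_left (hscop q hq) hx.2.2
  have hcard : ((T ×ˢ (T ×ˢ T)).card : ℝ) = (T.card : ℝ) ^ 3 := by
    rw [card_product, card_product]
    push_cast
    ring
  calc (T.card : ℝ) ^ 3 * ∑ x ∈ cop m M, f x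
      = ∑ q ∈ T ×ˢ (T ×ˢ T), ∑ x ∈ cop m M, f x := by
        rw [Finset.sum_const, nsmul_eq_mul, hcard]
    _ ≤ ∑ q ∈ T ×ˢ (T ×ˢ T), ∑ y ∈ (cop m (m / 2)).filter (fun y => s q ∣ y), f y :=
        Finset.sum_le_sum hin
    _ = ∑ q ∈ T ×ˢ (T ×ˢ T), ∑ y ∈ cop m (m / 2), if s q ∣ y then f y else 0 := by
        refine Finset.sum_congr rfl fun q _ => ?_
        rw [Finset.sum_filter]
    _ = ∑ y ∈ cop m (m / 2), ∑ q ∈ T ×ˢ (T ×ˢ T), if s q ∣ y then f y else 0 :=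
        Finset.sum_comm
    _ = ∑ y ∈ cop m (m / 2), (((T ×ˢ (T ×ˢ T)).filter
          (fun q => q.1 * (q.2.1 * q.2.2) ∣ y)).card : ℝ) * f y := by
        refine Finset.sum_congr rfl fun y _ => ?_
        rw [← Finset.sum_filter, Finset.sum_const, nsmul_eq_mul]
        simp only [hs]
    _ ≤ ∑ y ∈ cop m (m / 2), (2 * Real.log m) ^ 3 * f y := by
        refine Finset.sum_le_sum fun y hy => ?_
        rw [mem_cop] at hy
        exact mul_le_mul_of_nonneg_right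
          (triples_dvd (fun p hp => (hT p hp).1) hy.1 (hy.2.1.trans (Nat.div_le_self _ _))) (hf0 y)
    _ = (2 * Real.log m) ^ 3 * ∑ y ∈ cop m (m / 2), f y := by
        rw [Finset.mul_sum]

/-- the largest admissible `Q` -/
private theorem ht7b_Q (m M : ℕ) (hM : 1 ≤ M) (h2 : 2 * M ≤ m) :
    ∃ Q : ℕ, 1 ≤ Q ∧ 2 * M * Q ^ 3 ≤ m ∧ m ≤ 16 * M * Q ^ 3 := by
  classical
  have hP1 : 2 * M * 1 ^ 3 ≤ m := by simpa using h2
  have hm1 : 1 ≤ m := by omega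
  refine ⟨Nat.findGreatest (fun Q => 2 * M * Q ^ 3 ≤ m) m, ?_, ?_, ?_⟩
  · exact Nat.le_findGreatest hm1 hP1
  · exact Nat.findGreatest_spec (P := fun Q => 2 * M * Q ^ 3 ≤ m) hm1 hP1
  · have hQ1 : 1 ≤ Nat.findGreatest (fun Q => 2 * M * Q ^ 3 ≤ m) m :=
      Nat.le_findGreatest hm1 hP1
    have hQ2 : 2 * M * (Nat.findGreatest (fun Q => 2 * M * Q ^ 3 ≤ m) m) ^ 3 ≤ m :=
      Nat.findGreatest_spec (P := fun Q => 2 * M * Q ^ 3 ≤ m) hm1 hP1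
    have hQ3 : ∀ k, Nat.findGreatest (fun Q => 2 * M * Q ^ 3 ≤ m) m < k → k ≤ m →
        ¬ (2 * M * k ^ 3 ≤ m) := fun k hk hkm =>
      Nat.findGreatest_is_greatest (P := fun Q => 2 * M * Q ^ 3 ≤ m) hk hkm
    obtain ⟨Q, hQ⟩ : ∃ Q, Q = Nat.findGreatest (fun Q => 2 * M * Q ^ 3 ≤ m) m := ⟨_, rfl⟩
    rw [← hQ] at hQ1 hQ2 hQ3 ⊢
    have hQm : Q + 1 ≤ m := by
      have h3 : Q ≤ Q ^ 3 := Nat.le_self_pow (by norm_num) Q
      have h4 : 2 * 1 * Q ≤ 2 * M * Q ^ 3 := Nat.mul_le_mul (Nat.mul_le_mul_left 2 hM) h3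
      omega
    have h5 := hQ3 (Q + 1) (Nat.lt_succ_self _) hQm
    push Not at h5
    have h6 : (Q + 1) ^ 3 ≤ 8 * Q ^ 3 := by
      calc (Q + 1) ^ 3 ≤ (2 * Q) ^ 3 := Nat.pow_le_pow_left (by omega) 3
        _ = 8 * Q ^ 3 := by ring
    calc m ≤ 2 * M * (Q + 1) ^ 3 := h5.le
      _ ≤ 2 * M * (8 * Q ^ 3) := Nat.mul_le_mul_left _ h6
      _ = 16 * M * Q ^ 3 := by ring

/-- the case of long scales, numerically -/
private theorem ht7b_num {t Q L D H M m E : ℝ} (hL : 0 < L) (hQ : 0 < Q) (ht : Q / (8 * L) ≤ t)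
    (hD : 0 ≤ D) (hE : 0 ≤ E) (h1 : t ^ 3 * D ≤ (2 * L) ^ 3 * H) (h2 : H ≤ E * m)
    (h3 : m ≤ 16 * M * Q ^ 3) : D ≤ M * (65536 * L ^ 6 * E) := by
  have h4 : (Q / (8 * L)) ^ 3 * D ≤ (2 * L) ^ 3 * (E * (16 * M * Q ^ 3)) := by
    calc (Q / (8 * L)) ^ 3 * D ≤ t ^ 3 * D :=
          mul_le_mul_of_nonneg_right (pow_le_pow_left₀ (by positivity) ht 3) hD
      _ ≤ (2 * L) ^ 3 * H := h1
      _ ≤ (2 * L) ^ 3 * (E * m) := mul_le_mul_of_nonneg_left h2 (by positivity)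
      _ ≤ (2 * L) ^ 3 * (E * (16 * M * Q ^ 3)) :=
          mul_le_mul_of_nonneg_left (mul_le_mul_of_nonneg_left h3 hE) (by positivity)
  have h5 : (2 * L) ^ 3 * (E * (16 * M * Q ^ 3))
      = (Q / (8 * L)) ^ 3 * (M * (65536 * L ^ 6 * E)) := by
    field_simp
    ring
  rw [h5] at h4
  exact le_of_mul_le_mul_left h4 (by positivity)

theorem t7' : ∃ C : ℕ, ∃ m0 : ℕ, ∀ (m : ℕ) [NeZero m], m0 ≤ m → ∀ ρ : ℝ, Rho C m ρ →
    ∀ η : ℤ, Hyp2 ρ m η → ∃ χ : DirichletCharacter ℂ m, χ ^ 2 = 1 ∧ χ ≠ 1 ∧ χ (-1) = (η : ℂ) ∧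
      ∀ M : ℕ, 1 ≤ M → 2 * M ≤ m →
        ∑ x ∈ cop m M, ‖((lam x : ℤ) : ℂ) - χ (x : ZMod m)‖ ≤ M * ρ ^ (1 / 13 : ℝ) := by
  classical
  obtain ⟨C1, n1, H1⟩ := t7a
  obtain ⟨n2, H2⟩ := pq_card
  obtain ⟨C3, n3, H3⟩ := small 65536 9 (1 / 132) (by norm_num)
  obtain ⟨C4, n4, H4⟩ := small 4 0 (1 / 156) (by norm_num)
  refine ⟨C1 + C3 + C4, n1 + n2 + n3 + n4 + 3, fun m _ hm ρ hρ η hyp => ?_⟩
  have hm3 : 3 ≤ m := by omega
  have hρ0 : 0 < ρ := hρ.1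
  obtain ⟨χ, hχX, hsq, hne, hpar, hwt, hhalf⟩ :=
    H1 m (by omega) ρ (Rho_mono (by omega) hm3 hρ) η hyp
  replace H2 := H2 m (by omega)
  replace H3 := H3 m (by omega) ρ (Rho_mono (by omega) hm3 hρ)
  replace H4 := H4 m (by omega) ρ (Rho_mono (by omega) hm3 hρ)
  rw [pow_zero, mul_one] at H4
  refine ⟨χ, hsq, hne, hpar, ?_⟩
  have hmR : (0 : ℝ) < (m : ℝ) := by
    have : 0 < m := by omega
    exact_mod_cast this
  have hm1 : (1 : ℝ) < (m : ℝ) := by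
    have : 1 < m := by omega
    exact_mod_cast this
  have hL : 0 < Real.log m := Real.log_pos hm1
  obtain ⟨L, hLdef⟩ : ∃ L : ℝ, L = Real.log m := ⟨_, rfl⟩
  rw [← hLdef] at hL H3 H2
  obtain ⟨c, hc⟩ : ∃ c : ℂ, c = cc m (FC m η) χ := ⟨_, rfl⟩
  obtain ⟨E, hE⟩ : ∃ E : ℝ, E = ρ ^ (1 / 11 : ℝ) := ⟨_, rfl⟩
  have hE0 : 0 ≤ E := by rw [hE]; positivity
  have hH : ∑ y ∈ cop m (m / 2), ‖((lam y : ℤ) : ℂ) - c * χ (y : ZMod m)‖ ^ 2 ≤ E * m := by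
    have h := half_le m (by omega) η ({χ} : Finset (DirichletCharacter ℂ m))
    simp only [sum_singleton] at h
    rw [← hc] at h
    refine h.trans ?_
    rw [mul_comm]
    refine mul_le_mul_of_nonneg_right ?_ hmR.le
    rw [hE]
    exact hwt
  have hEA : 65536 * (1 + L) ^ 9 * E ≤ ρ ^ (1 / 12 : ℝ) := by
    have e : E = ρ ^ (1 / 132 : ℝ) * ρ ^ (1 / 12 : ℝ) := by
      rw [hE, ← Real.rpow_add hρ0]
      norm_num
    rw [e, ← mul_assoc]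
    have h := mul_le_mul_of_nonneg_right H3 (Real.rpow_nonneg hρ0.le (1 / 12 : ℝ))
    rwa [one_mul] at h
  -- the distance with the coefficient
  have hD : ∀ M : ℕ, 1 ≤ M → 2 * M ≤ m →
      ∑ x ∈ cop m M, ‖((lam x : ℤ) : ℂ) - c * χ (x : ZMod m)‖ ^ 2
        ≤ M * ρ ^ (1 / 12 : ℝ) := by
    intro M hM1 hM2
    have hMR : (0 : ℝ) ≤ (M : ℝ) := by positivity
    obtain ⟨Q, hQ1, hQ2, hQ3⟩ := ht7b_Q m M hM1 hM2
    have hQ0 : (0 : ℝ) < (Q : ℝ) := by exact_mod_cast hQ1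
    have hQ3' : (m : ℝ) ≤ 16 * M * Q ^ 3 := by exact_mod_cast hQ3
    have hD0 : 0 ≤ ∑ x ∈ cop m M, ‖((lam x : ℤ) : ℂ) - c * χ (x : ZMod m)‖ ^ 2 :=
      Finset.sum_nonneg fun _ _ => by positivity
    have hQm : Q ≤ m := by
      have h3 : Q ≤ Q ^ 3 := Nat.le_self_pow (by norm_num) Q
      have h4 : 2 * 1 * Q ≤ 2 * M * Q ^ 3 := Nat.mul_le_mul (Nat.mul_le_mul_left 2 hM1) h3
      omega
    rcases le_or_gt (L ^ 3) (Q : ℝ) with hcase | hcase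
    · have hQy : Q ≤ yy m := by
        unfold yy
        apply Nat.le_floor
        have h3 : Q ^ 3 ≤ m := by
          have : 1 * Q ^ 3 ≤ 2 * M * Q ^ 3 := Nat.mul_le_mul_right _ (by omega)
          omega
        have h3' : (Q : ℝ) ^ 3 ≤ (m : ℝ) := by exact_mod_cast h3
        calc (Q : ℝ) = ((Q : ℝ) ^ 3) ^ (1 / 3 : ℝ) := by
              rw [← Real.rpow_natCast, ← Real.rpow_mul hQ0.le]
              norm_num
          _ ≤ (m : ℝ) ^ (1 / 3 : ℝ) := Real.rpow_le_rpow (by positivity) h3' (by norm_num)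
          _ ≤ (m : ℝ) ^ (49 / 100 : ℝ) :=
              Real.rpow_le_rpow_of_exponent_le hm1.le (by norm_num)
      have hT1 : ((pq m Q).card : ℝ) / 2
          ≤ (((pq m Q).filter (fun p : ℕ => χ (p : ZMod m) = -1)).card : ℝ) := by
        have h0 := hhalf Q hQy
        first
          | exact h0
          | refine h0.trans ?_
            refine Nat.cast_le.2 ?_
            refine le_trans (Finset.card_le_card ?_)
              (Finset.card_image_le (s := (pq m Q).filter (fun p : ℕ => χ (p : ZMod m) = -1))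
                (f := fun p : ℕ => (p : ZMod m)))
            intro z hz
            rw [mem_filter] at hz
            obtain ⟨hz1, hz2⟩ := hz
            simp only [Finset.bind_def, Finset.pure_def, Finset.mem_sup,
              Finset.mem_singleton] at hz1
            obtain ⟨a, ha, rfl⟩ := hz1
            rw [mem_image]
            exact ⟨a, mem_filter.2 ⟨ha, hz2⟩, rfl⟩
      have hT2 := H2 Q hcase hQm
      have hT : (Q : ℝ) / (8 * L) ≤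
          (((pq m Q).filter (fun p : ℕ => χ (p : ZMod m) = -1)).card : ℝ) := by
        refine le_trans ?_ hT1
        have : (Q : ℝ) / (8 * L) = (Q : ℝ) / (4 * L) / 2 := by
          field_simp
          ring
        rw [this]
        linarith
      have hsc := scale3 m hm3 χ c ((pq m Q).filter (fun p : ℕ => χ (p : ZMod m) = -1)) Q M
        (fun p hp => by
          rw [mem_filter, mem_pq] at hp
          exact ⟨hp.1.2.1, hp.1.1, hp.1.2.2, hp.2⟩) hQ2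
      rw [← hLdef] at hsc
      have hfin := ht7b_num hL hQ0 hT hD0 hE0 hsc hH hQ3'
      refine hfin.trans (mul_le_mul_of_nonneg_left ?_ hMR)
      refine le_trans ?_ hEA
      refine mul_le_mul_of_nonneg_right ?_ hE0
      refine mul_le_mul_of_nonneg_left ?_ (by norm_num)
      calc L ^ 6 ≤ (1 + L) ^ 6 := pow_le_pow_left₀ hL.le (by linarith) 6
        _ ≤ (1 + L) ^ 9 := pow_le_pow_right₀ (by linarith) (by norm_num)
    · have hsub : cop m M ⊆ cop m (m / 2) := by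
        intro x hx
        rw [mem_cop] at hx ⊢
        refine ⟨hx.1, hx.2.1.trans ?_, hx.2.2⟩
        omega
      have h1 : ∑ x ∈ cop m M, ‖((lam x : ℤ) : ℂ) - c * χ (x : ZMod m)‖ ^ 2 ≤ E * m :=
        (Finset.sum_le_sum_of_subset_of_nonneg hsub fun _ _ _ => by positivity).trans hH
      have h2 : (Q : ℝ) ^ 3 ≤ L ^ 9 := by
        calc (Q : ℝ) ^ 3 ≤ (L ^ 3) ^ 3 := pow_le_pow_left₀ hQ0.le hcase.le 3
          _ = L ^ 9 := by ring
      calc ∑ x ∈ cop m M, ‖((lam x : ℤ) : ℂ) - c * χ (x : ZMod m)‖ ^ 2 ≤ E * m := h1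
        _ ≤ E * (16 * M * L ^ 9) := by
            refine mul_le_mul_of_nonneg_left ?_ hE0
            exact hQ3'.trans (mul_le_mul_of_nonneg_left h2 (by positivity))
        _ = M * (16 * L ^ 9 * E) := by ring
        _ ≤ M * (65536 * (1 + L) ^ 9 * E) := by
            refine mul_le_mul_of_nonneg_left (mul_le_mul_of_nonneg_right ?_ hE0) hMR
            exact mul_le_mul (by norm_num) (pow_le_pow_left₀ hL.le (by linarith) 9)
              (by positivity) (by norm_num)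
        _ ≤ M * ρ ^ (1 / 12 : ℝ) := mul_le_mul_of_nonneg_left hEA hMR
  have hcop1 : cop m 1 = {1} := by
    ext x
    rw [mem_cop, Finset.mem_singleton]
    constructor
    · rintro ⟨a, b, _⟩
      omega
    · rintro rfl
      exact ⟨le_rfl, le_rfl, Nat.coprime_one_left m⟩
  have hlam1 : lam 1 = 1 := by
    have h := lam_mul 1 1 one_pos one_pos
    rcases lam_val 1 with h2 | h2
    · exact h2
    · rw [mul_one, h2] at h
      norm_num at h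
  have hc1 : ‖(1 : ℂ) - c‖ ^ 2 ≤ ρ ^ (1 / 12 : ℝ) := by
    have h := hD 1 le_rfl (by omega)
    rw [hcop1, Finset.sum_singleton, hlam1] at h
    push_cast at h
    rw [map_one, mul_one, one_mul] at h
    exact h
  intro M hM1 hM2
  have hDM := hD M hM1 hM2
  have hMR : (0 : ℝ) ≤ (M : ℝ) := by positivity
  have hcc : ((cop m M).card : ℝ) ≤ M := by
    have : (cop m M).card ≤ M := by
      unfold cop
      refine (Finset.card_filter_le _ _).trans ?_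
      simp
    exact_mod_cast this
  have hval : ∀ x ∈ cop m M, ‖((lam x : ℤ) : ℂ) - χ (x : ZMod m)‖
      ≤ 2 * ‖((lam x : ℤ) : ℂ) - c * χ (x : ZMod m)‖ ^ 2 + 2 * ρ ^ (1 / 12 : ℝ) := by
    intro x hx
    rw [mem_cop] at hx
    have hu : IsUnit (x : ZMod m) := by
      rw [ZMod.isUnit_iff_coprime]
      exact hx.2.2
    have hχx : χ (x : ZMod m) = 1 ∨ χ (x : ZMod m) = -1 := by
      have h : χ (x : ZMod m) ^ 2 = 1 := by
        rw [← MulChar.pow_apply' χ two_ne_zero, hsq, MulChar.one_apply hu]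
      have h' : (χ (x : ZMod m) - 1) * (χ (x : ZMod m) + 1) = 0 := by linear_combination h
      rcases mul_eq_zero.mp h' with h2 | h2
      · exact Or.inl (sub_eq_zero.mp h2)
      · exact Or.inr (eq_neg_of_add_eq_zero_left h2)
    have h5 : ‖((lam x : ℤ) : ℂ) - χ (x : ZMod m)‖ ≤ ‖((lam x : ℤ) : ℂ) - χ (x : ZMod m)‖ ^ 2 := by
      rcases hχx with h | h <;> rcases lam_val x with h2 | h2 <;> rw [h, h2] <;> norm_num
    have h6 : ‖((lam x : ℤ) : ℂ) - χ (x : ZMod m)‖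
        ≤ ‖((lam x : ℤ) : ℂ) - c * χ (x : ZMod m)‖ + ‖(1 : ℂ) - c‖ := by
      have h7 : ((lam x : ℤ) : ℂ) - χ (x : ZMod m)
          = (((lam x : ℤ) : ℂ) - c * χ (x : ZMod m)) - (1 - c) * χ (x : ZMod m) := by ring
      rw [h7]
      refine (norm_sub_le _ _).trans ?_
      rw [norm_mul]
      have h3 := DirichletCharacter.norm_le_one χ (x : ZMod m)
      have h4 := norm_nonneg (χ (x : ZMod m))
      have h5 := norm_nonneg ((1 : ℂ) - c)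
      nlinarith
    have h9 := norm_nonneg (((lam x : ℤ) : ℂ) - χ (x : ZMod m))
    have h13 : ‖((lam x : ℤ) : ℂ) - χ (x : ZMod m)‖ ^ 2
        ≤ (‖((lam x : ℤ) : ℂ) - c * χ (x : ZMod m)‖ + ‖(1 : ℂ) - c‖) ^ 2 :=
      pow_le_pow_left₀ h9 h6 2
    nlinarith [sq_nonneg (‖((lam x : ℤ) : ℂ) - c * χ (x : ZMod m)‖ - ‖(1 : ℂ) - c‖)]
  have h12 : (0 : ℝ) ≤ ρ ^ (1 / 12 : ℝ) := Real.rpow_nonneg hρ0.le _
  have hsum : ∑ x ∈ cop m M, ‖((lam x : ℤ) : ℂ) - χ (x : ZMod m)‖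
      ≤ M * (4 * ρ ^ (1 / 12 : ℝ)) := by
    calc ∑ x ∈ cop m M, ‖((lam x : ℤ) : ℂ) - χ (x : ZMod m)‖
        ≤ ∑ x ∈ cop m M, (2 * ‖((lam x : ℤ) : ℂ) - c * χ (x : ZMod m)‖ ^ 2
            + 2 * ρ ^ (1 / 12 : ℝ)) := Finset.sum_le_sum hval
      _ = 2 * ∑ x ∈ cop m M, ‖((lam x : ℤ) : ℂ) - c * χ (x : ZMod m)‖ ^ 2
          + (cop m M).card * (2 * ρ ^ (1 / 12 : ℝ)) := by
          rw [Finset.sum_add_distrib, ← Finset.mul_sum, Finset.sum_const, nsmul_eq_mul]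
      _ ≤ 2 * (M * ρ ^ (1 / 12 : ℝ)) + M * (2 * ρ ^ (1 / 12 : ℝ)) := by
          have h6 := mul_le_mul_of_nonneg_right hcc
            (mul_nonneg (by norm_num : (0 : ℝ) ≤ 2) h12)
          linarith
      _ = M * (4 * ρ ^ (1 / 12 : ℝ)) := by ring
  refine hsum.trans (mul_le_mul_of_nonneg_left ?_ hMR)
  have e : ρ ^ (1 / 12 : ℝ) = ρ ^ (1 / 156 : ℝ) * ρ ^ (1 / 13 : ℝ) := by
    rw [← Real.rpow_add hρ0]
    norm_num
  rw [e, ← mul_assoc]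
  have h := mul_le_mul_of_nonneg_right H4 (Real.rpow_nonneg hρ0.le (1 / 13 : ℝ))
  rwa [one_mul] at h

end Pool.Agent.H78.PH
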